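import Pool.Agent.Lib.MP_7b7e48_nt.T3D.Set3
import Pool.Agent.Lib.MP_7b7e48_nt.T3B.E4

/-!
# T3D / Fm3 (75 minutes): the data datS3 belong to the system

`D := T3B.datS3 S WA WB J0 J1 J2 y0`, `S.WY i` = the products `b' b''` (`Cmp.eq`), all sets of the family consist of primes `> y0` not dividing `N` and are disjoint (`T3B.SetsOk3`). PROOF. `x`, `rX`: `TCB.mem_TUPX`, and `rho_eq`, `sum_MX` in `BR/Fam.lean` (`1/prX id μ = prX (1/p) μ`).
`y`: a choice `f ∈ piFinset (famY3 S WA WB)` gives `ν := (fun i => b'_i b''_i, free primes, other marks)`, `∏ f = prY id ν`; conversely every `ν ∈ MY` comes from such a choice. `rY`: `∑_{l ∈ WY i} 1/l = (∑_{b' ∈ WA i} 1/b') (∑_{b'' ∈ WB i} 1/b'')`, because `(b', b'') ↦ b' b''` is injective on `WA i ×ˢ WB i` (different disjoint sets of primes), and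
`∑_{ν ∈ MY} ∏ = ∏ ∑` (`TCB.sum_prY`), `rho` is the product of all the sums (`Fin.prod_univ_add`). `sets`: the fields of `Sets3` from `SetsOk3` (an element `l = b' b''` of `WY i` is squarefree with two prime factors `b' ≠ b''`); `wz`: hypothesis.
-/

set_option autoImplicit false

open Finset

namespace Pool.Agent.Lib.T3D

open Pool.Agent.Lib.RG (Rough LV RC PZ)
open Pool.Agent.Lib.RH (Prm MM JJ Blk)
open Pool.Agent.Lib.TC (MS Msr)
open Pool.Agent.Lib.TCB (famX famY CR wD Wei dq BdS lenW dvW gW LW t2W)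
open Pool.Agent.Lib.TCF (TUP rho TM Rgh1 wt AP QS QM sgm)
open Pool.Agent.Lib.MP_45349e_nt.LS (lam)

open Pool.Agent.Lib.TCB (jX jX_mem jX_inj prX_eq prod_inj prod_sq jY jY_mem jY_inj prY_eq mem_TUPX)

theorem fam3_of_cmp {S : MS} {WA WB : Fin (S.k + 1) → Finset ℕ} {R y0 J0 J1 J2 y0' : ℕ} (hC : T3B.Cmp S WA WB)
    (hs : T3B.SetsOk3 S WA WB R y0) : Fam3 S (T3B.datS3 S WA WB J0 J1 J2 y0') where
  x := fun _ => mem_TUPX
  y := fun _ => T3B.mem_TUPY3 hC
  rX := T3B.rhoX3 S
  rY := hs.rhoY hC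

section idx

variable {S : MS} (WA WB : Fin (S.k + 1) → Finset ℕ)

private theorem Fm3_A (i : Fin (S.k + 1)) : T3B.famY3 S WA WB (Fin.castAdd S.nY (Fin.castAdd S.n0 (Fin.castAdd (S.k + 1) i))) = WA i := by
  unfold T3B.famY3
  rw [Fin.append_left, Fin.append_left, Fin.append_left]

private theorem Fm3_B (i : Fin (S.k + 1)) : T3B.famY3 S WA WB (Fin.castAdd S.nY (Fin.castAdd S.n0 (Fin.natAdd (S.k + 1) i))) = WB i := by
  unfold T3B.famY3
  rw [Fin.append_left, Fin.append_left, Fin.append_right]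

private theorem Fm3_F (i : Fin S.n0) : T3B.famY3 S WA WB (Fin.castAdd S.nY (Fin.natAdd (S.k + 1 + (S.k + 1)) i)) = S.FY i := by
  unfold T3B.famY3
  rw [Fin.append_left, Fin.append_right]

private theorem Fm3_O (i : Fin S.nY) : T3B.famY3 S WA WB (Fin.natAdd (S.k + 1 + (S.k + 1) + S.n0) i) = S.OY i := by
  unfold T3B.famY3
  rw [Fin.append_right]

end idx

/-- every prime factor of an element of the set `c` lies in a set of the family `famY3`, and these sets are different for different `c` -/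
private theorem Fm3_idx {S : MS} {WA WB : Fin (S.k + 1) → Finset ℕ} {R y0 : ℕ} (hC : T3B.Cmp S WA WB)
    (hs : T3B.SetsOk3 S WA WB R y0) (c : Fin (S.k + 1 + S.n0 + S.nY)) :
    ∃ C : Finset (Fin (S.k + 1 + (S.k + 1) + S.n0 + S.nY)),
      (∀ j ∈ C, (j : ℕ) = c ∨ (j : ℕ) = c + (S.k + 1)) ∧ ((c : ℕ) < S.k + 1 ∨ ∀ j ∈ C, (j : ℕ) = c + (S.k + 1)) ∧
      ∀ l ∈ famY S c, ∀ p : ℕ, p.Prime → p ∣ l → ∃ j ∈ C, p ∈ T3B.famY3 S WA WB j := by
  have hpr : ∀ j, ∀ p ∈ T3B.famY3 S WA WB j, p.Prime := fun j p hp => (hs.py j p hp).1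
  refine Fin.addCases (fun c => ?_) (fun c => ?_) c
  · refine Fin.addCases (fun c => ?_) (fun c => ?_) c
    · refine ⟨{Fin.castAdd S.nY (Fin.castAdd S.n0 (Fin.castAdd (S.k + 1) c)), Fin.castAdd S.nY (Fin.castAdd S.n0 (Fin.natAdd (S.k + 1) c))},
        ?_, ?_, ?_⟩
      · intro j hj
        rw [mem_insert, mem_singleton] at hj
        rcases hj with rfl | rfl
        · left; simp
        · right; simp only [Fin.val_castAdd, Fin.val_natAdd]; omega
      · left
        simp only [Fin.val_castAdd]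
        exact c.isLt
      · intro l hl p hp hd
        unfold famY at hl
        rw [Fin.append_left, Fin.append_left, hC.eq, mem_image] at hl
        obtain ⟨x, hx, rfl⟩ := hl
        rw [mem_product] at hx
        rcases hp.dvd_mul.1 hd with h | h
        · refine ⟨_, mem_insert_self _ _, ?_⟩
          rw [Fm3_A]
          have h1 : x.1.Prime := hpr (Fin.castAdd S.nY (Fin.castAdd S.n0 (Fin.castAdd (S.k + 1) c))) _ (by rw [Fm3_A]; exact hx.1)
          rw [(Nat.prime_dvd_prime_iff_eq hp h1).1 h]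
          exact hx.1
        · refine ⟨_, mem_insert_of_mem (mem_singleton_self _), ?_⟩
          rw [Fm3_B]
          have h1 : x.2.Prime := hpr (Fin.castAdd S.nY (Fin.castAdd S.n0 (Fin.natAdd (S.k + 1) c))) _ (by rw [Fm3_B]; exact hx.2)
          rw [(Nat.prime_dvd_prime_iff_eq hp h1).1 h]
          exact hx.2
    · refine ⟨{Fin.castAdd S.nY (Fin.natAdd (S.k + 1 + (S.k + 1)) c)}, ?_, ?_, ?_⟩
      · intro j hj
        rw [mem_singleton] at hj
        subst hj
        right
        simp only [Fin.val_castAdd, Fin.val_natAdd]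
        omega
      · right
        intro j hj
        rw [mem_singleton] at hj
        subst hj
        simp only [Fin.val_castAdd, Fin.val_natAdd]
        omega
      · intro l hl p hp hd
        unfold famY at hl
        rw [Fin.append_left, Fin.append_right] at hl
        refine ⟨_, mem_singleton_self _, ?_⟩
        rw [Fm3_F]
        have h1 : l.Prime := hpr (Fin.castAdd S.nY (Fin.natAdd (S.k + 1 + (S.k + 1)) c)) _ (by rw [Fm3_F]; exact hl)
        rw [(Nat.prime_dvd_prime_iff_eq hp h1).1 hd]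
        exact hl
  · refine ⟨{Fin.natAdd (S.k + 1 + (S.k + 1) + S.n0) c}, ?_, ?_, ?_⟩
    · intro j hj
      rw [mem_singleton] at hj
      subst hj
      right
      simp only [Fin.val_natAdd]
      omega
    · right
      intro j hj
      rw [mem_singleton] at hj
      subst hj
      simp only [Fin.val_natAdd]
      omega
    · intro l hl p hp hd
      unfold famY at hl
      rw [Fin.append_right] at hl
      refine ⟨_, mem_singleton_self _, ?_⟩
      rw [Fm3_O]
      have h1 : l.Prime := hpr (Fin.natAdd (S.k + 1 + (S.k + 1) + S.n0) c) _ (by rw [Fm3_O]; exact hl)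
      rw [(Nat.prime_dvd_prime_iff_eq hp h1).1 hd]
      exact hl

theorem sets3_of_cmp {S : MS} {WA WB : Fin (S.k + 1) → Finset ℕ} {R y0 z : ℕ} (hC : T3B.Cmp S WA WB)
    (hs : T3B.SetsOk3 S WA WB R y0) (hz : ∀ i, ∀ p : ℕ, (p ∈ WA i ∨ p ∈ WB i) → z < p) : Sets3 S R y0 z where
  px := hs.px
  dx := hs.dx
  sy := by
    have hpr : ∀ j, ∀ p ∈ T3B.famY3 S WA WB j, p.Prime := fun j p hp => (hs.py j p hp).1
    intro c
    refine Fin.addCases (fun c => ?_) (fun c => ?_) c
    · refine Fin.addCases (fun c => ?_) (fun c => ?_) c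
      · intro l hl
        unfold famY at hl
        rw [Fin.append_left, Fin.append_left, hC.eq, mem_image] at hl
        obtain ⟨x, hx, rfl⟩ := hl
        rw [mem_product] at hx
        have h1 : x.1.Prime := hpr (Fin.castAdd S.nY (Fin.castAdd S.n0 (Fin.castAdd (S.k + 1) c))) _ (by rw [Fm3_A]; exact hx.1)
        have h2 : x.2.Prime := hpr (Fin.castAdd S.nY (Fin.castAdd S.n0 (Fin.natAdd (S.k + 1) c))) _ (by rw [Fm3_B]; exact hx.2)
        have h3 : x.1 ≠ x.2 := by
          intro h3
          have h4 : Fin.castAdd S.nY (Fin.castAdd S.n0 (Fin.castAdd (S.k + 1) c)) ≠ Fin.castAdd S.nY (Fin.castAdd S.n0 (Fin.natAdd (S.k + 1) c)) := by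
            intro h5
            have h6 := congrArg Fin.val h5
            simp only [Fin.val_castAdd, Fin.val_natAdd] at h6
            omega
          have h5 := hs.dy _ _ h4
          rw [Fm3_A, Fm3_B] at h5
          exact disjoint_left.1 h5 hx.1 (h3 ▸ hx.2)
        refine ⟨one_lt_mul_of_lt_of_le h1.one_lt h2.one_lt.le, ?_, ?_⟩
        · exact (Nat.squarefree_mul ((Nat.coprime_primes h1 h2).2 h3)).2 ⟨h1.prime.squarefree, h2.prime.squarefree⟩
        · rw [Nat.primeFactors_mul h1.ne_zero h2.ne_zero, Nat.Prime.primeFactors h1, Nat.Prime.primeFactors h2]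
          exact (card_union_le _ _).trans (by simp)
      · intro l hl
        unfold famY at hl
        rw [Fin.append_left, Fin.append_right] at hl
        have h1 : l.Prime := hpr (Fin.castAdd S.nY (Fin.natAdd (S.k + 1 + (S.k + 1)) c)) _ (by rw [Fm3_F]; exact hl)
        refine ⟨h1.one_lt, h1.prime.squarefree, ?_⟩
        rw [Nat.Prime.primeFactors h1, card_singleton]
        norm_num
    · intro l hl
      unfold famY at hl
      rw [Fin.append_right] at hl
      have h1 : l.Prime := hpr (Fin.natAdd (S.k + 1 + (S.k + 1) + S.n0) c) _ (by rw [Fm3_O]; exact hl)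
      refine ⟨h1.one_lt, h1.prime.squarefree, ?_⟩
      rw [Nat.Prime.primeFactors h1, card_singleton]
      norm_num
  py := by
    intro c l hl p hp hd
    obtain ⟨C, _, _, hC3⟩ := Fm3_idx hC hs c
    obtain ⟨j, _, hj⟩ := hC3 l hl p hp hd
    exact (hs.py j p hj).2
  cy := by
    intro c c' hcc l hl l' hl'
    obtain ⟨C, hC1, hC2, hC3⟩ := Fm3_idx hC hs c
    obtain ⟨C', hC1', hC2', hC3'⟩ := Fm3_idx hC hs c'
    refine Nat.coprime_of_dvd fun p hp h1 h2 => ?_
    obtain ⟨j, hj, hpj⟩ := hC3 l hl p hp h1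
    obtain ⟨j', hj', hpj'⟩ := hC3' l' hl' p hp h2
    have h3 : j ≠ j' := by
      intro h3
      subst h3
      have h4 : (c : ℕ) ≠ c' := fun h => hcc (Fin.ext h)
      have a1 := hC1 j hj
      have a2 := hC1' j hj'
      rcases hC2 with b1 | b1
      · rcases hC2' with b2 | b2
        · omega
        · have b3 := b2 j hj'
          by_cases h5 : (c' : ℕ) < S.k + 1
          · omega
          · omega
      · have b3 := b1 j hj
        rcases hC2' with b2 | b2
        · by_cases h5 : (c : ℕ) < S.k + 1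
          · omega
          · omega
        · have b4 := b2 j hj'
          omega
    exact disjoint_left.1 (hs.dy j j' h3) hpj hpj'
  wy := by
    intro i l hl p hp hd
    have hpr : ∀ j, ∀ p ∈ T3B.famY3 S WA WB j, p.Prime := fun j p hp => (hs.py j p hp).1
    rw [hC.eq, mem_image] at hl
    obtain ⟨x, hx, rfl⟩ := hl
    rw [mem_product] at hx
    rcases hp.dvd_mul.1 hd with h | h
    · have h1 : x.1.Prime := hpr (Fin.castAdd S.nY (Fin.castAdd S.n0 (Fin.castAdd (S.k + 1) i))) _ (by rw [Fm3_A]; exact hx.1)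
      rw [(Nat.prime_dvd_prime_iff_eq hp h1).1 h]
      exact hz i _ (Or.inl hx.1)
    · have h1 : x.2.Prime := hpr (Fin.castAdd S.nY (Fin.castAdd S.n0 (Fin.natAdd (S.k + 1) i))) _ (by rw [Fm3_B]; exact hx.2)
      rw [(Nat.prime_dvd_prime_iff_eq hp h1).1 h]
      exact hz i _ (Or.inr hx.2)

end Pool.Agent.Lib.T3D
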