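import Pool.Agent.Lib.MP_7b7e48_nt.T3D.Def

/-!
# T3D / Sq (40 minutes): Cauchy

PROOF. `p + q = |p - q| + 2 min p q ≤ |p - q| + 2 √(p q)`; `√(p q) = √(1/x) √(x p q)`, and `∑ √(1/x) √(x p q) ≤ √(∑ 1/x) √(∑ x p q) ≤ √(B E)` (`Real.sum_sqrt_mul_sqrt_le` or `Finset.sum_mul_sq_le_sq_mul_sq`).
-/

set_option autoImplicit false

open Finset

namespace Pool.Agent.Lib.T3D

open Pool.Agent.Lib.RG (Rough LV RC PZ)
open Pool.Agent.Lib.RH (Prm MM JJ Blk)
open Pool.Agent.Lib.TC (MS Msr)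
open Pool.Agent.Lib.TCB (famX famY CR wD Wei dq BdS lenW dvW gW LW t2W)
open Pool.Agent.Lib.TCF (TUP rho TM Rgh1 wt AP QS QM sgm)
open Pool.Agent.Lib.MP_45349e_nt.LS (lam)

theorem cauchy {α : Type*} (t : Finset α) (x p q : α → ℝ) (hx : ∀ a ∈ t, 0 < x a) (hp : ∀ a ∈ t, 0 ≤ p a) (hq : ∀ a ∈ t, 0 ≤ q a)
    (A B E : ℝ) (hA : ∑ a ∈ t, |p a - q a| ≤ A) (hB : ∑ a ∈ t, 1 / x a ≤ B) (hE : ∑ a ∈ t, x a * (p a * q a) ≤ E) :
    ∑ a ∈ t, (p a + q a) ≤ A + 2 * Real.sqrt (B * E) := by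
  have h1 : ∀ a ∈ t, p a + q a ≤ |p a - q a| + 2 * Real.sqrt (p a * q a) := by
    intro a ha
    have hp' := hp a ha
    have hq' := hq a ha
    rcases le_total (p a) (q a) with h | h
    · have h2 : p a ≤ Real.sqrt (p a * q a) := Real.le_sqrt_of_sq_le (by nlinarith)
      rw [abs_of_nonpos (by linarith)]
      linarith
    · have h2 : q a ≤ Real.sqrt (p a * q a) := Real.le_sqrt_of_sq_le (by nlinarith)
      rw [abs_of_nonneg (by linarith)]
      linarith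
  have h2 : ∑ a ∈ t, Real.sqrt (p a * q a) ≤ Real.sqrt (B * E) := by
    refine Real.le_sqrt_of_sq_le ?_
    have h3 := Finset.sum_mul_sq_le_sq_mul_sq t (fun a => Real.sqrt (1 / x a)) (fun a => Real.sqrt (x a * (p a * q a)))
    have h4 : ∑ a ∈ t, Real.sqrt (p a * q a) = ∑ a ∈ t, Real.sqrt (1 / x a) * Real.sqrt (x a * (p a * q a)) := by
      refine Finset.sum_congr rfl fun a ha => ?_
      have hxa := hx a ha
      rw [← Real.sqrt_mul (by positivity)]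
      congr 1
      field_simp
    have h5 : ∑ a ∈ t, Real.sqrt (1 / x a) ^ 2 = ∑ a ∈ t, 1 / x a := by
      refine Finset.sum_congr rfl fun a ha => ?_
      have hxa := hx a ha
      exact Real.sq_sqrt (by positivity)
    have h6 : ∑ a ∈ t, Real.sqrt (x a * (p a * q a)) ^ 2 = ∑ a ∈ t, x a * (p a * q a) := by
      refine Finset.sum_congr rfl fun a ha => ?_
      exact Real.sq_sqrt (mul_nonneg (hx a ha).le (mul_nonneg (hp a ha) (hq a ha)))
    rw [h4]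
    rw [h5, h6] at h3
    have h7 : 0 ≤ ∑ a ∈ t, x a * (p a * q a) :=
      Finset.sum_nonneg fun a ha => mul_nonneg (hx a ha).le (mul_nonneg (hp a ha) (hq a ha))
    have h8 : 0 ≤ ∑ a ∈ t, 1 / x a := Finset.sum_nonneg fun a ha => (one_div_pos.2 (hx a ha)).le
    exact h3.trans (mul_le_mul hB hE h7 (h8.trans hB))
  calc ∑ a ∈ t, (p a + q a) ≤ ∑ a ∈ t, (|p a - q a| + 2 * Real.sqrt (p a * q a)) := Finset.sum_le_sum h1
    _ = ∑ a ∈ t, |p a - q a| + 2 * ∑ a ∈ t, Real.sqrt (p a * q a) := by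
        rw [Finset.sum_add_distrib, Finset.mul_sum]
    _ ≤ A + 2 * Real.sqrt (B * E) := by linarith

end Pool.Agent.Lib.T3D
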