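import Pool.Agent.Lib.MP_7b7e48_nt.T3.D3
import Pool.Agent.Lib.MP_7b7e48_nt.T3D.Lab
import Pool.Agent.Lib.MP_7b7e48_nt.BR.D0
import Pool.Agent.Lib.MP_7b7e48_nt.BR.C01
import Pool.Agent.Lib.MP_7b7e48_nt.BR.D04

/-!
# T3D: the double count of theorem TC3 (TC3.md, sections 2, 5). Definitions

`R = W0 ^ 2 * T.N` is the modulus of the frame, `K = log T.N`. The windows `WY i` of `Y` consist of products of at most two primes `> z`.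
-/

set_option autoImplicit false

open Finset

namespace Pool.Agent.Lib.T3D

open Pool.Agent.Lib.RG (Rough)
open Pool.Agent.Lib.RH (Prm MM JJ)
open Pool.Agent.Lib.TC (MS Msr)
open Pool.Agent.Lib.TCB (famX famY CR wD Wei dq wD BdS)
open Pool.Agent.Lib.TCF (TUP rho TM Rgh1)
open Pool.Agent.Lib.MP_45349e_nt.LS (lam)

/-- The sets of a mark system: `X`: disjoint sets of primes; `Y`: squarefree numbers with at most two prime factors, numbers of different sets are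
coprime. All primes are `> y0` and do not divide `R`; the prime factors of the elements of the windows `WY i` are `> z`. -/
structure Sets3 (S : MS) (R y0 z : ℕ) : Prop where
  px : ∀ c, ∀ p ∈ famX S c, p.Prime ∧ ¬ p ∣ R ∧ y0 < p
  dx : ∀ c c', c ≠ c' → Disjoint (famX S c) (famX S c')
  sy : ∀ c, ∀ l ∈ famY S c, 1 < l ∧ Squarefree l ∧ l.primeFactors.card ≤ 2
  py : ∀ c, ∀ l ∈ famY S c, ∀ p : ℕ, p.Prime → p ∣ l → ¬ p ∣ R ∧ y0 < p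
  cy : ∀ c c', c ≠ c' → ∀ l ∈ famY S c, ∀ l' ∈ famY S c', l.Coprime l'
  wy : ∀ i, ∀ l ∈ S.WY i, ∀ p : ℕ, p.Prime → p ∣ l → z < p

/-- the data `D` of the frame belong to the mark system -/
structure Fam3 (S : MS) (D : TCF.Dat) : Prop where
  x : ∀ t : ℕ, t ∈ TUP D.BX ↔ ∃ μ ∈ S.MX, S.prX id μ = t
  y : ∀ t : ℕ, t ∈ TUP D.BY ↔ ∃ ν ∈ S.MY, S.prY id ν = t
  rX : rho D.BX = ∑ μ ∈ S.MX, 1 / ((S.prX id μ : ℕ) : ℝ)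
  rY : rho D.BY = ∑ ν ∈ S.MY, 1 / ((S.prY id ν : ℕ) : ℝ)

/-! ### the measures -/

open Classical in
/-- kind `X`: `X = v μ n`, `Y = X - D N`, `X ∈ (a, b]` -/
noncomputable def mX (S : MS) (T : TC.Dat) (v a b : ℕ) (t2 : Prop) (w : ℕ → ℝ) (L : ℝ) (g : ℕ → ℝ) : Msr S where
  v := v
  x0 := 0
  t2 := t2
  nm := b
  tau := fun μ _ => S.prX id μ
  X := fun μ _ n => v * S.prX id μ * n
  Om := fun μ ν n => if a < v * S.prX id μ * n ∧ v * S.prX id μ * n ≤ b ∧ S.prY id ν ∣ v * S.prX id μ * n - T.D * T.N then w n else 0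
  W := L * ((b : ℝ) - a) / v
  hX := fun p => 1 / (p : ℝ)
  hY := dq g
  g := g

open Classical in
/-- kind `Y`: `Y = v ν n`, `X = Y + D N`, `Y ∈ (a, b]` -/
noncomputable def mY (S : MS) (T : TC.Dat) (v a b : ℕ) (t2 : Prop) (w : ℕ → ℝ) (L : ℝ) (g : ℕ → ℝ) : Msr S where
  v := v
  x0 := T.D * T.N
  t2 := t2
  nm := b
  tau := fun _ ν => S.prY id ν
  X := fun _ ν n => v * S.prY id ν * n + T.D * T.N
  Om := fun μ ν n => if a < v * S.prY id ν * n ∧ v * S.prY id ν * n ≤ b ∧ S.prX id μ ∣ v * S.prY id ν * n + T.D * T.N then w n else 0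
  W := L * ((b : ℝ) - a) / v
  hX := g
  hY := fun l => 1 / (l : ℝ)
  g := g

/-- Common hypotheses of the two kinds of measures. `δw`, `δv`: level and saving of the weight, `δ0`, `δ1`: of the measure, `δm`: size of the marks. -/
structure BH3 (S : MS) (T : TC.Dat) (W0 B : ℕ) (δ0 δ1 δm δw δv len : ℝ) (t2 : Prop) (w : ℕ → ℝ) (L : ℝ) (g : ℕ → ℝ) : Prop where
  sets : Sets3 S (W0 ^ 2 * T.N) T.y0 T.z
  w0 : Squarefree W0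
  w0y : ∀ p : ℕ, p.Prime → p ∣ W0 → p ≤ T.y0
  N2 : 2 ≤ T.N
  y1 : 1 ≤ T.y0
  yz : 4 * T.y0 ≤ T.z
  size : ∀ μ ∈ S.MX, ∀ ν ∈ S.MY, ((S.prX id μ * S.prY id ν : ℕ) : ℝ) ≤ (T.N : ℝ) ^ δm
  zle : (T.z : ℝ) ≤ (T.N : ℝ) ^ δ0
  dd : ∀ p : ℕ, p.Prime → p ∣ T.D → p ≤ T.y0
  D0 : 0 < T.D
  wei : Wei (W0 ^ 2 * T.N) W0 T.y0 B δw δv len t2 w L g
  e0 : 0 ≤ δ0
  em : 0 ≤ δm
  e1 : δ0 + δm ≤ δw
  e3 : 4 * ((W0 ^ 2 * T.N : ℕ) : ℝ) ^ (-δv) ≤ (T.N : ℝ) ^ (-δ1)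
  e4 : 4 * (T.N : ℝ) ^ δ1 ≤ len
  e5 : 0 ≤ δ1

/-- hypotheses of kind `X` -/
structure HX (S : MS) (T : TC.Dat) (W0 v a b B : ℕ) (δm len : ℝ) : Prop where
  ab : a ≤ b
  bB : b ≤ B * v
  lab : 2 * len * (T.N : ℝ) ^ δm * v ≤ (b : ℝ) - a
  v0 : 0 < v
  vc : v.Coprime (W0 ^ 2 * T.N)
  vl : v ≤ T.N
  D : T.D * T.N ≤ a
  b2 : b ≤ T.N ^ 2
  big : Real.exp (18 * (S.k + 1)) * ((b : ℝ) - T.D * T.N) ≤ T.D * T.N

/-- hypotheses of kind `Y` -/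
structure HY (S : MS) (T : TC.Dat) (W0 v a b B : ℕ) (δm len : ℝ) : Prop where
  ab : a ≤ b
  bB : b ≤ B * v
  lab : 2 * len * (T.N : ℝ) ^ δm * v ≤ (b : ℝ) - a
  v0 : 0 < v
  vc : v.Coprime (W0 ^ 2 * T.N)
  vl : v ≤ T.N
  b2 : b + T.D * T.N ≤ T.N ^ 2
  big : Real.exp (18 * (S.k + 1)) * (b : ℝ) ≤ T.D * T.N

/-! ### the pair lemma -/

open Classical in
/-- weight of the pairs `(X, X')` without a common good cycle, divided by `m1'` -/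
noncomputable def Wbad2 {S : MS} (M M' : Msr S) (T : TC.Dat) (W0 y1 : ℕ) : ℝ :=
  ∑ μ ∈ S.MX, ∑ ν ∈ S.MY, if S.badpair T 0 y1 μ ν then 0 else M.S2 M' μ ν fun n n' =>
    if (CR T W0 (M.X μ ν n) ∧ CR T W0 (M.X μ ν n - T.D * T.N)) ∧ (CR T W0 (M'.X μ ν n') ∧ CR T W0 (M'.X μ ν n' - T.D * T.N)) ∧
      M.X μ ν n ≡ M'.X μ ν n' [MOD W0] ∧ ¬ S.Linked2 T μ ν (M.X μ ν n) (M'.X μ ν n') then 1 else 0

/-- the pair lemma for two numbers, for one `D` -/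
def PLem2 (S : MS) (T : TC.Dat) (W0 y1 : ℕ) (δ0 δ1 δ2 ε : ℝ) : Prop :=
  ∀ M M' : Msr S, M.OK3 T W0 δ0 δ1 → M'.OK3 T W0 δ0 δ1 →
    Wbad2 M M' T W0 y1 ≤ ε * (M.tot * M'.W) + (T.N : ℝ) ^ (-δ2) * (M.W * M'.W)

/-! ### the exceptional pairs -/

/-- a good cycle of `X` contains a number with the missing pattern -/
def LE (S : MS) (T : TC.Dat) (s u : ℝ) (μ : S.TX) (ν : S.TY) (X : ℕ) : Prop :=
  ∃ c e t, S.Good T c μ ν X e t ∧ ∃ i < S.k + 1, Pat T.N s u (e i * S.AA T.N c μ ν X i) ∨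
    Pat T.N s u (e i * S.BB T.N c μ ν (X - T.D * T.N) i)

open Classical in
/-- the pairs which have the missing pattern in a cycle are rare -/
def EXB (S : MS) (T : TC.Dat) (s u : ℝ) (B : ℕ) (e3 : ℝ) : Prop :=
  ∑ μ ∈ S.MX, ∑ ν ∈ S.MY, (((range (B + 1)).filter fun X => T.D * T.N < X ∧ LE S T s u μ ν X).card : ℝ) ≤ (T.N : ℝ) ^ (1 - e3)

/-! ### the hypotheses of the double count -/

structure Brg3 (P : Prm) (S : MS) (T : TC.Dat) (W0 y1 : ℕ) (D : TCF.Dat) (Cp : ℕ) (δ0 δ1 δm δ2 ε e3 s u : ℝ) : Prop where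
  ok : D.Ok P (W0 ^ 2 * T.N)
  ey : D.y0 = T.y0
  fam : Fam3 S D
  sets : Sets3 S (W0 ^ 2 * T.N) T.y0 T.z
  w0 : Squarefree W0
  w0y : ∀ p : ℕ, p.Prime → p ∣ W0 → p ≤ T.y0
  ty : T.y ≤ MM P (W0 ^ 2 * T.N)
  y0le : (T.y0 : ℝ) ≤ (Real.log T.N) ^ Cp
  yz : 4 * T.y0 ≤ T.z
  zle : (T.z : ℝ) ≤ (T.N : ℝ) ^ δ0
  size : ∀ μ ∈ S.MX, ∀ ν ∈ S.MY, ((S.prX id μ * S.prY id ν : ℕ) : ℝ) ≤ (T.N : ℝ) ^ δm
  num : ((3 * (S.k + 1) + 2 * S.n0 + S.nX + S.nY : ℕ) : ℝ) ≤ Real.log T.N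
  kexp : Real.exp (18 * (S.k + 1)) ≤ JJ (W0 ^ 2 * T.N)
  e0 : 0 ≤ ε
  e1 : ε * ((JJ (W0 ^ 2 * T.N) : ℝ) ^ 11 * (MM P (W0 ^ 2 * T.N) : ℝ) ^ 10) ≤ 1
  plem : ∀ D' : ℕ, 0 < D' → D' ≤ D.J1 → PLem2 S (wD T (W0 ^ 2 * D')) W0 y1 δ0 δ1 δ2 ε
  par : Par S T
  s1 : s ^ 2 = 1
  u1 : u ^ 2 = 1
  exb : ∀ D' : ℕ, 0 < D' → D' ≤ D.J1 → EXB S (wD T (W0 ^ 2 * D')) s u (2 * D.J1 * (W0 ^ 2 * T.N)) e3

/-- relations between the exponents (`κ = P.kap`) -/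
structure Exps3 (κ : ℝ) (Cp : ℕ) (δ0 δ1 δm δ2 e3 : ℝ) : Prop where
  Cp1 : 1 ≤ Cp
  e0 : 0 < δ0
  e1 : 0 < δ1
  em : 0 ≤ δm
  e2 : 0 < δ2
  a1 : δ0 + δm ≤ 1 / 200
  a2 : δ1 ≤ 1 / (600 * (Cp : ℝ))
  a3 : δ1 ≤ κ / 16
  a4 : δm ≤ κ / 32
  a5 : 0 < e3
  a6 : 16 * δm ≤ e3

/-! ### the numbers -/

open Classical in
/-- the numbers `X ∈ (a, b]`, `X ≡ r` modulo `W`, `t ∣ X`, `t' ∣ X - D' R`, `X` and `X - D' R` coprime to `R` and rough -/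
noncomputable def PS (P : Prm) (W N D' a b r t t' : ℕ) : Finset ℕ :=
  (Ioc a b).filter fun X => t ∣ X ∧ t' ∣ X - D' * (W ^ 2 * N) ∧ X ≡ r [MOD W] ∧ Rgh1 P (W ^ 2 * N) X ∧
    Rgh1 P (W ^ 2 * N) (X - D' * (W ^ 2 * N))

open Classical in
/-- those with `lam X = - x`, `lam Y = x` -/
noncomputable def BP (P : Prm) (W N D' a b r t t' : ℕ) (x : ℝ) : Finset ℕ :=
  (PS P W N D' a b r t t').filter fun X => lam X = -x ∧ lam (X - D' * (W ^ 2 * N)) = x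

end Pool.Agent.Lib.T3D
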