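import Pool.Agent.Lib.MP_7b7e48_nt.T3D.Tm
import Pool.Agent.Lib.MP_7b7e48_nt.T3F.Def
import Pool.Agent.Lib.MP_7b7e48_nt.T3B.E0
import Pool.Agent.Lib.MP_7b7e48_nt.T3S.D

/-!
# T3D / C3: the interface between the concrete mark system and the final theorem (definitions)

`EXF T s u`: the numbers of the missing pattern. `Out`: everything which is known of the concrete system for one `N` and one `z`.
-/

set_option autoImplicit false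

open Finset

namespace Pool.Agent.Lib.T3D

open Pool.Agent.Lib.RH (Prm MM JJ)
open Pool.Agent.Lib.TC (MS Msr)
open Pool.Agent.Lib.TCB (wD BdS)
open Pool.Agent.Lib.MP_45349e_nt.LS (lam)

open Classical in
/-- the numbers `n` of the set `SSet` with `λ(n) = s`, `λ(N - n) = u` -/
noncomputable def EXF (T : TC.Dat) (s u : ℝ) : Finset ℕ := (range T.N).filter fun n => T.SSet n ∧ Pat T.N s u n

/-- the concrete system for one `N` and one `z` -/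
structure Out (P : Prm) (W0 N z Cp : ℕ) (δ0 δ1 δm δ2 e3 : ℝ) (S : MS) (T : TC.Dat) (y1 : ℕ) (D : TCF.Dat) (ε : ℝ) : Prop where
  TN : T.N = N
  Ty : T.y = MM P (W0 ^ 2 * N)
  Tz : T.z = z
  base : T3F.Base3 P (W0 ^ 2 * N) D
  bs : T3F.BsIn P (W0 ^ 2 * N) D (BdS S T y1)
  brg : ∀ s u : ℝ, s ^ 2 = 1 → u ^ 2 = 1 → ((EXF T s u).card : ℝ) ≤ (N : ℝ) ^ (1 - 2 * e3) →
    Brg3 P S T W0 y1 D Cp δ0 δ1 δm δ2 ε e3 s u

/-- the statement of the core theorem -/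
def Core3 : Prop := ∀ P : Prm, P.Ok → ∀ e3 : ℝ, 0 < e3 → e3 ≤ 1 → ∃ (W0 Cp : ℕ) (δ0 δ1 δm δ2 δz : ℝ), 0 < W0 ∧ 0 < δz ∧
  Exps3 P.kap Cp δ0 δ1 δm δ2 e3 ∧ ∃ N0 : ℕ, ∀ N : ℕ, N0 ≤ N → Even N → ∀ z : ℕ,
  Real.exp (Real.log N / (Real.log (Real.log N)) ^ 2) ≤ z → (z : ℝ) ≤ (N : ℝ) ^ δz →
  ∃ (S : MS) (T : TC.Dat) (y1 : ℕ) (D : TCF.Dat) (ε : ℝ), Out P W0 N z Cp δ0 δ1 δm δ2 e3 S T y1 D ε

end Pool.Agent.Lib.T3D
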