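import Pool.Agent.Lib.MP_7b7e48_nt.T3D.Def

/-!
# T3D / Sok (45 minutes): the sets of a system with OK3

PROOF. `px`: the elements of `WX i`, `FX f`, `OX e` are primes, not dividing `T.N`, `> y0` (`WX`: `> 3 Z i ≥ 3 z ^ 2 ≥ z > y0`, `T.OK.y0_lt`); they do not divide `W0` as all primes of `W0` are `< p0 ≤ y ≤ y0`. `dx`: `WX i`, `WX j`: `i < j`: `l ≤ 4 Z i < Z j < l'`; `WX` against `FX`, `OX`: `> z` against `≤ z`;
`FX_dis`, `OX_dis`, `FOX_dis`. `sy`: windows: `WY_mem` (`l > Z i ≥ z ^ 2 ≥ 1`), `WY_two`; primes: trivial. `py`: windows: `WY_big` (`> z > y0`), coprime to `T.N`. `cy`: windows: `WY_cop`; window against a prime `≤ z`: `WY_big`; primes of disjoint sets are coprime. `famX`, `famY`: `Fin.append`, use `Fin.addCases` (see `jX_mem` in `BR/Fam.lean`).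
-/

set_option autoImplicit false

open Finset

namespace Pool.Agent.Lib.T3D

open Pool.Agent.Lib.RG (Rough LV RC PZ)
open Pool.Agent.Lib.RH (Prm MM JJ Blk)
open Pool.Agent.Lib.TC (MS Msr)
open Pool.Agent.Lib.TCB (famX famY CR wD Wei dq BdS lenW dvW gW LW t2W)
open Pool.Agent.Lib.TCF (TUP rho TM Rgh1 wt AP QS QM sgm)
open Pool.Agent.Lib.MP_45349e_nt.LS (lam)

section sok

variable {S : MS} {T : TC.Dat} {W0 : ℕ} {Z : Fin (S.k + 1) → ℕ} (hT : T.OK W0) (hS : S.OK3 T W0 Z)
include hT

/-- a prime `> y0` which does not divide `N` does not divide `R` -/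
private theorem Sok_R {p : ℕ} (hp : p.Prime) (hN : ¬ p ∣ T.N) (h0 : T.y0 < p) : ¬ p ∣ W0 ^ 2 * T.N := by
  intro h
  rcases hp.dvd_mul.1 h with h | h
  · have h1 := (hT.W0_pr p hp).1 (hp.dvd_of_dvd_pow h)
    have h2 := hT.p0_le
    have h3 := hT.y_le
    omega
  · exact hN h

include hS

private theorem Sok_z (i : Fin (S.k + 1)) : T.z ≤ Z i := by
  have h1 := hS.Z_lo i
  have h2 : T.z ≤ T.z ^ 2 := Nat.le_self_pow two_ne_zero _
  exact h2.trans h1

private theorem Sok_pz : T.y0 < T.z := hT.y0_lt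

/-- the elements of the sets of `X` are primes -/
private theorem Sok_X (c : Fin (S.k + 1 + S.n0 + S.nX)) : ∀ p ∈ famX S c, p.Prime ∧ ¬ p ∣ T.N ∧ T.y0 < p := by
  refine Fin.addCases (fun c => ?_) (fun c => ?_) c
  · refine Fin.addCases (fun c => ?_) (fun c => ?_) c
    · intro p hp
      unfold famX at hp
      rw [Fin.append_left, Fin.append_left] at hp
      have h1 := hS.WX_mem c p hp
      refine ⟨h1.1, h1.2.1, ?_⟩
      have h2 := Sok_z hT hS c
      have h3 := hT.y0_lt
      have h4 := h1.2.2.1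
      omega
    · intro p hp
      unfold famX at hp
      rw [Fin.append_left, Fin.append_right] at hp
      have h1 := hS.FX_mem c p hp
      exact ⟨h1.1, h1.2.1, h1.2.2.1⟩
  · intro p hp
    unfold famX at hp
    rw [Fin.append_right] at hp
    have h1 := hS.OX_mem c p hp
    exact ⟨h1.1, h1.2.1, h1.2.2.1⟩

private theorem Sok_W {i j : Fin (S.k + 1)} (hij : i ≠ j) : Disjoint (S.WX i) (S.WX j) := by
  rw [disjoint_left]
  intro p h1 h2
  have h3 := hS.WX_mem i p h1
  have h4 := hS.WX_mem j p h2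
  rcases lt_or_gt_of_ne hij with h | h
  · have h5 := hS.Z_lt i j h
    have h6 := h3.2.2.2.1
    have h7 := h4.2.2.1
    omega
  · have h5 := hS.Z_lt j i h
    have h6 := h4.2.2.2.1
    have h7 := h3.2.2.1
    omega

private theorem Sok_big {i : Fin (S.k + 1)} {p : ℕ} (h1 : p ∈ S.WX i) : T.z < p := by
  have h2 := Sok_z hT hS i
  have h3 := (hS.WX_mem i p h1).2.2.1
  have h4 := hT.y0_lt
  omega

private theorem Sok_dx (c c' : Fin (S.k + 1 + S.n0 + S.nX)) (hcc : c ≠ c') : Disjoint (famX S c) (famX S c') := by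
  have hWF : ∀ i f, Disjoint (S.WX i) (S.FX f) := fun i f => by
    rw [disjoint_left]
    intro p h1 h2
    have h3 := Sok_big hT hS h1
    have h4 := (hS.FX_mem f p h2).2.2.2
    omega
  have hWO : ∀ i f, Disjoint (S.WX i) (S.OX f) := fun i f => by
    rw [disjoint_left]
    intro p h1 h2
    have h3 := Sok_big hT hS h1
    have h4 := (hS.OX_mem f p h2).2.2.2
    omega
  revert hcc
  unfold famX
  refine Fin.addCases (fun c => ?_) (fun c => ?_) c
  · rw [Fin.append_left]
    refine Fin.addCases (fun c => ?_) (fun c => ?_) c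
    · rw [Fin.append_left]
      refine Fin.addCases (fun c' => ?_) (fun c' => ?_) c'
      · rw [Fin.append_left]
        refine Fin.addCases (fun c' => ?_) (fun c' => ?_) c'
        · rw [Fin.append_left]
          intro h
          exact Sok_W hT hS fun h1 => h (by rw [h1])
        · rw [Fin.append_right]
          intro _
          exact hWF _ _
      · rw [Fin.append_right]
        intro _
        exact hWO _ _
    · rw [Fin.append_right]
      refine Fin.addCases (fun c' => ?_) (fun c' => ?_) c'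
      · rw [Fin.append_left]
        refine Fin.addCases (fun c' => ?_) (fun c' => ?_) c'
        · rw [Fin.append_left]
          intro _
          exact (hWF _ _).symm
        · rw [Fin.append_right]
          intro h
          exact hS.FX_dis _ _ fun h1 => h (by rw [h1])
      · rw [Fin.append_right]
        intro _
        exact hS.FOX_dis _ _
  · rw [Fin.append_right]
    refine Fin.addCases (fun c' => ?_) (fun c' => ?_) c'
    · rw [Fin.append_left]
      refine Fin.addCases (fun c' => ?_) (fun c' => ?_) c'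
      · rw [Fin.append_left]
        intro _
        exact (hWO _ _).symm
      · rw [Fin.append_right]
        intro _
        exact (hS.FOX_dis _ _).symm
    · rw [Fin.append_right]
      intro h
      exact hS.OX_dis _ _ fun h1 => h (by rw [h1])

omit hT in
private theorem Sok_Fp {f : Fin S.n0} {p : ℕ} (h : p ∈ S.FY f) : p.Prime := (hS.FY_mem f p h).1

private theorem Sok_cy (c c' : Fin (S.k + 1 + S.n0 + S.nY)) (hcc : c ≠ c') :
    ∀ l ∈ famY S c, ∀ l' ∈ famY S c', l.Coprime l' := by
  have hWs : ∀ i, ∀ l ∈ S.WY i, ∀ p : ℕ, p.Prime → p ≤ T.z → l.Coprime p := fun i l hl p hp hz => by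
    refine (Nat.Coprime.symm ((Nat.Prime.coprime_iff_not_dvd hp).2 fun h => ?_))
    have h1 := hS.WY_big i l hl p hp h
    omega
  have hWF : ∀ i f, ∀ l ∈ S.WY i, ∀ l' ∈ S.FY f, l.Coprime l' := fun i f l hl l' hl' =>
    hWs i l hl l' (hS.FY_mem f l' hl').1 (hS.FY_mem f l' hl').2.2.2
  have hWO : ∀ i f, ∀ l ∈ S.WY i, ∀ l' ∈ S.OY f, l.Coprime l' := fun i f l hl l' hl' =>
    hWs i l hl l' (hS.OY_mem f l' hl').1 (hS.OY_mem f l' hl').2.2.2
  revert hcc
  unfold famY
  refine Fin.addCases (fun c => ?_) (fun c => ?_) c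
  · rw [Fin.append_left]
    refine Fin.addCases (fun c => ?_) (fun c => ?_) c
    · rw [Fin.append_left]
      refine Fin.addCases (fun c' => ?_) (fun c' => ?_) c'
      · rw [Fin.append_left]
        refine Fin.addCases (fun c' => ?_) (fun c' => ?_) c'
        · rw [Fin.append_left]
          intro h
          exact hS.WY_cop _ _ fun h1 => h (by rw [h1])
        · rw [Fin.append_right]
          intro _
          exact hWF _ _
      · rw [Fin.append_right]
        intro _
        exact hWO _ _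
    · rw [Fin.append_right]
      refine Fin.addCases (fun c' => ?_) (fun c' => ?_) c'
      · rw [Fin.append_left]
        refine Fin.addCases (fun c' => ?_) (fun c' => ?_) c'
        · rw [Fin.append_left]
          intro _ l hl l' hl'
          exact (hWF _ _ _ hl' _ hl).symm
        · rw [Fin.append_right]
          intro h l hl l' hl'
          refine (Nat.coprime_primes (hS.FY_mem _ l hl).1 (hS.FY_mem _ l' hl').1).2 fun h2 => ?_
          exact disjoint_left.1 (hS.FY_dis _ _ fun h1 => h (by rw [h1])) hl (h2 ▸ hl')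
      · rw [Fin.append_right]
        intro _ l hl l' hl'
        refine (Nat.coprime_primes (hS.FY_mem _ l hl).1 (hS.OY_mem _ l' hl').1).2 fun h2 => ?_
        exact disjoint_left.1 (hS.FOY_dis _ _) hl (h2 ▸ hl')
  · rw [Fin.append_right]
    refine Fin.addCases (fun c' => ?_) (fun c' => ?_) c'
    · rw [Fin.append_left]
      refine Fin.addCases (fun c' => ?_) (fun c' => ?_) c'
      · rw [Fin.append_left]
        intro _ l hl l' hl'
        exact (hWO _ _ _ hl' _ hl).symm
      · rw [Fin.append_right]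
        intro _ l hl l' hl'
        refine (Nat.coprime_primes (hS.OY_mem _ l hl).1 (hS.FY_mem _ l' hl').1).2 fun h2 => ?_
        exact disjoint_left.1 (hS.FOY_dis _ _) hl' (h2 ▸ hl)
    · rw [Fin.append_right]
      intro h l hl l' hl'
      refine (Nat.coprime_primes (hS.OY_mem _ l hl).1 (hS.OY_mem _ l' hl').1).2 fun h2 => ?_
      exact disjoint_left.1 (hS.OY_dis _ _ fun h1 => h (by rw [h1])) hl (h2 ▸ hl')

private theorem Sok_Y (c : Fin (S.k + 1 + S.n0 + S.nY)) : ∀ l ∈ famY S c, (1 < l ∧ Squarefree l ∧ l.primeFactors.card ≤ 2) ∧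
    ∀ p : ℕ, p.Prime → p ∣ l → ¬ p ∣ W0 ^ 2 * T.N ∧ T.y0 < p := by
  have hpr : ∀ l : ℕ, l.Prime ∧ ¬ l ∣ T.N ∧ T.y0 < l ∧ l ≤ T.z → (1 < l ∧ Squarefree l ∧ l.primeFactors.card ≤ 2) ∧
      ∀ p : ℕ, p.Prime → p ∣ l → ¬ p ∣ W0 ^ 2 * T.N ∧ T.y0 < p := by
    rintro l ⟨h1, h2, h3, h4⟩
    refine ⟨⟨h1.one_lt, h1.prime.squarefree, ?_⟩, ?_⟩
    · rw [Nat.Prime.primeFactors h1, card_singleton]
      norm_num
    · intro p hp hd
      rw [(Nat.prime_dvd_prime_iff_eq hp h1).1 hd]
      exact ⟨Sok_R hT h1 h2 h3, h3⟩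
  refine Fin.addCases (fun c => ?_) (fun c => ?_) c
  · refine Fin.addCases (fun c => ?_) (fun c => ?_) c
    · intro l hl
      unfold famY at hl
      rw [Fin.append_left, Fin.append_left] at hl
      have h1 := hS.WY_mem c l hl
      have h0 := hT.y0_lt
      refine ⟨⟨?_, h1.1, hS.WY_two c l hl⟩, ?_⟩
      · have h2 := Sok_z hT hS c
        have h4 := h1.2.2.1
        omega
      · intro p hp hd
        have h2 := hS.WY_big c l hl p hp hd
        have h3 : T.y0 < p := by omega
        refine ⟨Sok_R hT hp (fun h => ?_) h3, h3⟩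
        have h4 := Nat.dvd_gcd hd h
        rw [Nat.coprime_iff_gcd_eq_one.1 h1.2.1] at h4
        exact hp.one_lt.ne' (Nat.dvd_one.1 h4)
    · intro l hl
      unfold famY at hl
      rw [Fin.append_left, Fin.append_right] at hl
      exact hpr l (hS.FY_mem c l hl)
  · intro l hl
    unfold famY at hl
    rw [Fin.append_right] at hl
    exact hpr l (hS.OY_mem c l hl)

end sok

theorem sets3_of_ok {S : MS} {T : TC.Dat} {W0 : ℕ} {Z : Fin (S.k + 1) → ℕ} (hT : T.OK W0) (hS : S.OK3 T W0 Z) :
    Sets3 S (W0 ^ 2 * T.N) T.y0 T.z where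
  px := fun c p hp => by
    have h1 := Sok_X hT hS c p hp
    exact ⟨h1.1, Sok_R hT h1.1 h1.2.1 h1.2.2, h1.2.2⟩
  dx := Sok_dx hT hS
  sy := fun c l hl => (Sok_Y hT hS c l hl).1
  py := fun c l hl => (Sok_Y hT hS c l hl).2
  cy := Sok_cy hT hS
  wy := hS.WY_big

end Pool.Agent.Lib.T3D
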