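import Pool.Agent.Lib.MP_7b7e48_nt.T3D.Def

/-!
# T3D / Ad (110 minutes): the sum of the frame as a sum over the differences

PROOF. `AP P R D LT Bd 1 x = ∑_{J2 ≤ j < J1} [Rgh1 X] ∑_{t ∈ TUP BX, t ∣ X} ∑_{i < J0} [Rgh1 Y] #{t' ∈ TUP BY : t' ∣ Y, ¬ Bd t t', lam X ≠ lam Y}`, `X = x.val + j R`, `Y = x.val + i R` (`((1 : ℕ) : ZMod R) * x = x`). Map `(x, j, i)` to `D' = j - i`, `r = X % W0` and `X`: `J2 - J0 < D' < J1` (`J0 ≤ J2` by `Ok.j02`), `X - D' R = Y`,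
`X ∈ [D' R, (D' + J0) R)` since `j ≥ D'` and `j = D' + i < D' + J0`, and `X ≠ D' R` as `X` is coprime to `R > 1`, so `X ∈ Ioc (D' R) ((D' + J0) R)`; `(x, j, i)` is determined by `(X, D')` (`x = X mod R`, `j = X / R`, `i = j - D'`). `lam X ≠ lam Y` means `(lam X, lam Y) = (-1, 1)` or `(1, -1)` (`TC.lam_pm`): these are `BP .. 1` and `BP .. (-1)`
(`- (-1) = 1`). `X, Y > 0`. `Σ_r` over `r < W0` of the condition `X ≡ r` is `1` (`0 < W0`). Write everything as sums of indicators over `(x, j, i)` and use `Finset.sum_le_sum_of_injOn`-like arguments (`Finset.card_le_card_of_injOn` for fixed `t, t', r, D'` after exchanging sums), e.g. first exchange to `∑_{t, t'} ∑_{x, j, i}`.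
-/

set_option autoImplicit false

open Finset

namespace Pool.Agent.Lib.T3D

open Pool.Agent.Lib.RG (Rough LV RC PZ)
open Pool.Agent.Lib.RH (Prm MM JJ Blk)
open Pool.Agent.Lib.TC (MS Msr)
open Pool.Agent.Lib.TCB (famX famY CR wD Wei dq BdS lenW dvW gW LW t2W)
open Pool.Agent.Lib.TCF (TUP rho TM Rgh1 wt AP QS QM sgm)
open Pool.Agent.Lib.MP_45349e_nt.LS (lam)

/-- the condition on a triple -/
private def AdC (P : Prm) (R t t' X Y : ℕ) : Prop :=
  Rgh1 P R X ∧ Rgh1 P R Y ∧ t ∣ X ∧ t' ∣ Y ∧ lam X ≠ lam Y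

open Classical in
private theorem ad_one (P : Prm) {W0 N : ℕ} [NeZero (W0 ^ 2 * N)] (hW : 0 < W0) (hR : 2 ≤ W0 ^ 2 * N) {J0 J1 J2 : ℕ}
    (hJ : J0 ≤ J2) (t t' : ℕ) :
    (((univ ×ˢ (Ico J2 J1 ×ˢ range J0)).filter fun q : ZMod (W0 ^ 2 * N) × (ℕ × ℕ) =>
      AdC P (W0 ^ 2 * N) t t' (q.1.val + q.2.1 * (W0 ^ 2 * N)) (q.1.val + q.2.2 * (W0 ^ 2 * N))).card : ℝ) ≤
      ∑ D' ∈ Ioo (J2 - J0) J1, ∑ r ∈ range W0,
        (((BP P W0 N D' (D' * (W0 ^ 2 * N)) ((D' + J0) * (W0 ^ 2 * N)) r t t' 1).card : ℝ) +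
          (BP P W0 N D' (D' * (W0 ^ 2 * N)) ((D' + J0) * (W0 ^ 2 * N)) r t t' (-1)).card) := by
  set R := W0 ^ 2 * N with hRdef
  have hR0 : 0 < R := by omega
  rw [card_eq_sum_card_fiberwise (f := fun q : ZMod R × (ℕ × ℕ) => (q.2.1 - q.2.2, (q.1.val + q.2.1 * R) % W0))
    (t := Ioo (J2 - J0) J1 ×ˢ range W0) ?_, sum_product]
  · push_cast
    refine sum_le_sum fun D' hD' => sum_le_sum fun r hr => ?_
    rw [← Nat.cast_add, Nat.cast_le]
    refine le_trans ?_ (card_union_le _ _)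
    refine card_le_card_of_injOn (fun q : ZMod R × (ℕ × ℕ) => q.1.val + q.2.1 * R) ?_ ?_
    · rintro ⟨x, j, i⟩ hq
      rw [mem_coe, mem_filter, mem_filter, mem_product, mem_product, mem_Ico, mem_range] at hq
      obtain ⟨⟨⟨_, ⟨hj1, hj2⟩, hi⟩, hX, hY, ht, ht', hl⟩, he⟩ := hq
      simp only [Prod.mk.injEq] at he hX hY ht ht' hl hj1 hj2 hi
      obtain ⟨he1, he2⟩ := he
      have hij : i ≤ j := by omega
      have hxv : x.val < R := ZMod.val_lt x
      have hj : j = D' + i := by omega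
      have hXe : x.val + j * R = D' * R + (x.val + i * R) := by rw [hj]; ring
      have hsub : x.val + j * R - D' * R = x.val + i * R := by rw [hXe]; omega
      have hYpos : 0 < x.val + i * R := by
        refine Nat.pos_of_ne_zero fun h0 => ?_
        have h1 : x.val + j * R = D' * R := by rw [hXe, h0]; rfl
        have h2 : Nat.Coprime (x.val + i * R) R := hY.1
        rw [h0, Nat.coprime_zero_left] at h2
        omega
      have hle : x.val + j * R ≤ (D' + J0) * R := by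
        have h1 : i + 1 ≤ J0 := hi
        have h2 : (i + 1) * R ≤ J0 * R := Nat.mul_le_mul_right _ h1
        rw [hXe, add_mul]
        have h3 : (i + 1) * R = i * R + R := by ring
        omega
      have hPS : x.val + j * R ∈ PS P W0 N D' (D' * R) ((D' + J0) * R) r t t' := by
        unfold PS
        rw [mem_filter, mem_Ioc]
        refine ⟨⟨by omega, hle⟩, ht, ?_, ?_, hX, ?_⟩
        · rw [← hRdef, hsub]; exact ht'
        · unfold Nat.ModEq
          rw [← he2, Nat.mod_mod]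
        · rw [← hRdef, hsub]; exact hY
      rw [mem_coe, mem_union]
      unfold BP
      rw [mem_filter, mem_filter, ← hRdef, hsub]
      rcases Pool.Agent.Lib.TC.lam_pm (x.val + j * R) with h1 | h1 <;>
        rcases Pool.Agent.Lib.TC.lam_pm (x.val + i * R) with h2 | h2
      · exact absurd (h1.trans h2.symm) hl
      · right
        exact ⟨hPS, by rw [h1]; norm_num, h2⟩
      · left
        exact ⟨hPS, h1, h2⟩
      · exact absurd (h1.trans h2.symm) hl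
    · rintro ⟨x, j, i⟩ hq ⟨x', j', i'⟩ hq' hEq
      rw [mem_coe, mem_filter, mem_filter, mem_product, mem_product, mem_Ico, mem_range] at hq hq'
      obtain ⟨⟨⟨_, ⟨hj1, _⟩, hi⟩, _⟩, he⟩ := hq
      obtain ⟨⟨⟨_, ⟨hj1', _⟩, hi'⟩, _⟩, he'⟩ := hq'
      simp only [Prod.mk.injEq] at he he' hEq hi hi' hj1 hj1'
      have hxv : x.val < R := ZMod.val_lt x
      have hxv' : x'.val < R := ZMod.val_lt x'
      have h1 : x.val = x'.val := by
        have h2 := congrArg (fun n => n % R) hEq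
        simp only [Nat.add_mul_mod_self_right] at h2
        rwa [Nat.mod_eq_of_lt hxv, Nat.mod_eq_of_lt hxv'] at h2
      have h3 : j = j' := by
        rw [h1] at hEq
        have h4 : j * R = j' * R := by omega
        exact Nat.eq_of_mul_eq_mul_right hR0 h4
      have h5 : i = i' := by
        have := he.1
        have := he'.1
        omega
      rw [ZMod.val_injective R h1, h3, h5]
  · rintro ⟨x, j, i⟩ hq
    rw [mem_coe, mem_filter, mem_product, mem_product, mem_Ico, mem_range] at hq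
    obtain ⟨⟨_, ⟨hj1, hj2⟩, hi⟩, _⟩ := hq
    rw [mem_coe, mem_product, mem_Ioo, mem_range]
    simp only at hj1 hj2 hi ⊢
    refine ⟨⟨?_, ?_⟩, Nat.mod_lt _ hW⟩ <;> omega

private theorem ad_comm {α β γ δ : Type*} (A : Finset α) (B : Finset β) (C : Finset ℕ) (E : Finset γ) (G : ℕ → Finset δ)
    (F : α → β → ℕ → γ → δ → ℝ) :
    ∑ x ∈ A, ∑ j ∈ B, ∑ t ∈ C, ∑ i ∈ E, ∑ t' ∈ G t, F x j t i t' =
      ∑ t ∈ C, ∑ t' ∈ G t, ∑ x ∈ A, ∑ j ∈ B, ∑ i ∈ E, F x j t i t' := by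
  have h1 : ∀ x ∈ A, ∑ j ∈ B, ∑ t ∈ C, ∑ i ∈ E, ∑ t' ∈ G t, F x j t i t' =
      ∑ t ∈ C, ∑ j ∈ B, ∑ i ∈ E, ∑ t' ∈ G t, F x j t i t' := fun x _ => sum_comm
  rw [sum_congr rfl h1, sum_comm]
  refine sum_congr rfl fun t _ => ?_
  have h2 : ∀ x ∈ A, ∑ j ∈ B, ∑ i ∈ E, ∑ t' ∈ G t, F x j t i t' = ∑ t' ∈ G t, ∑ j ∈ B, ∑ i ∈ E, F x j t i t' := by
    intro x _
    have h3 : ∀ j ∈ B, ∑ i ∈ E, ∑ t' ∈ G t, F x j t i t' = ∑ t' ∈ G t, ∑ i ∈ E, F x j t i t' := fun j _ => sum_comm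
    rw [sum_congr rfl h3, sum_comm]
  rw [sum_congr rfl h2, sum_comm]

open Classical in
private theorem ad_ap (P : Prm) {R : ℕ} [NeZero R] (D : TCF.Dat) (Lk : ℕ → ℕ → ℕ → ℕ → Prop) (Bd : ℕ → ℕ → Prop) (x : ZMod R) :
    AP P R D Lk Bd 1 x ≤
      ∑ j ∈ Ico D.J2 D.J1, ∑ t ∈ TUP D.BX, ∑ i ∈ range D.J0, ∑ t' ∈ (TUP D.BY).filter (fun t' => ¬ Bd t t'),
        (if AdC P R t t' (x.val + j * R) (x.val + i * R) then (1 : ℝ) else 0) := by
  unfold AP
  have hx : (((1 : ℕ) : ZMod R) * x) = x := by rw [Nat.cast_one, one_mul]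
  rw [hx]
  refine sum_le_sum fun j _ => ?_
  split_ifs with hX
  · rw [sum_filter]
    refine sum_le_sum fun t _ => ?_
    split_ifs with ht
    · refine sum_le_sum fun i _ => ?_
      unfold TCF.AFt
      rw [one_mul]
      split_ifs with hY
      · rw [← sum_filter_add_sum_filter_not ((TUP D.BY).filter (fun t' => ¬ Bd t t')) (fun t' => AdC P R t t' (x.val + j * R) (x.val + i * R))]
        have h1 : ∑ t' ∈ ((TUP D.BY).filter (fun t' => ¬ Bd t t')).filter (fun t' => AdC P R t t' (x.val + j * R) (x.val + i * R)),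
            (if AdC P R t t' (x.val + j * R) (x.val + i * R) then (1 : ℝ) else 0) =
            (((TUP D.BY).filter (fun t' => ¬ Bd t t')).filter (fun t' => AdC P R t t' (x.val + j * R) (x.val + i * R))).card := by
          rw [card_eq_sum_ones]
          push_cast
          refine sum_congr rfl fun t' ht' => ?_
          rw [if_pos (mem_filter.1 ht').2]
        have h2 : 0 ≤ ∑ t' ∈ ((TUP D.BY).filter (fun t' => ¬ Bd t t')).filter (fun t' => ¬ AdC P R t t' (x.val + j * R) (x.val + i * R)),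
            (if AdC P R t t' (x.val + j * R) (x.val + i * R) then (1 : ℝ) else 0) :=
          sum_nonneg fun t' _ => by split_ifs <;> norm_num
        rw [h1]
        refine le_trans ?_ (le_add_of_nonneg_right h2)
        rw [Nat.cast_le]
        refine card_le_card fun t' ht' => ?_
        obtain ⟨h3, h4, h5, _, h6⟩ := mem_filter.1 ht'
        exact mem_filter.2 ⟨mem_filter.2 ⟨h3, h5⟩, hX, hY, ht, h4, h6⟩
      · exact sum_nonneg fun t' _ => by split_ifs <;> norm_num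
    · exact sum_nonneg fun i _ => sum_nonneg fun t' _ => by split_ifs <;> norm_num
  · exact sum_nonneg fun t _ => sum_nonneg fun i _ => sum_nonneg fun t' _ => by split_ifs <;> norm_num

open Classical in
theorem ap_dec {P : Prm} {W0 N : ℕ} [NeZero (W0 ^ 2 * N)] (hW : 0 < W0) (hN : 2 ≤ N) {D : TCF.Dat} (hD : D.Ok P (W0 ^ 2 * N)) (Bd : ℕ → ℕ → Prop) :
    ∑ x : ZMod (W0 ^ 2 * N), (if IsUnit x then AP P (W0 ^ 2 * N) D (fun _ _ _ _ => True) Bd 1 x else 0) ≤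
      ∑ D' ∈ Ioo (D.J2 - D.J0) D.J1, ∑ r ∈ range W0, ∑ t ∈ TUP D.BX, ∑ t' ∈ (TUP D.BY).filter (fun t' => ¬ Bd t t'),
        (((BP P W0 N D' (D' * (W0 ^ 2 * N)) ((D' + D.J0) * (W0 ^ 2 * N)) r t t' 1).card : ℝ) +
          (BP P W0 N D' (D' * (W0 ^ 2 * N)) ((D' + D.J0) * (W0 ^ 2 * N)) r t t' (-1)).card) := by
  have hR : 2 ≤ W0 ^ 2 * N := by
    have h1 : 1 ≤ W0 ^ 2 := Nat.one_le_pow _ _ hW
    nlinarith
  have hJ : D.J0 ≤ D.J2 := by
    have h1 := hD.j02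
    have h2 : 0 < JJ (W0 ^ 2 * N) := by
      unfold Pool.Agent.Lib.RH.JJ
      rw [Nat.ceil_pos]
      refine pow_pos (Real.log_pos ?_) _
      exact_mod_cast (by omega : 1 < W0 ^ 2 * N)
    have h3 : 0 < MM P (W0 ^ 2 * N) := by
      unfold Pool.Agent.Lib.RH.MM
      positivity
    have h4 : 0 < JJ (W0 ^ 2 * N) * MM P (W0 ^ 2 * N) ^ 2 := by positivity
    refine le_trans ?_ h1
    have h5 : 8 * JJ (W0 ^ 2 * N) * MM P (W0 ^ 2 * N) ^ 2 * D.J0 = (8 * (JJ (W0 ^ 2 * N) * MM P (W0 ^ 2 * N) ^ 2)) * D.J0 := by ring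
    rw [h5]
    exact Nat.le_mul_of_pos_left _ (by omega)
  have h0 : ∀ x : ZMod (W0 ^ 2 * N), (if IsUnit x then AP P (W0 ^ 2 * N) D (fun _ _ _ _ => True) Bd 1 x else 0) ≤
      ∑ j ∈ Ico D.J2 D.J1, ∑ t ∈ TUP D.BX, ∑ i ∈ range D.J0, ∑ t' ∈ (TUP D.BY).filter (fun t' => ¬ Bd t t'),
        (if AdC P (W0 ^ 2 * N) t t' (x.val + j * (W0 ^ 2 * N)) (x.val + i * (W0 ^ 2 * N)) then (1 : ℝ) else 0) := by
    intro x
    split_ifs with hx
    · exact ad_ap P D _ Bd x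
    · exact sum_nonneg fun j _ => sum_nonneg fun t _ => sum_nonneg fun i _ => sum_nonneg fun t' _ => by split_ifs <;> norm_num
  refine le_trans (sum_le_sum fun x _ => h0 x) ?_
  rw [ad_comm]
  have hr : ∑ D' ∈ Ioo (D.J2 - D.J0) D.J1, ∑ r ∈ range W0, ∑ t ∈ TUP D.BX, ∑ t' ∈ (TUP D.BY).filter (fun t' => ¬ Bd t t'),
        (((BP P W0 N D' (D' * (W0 ^ 2 * N)) ((D' + D.J0) * (W0 ^ 2 * N)) r t t' 1).card : ℝ) +
          (BP P W0 N D' (D' * (W0 ^ 2 * N)) ((D' + D.J0) * (W0 ^ 2 * N)) r t t' (-1)).card) =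
      ∑ t ∈ TUP D.BX, ∑ t' ∈ (TUP D.BY).filter (fun t' => ¬ Bd t t'), ∑ D' ∈ Ioo (D.J2 - D.J0) D.J1, ∑ r ∈ range W0,
        (((BP P W0 N D' (D' * (W0 ^ 2 * N)) ((D' + D.J0) * (W0 ^ 2 * N)) r t t' 1).card : ℝ) +
          (BP P W0 N D' (D' * (W0 ^ 2 * N)) ((D' + D.J0) * (W0 ^ 2 * N)) r t t' (-1)).card) := by
    rw [sum_congr rfl fun D' _ => sum_comm, sum_comm]
    refine sum_congr rfl fun t _ => ?_
    rw [sum_congr rfl fun D' _ => sum_comm, sum_comm]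
  rw [hr]
  refine sum_le_sum fun t _ => sum_le_sum fun t' _ => ?_
  refine le_trans (le_of_eq ?_) (ad_one P hW hR hJ t t')
  rw [card_eq_sum_ones, sum_filter, sum_product, Nat.cast_sum]
  refine sum_congr rfl fun x _ => ?_
  rw [sum_product, Nat.cast_sum]
  refine sum_congr rfl fun j _ => ?_
  rw [Nat.cast_sum]
  refine sum_congr rfl fun i _ => ?_
  push_cast
  rfl

end Pool.Agent.Lib.T3D
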