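import Pool.Agent.Lib.MP_7b7e48_nt.T3D.Tm

/-!
# T3D / Ex (60 minutes): the exceptional pairs

PROOF. For fixed `μ, ν`: the number of the pairs is `≤ |{X ∈ A : LE}| |B| + |A| |{X' ∈ B : LE}| ≤ 2 (b - a) |{X ≤ E : D N < X, LE X}|` because `A, B ⊆ Ioc a b`, `b ≤ E`, `D N ≤ a`; multiply by `prX prY ≤ N^δm` and sum (`EXB`).
-/

set_option autoImplicit false

open Finset

namespace Pool.Agent.Lib.T3D

open Pool.Agent.Lib.RG (Rough LV RC PZ)
open Pool.Agent.Lib.RH (Prm MM JJ Blk)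
open Pool.Agent.Lib.TC (MS Msr)
open Pool.Agent.Lib.TCB (famX famY CR wD Wei dq BdS lenW dvW gW LW t2W)
open Pool.Agent.Lib.TCF (TUP rho TM Rgh1 wt AP QS QM sgm)
open Pool.Agent.Lib.MP_45349e_nt.LS (lam)

open Classical in
theorem expairs {S : MS} {T : TC.Dat} {E a b : ℕ} {e3 δm s u : ℝ} (hx : EXB S T s u E e3)
    (hs : ∀ μ ∈ S.MX, ∀ ν ∈ S.MY, ((S.prX id μ * S.prY id ν : ℕ) : ℝ) ≤ (T.N : ℝ) ^ δm) (ha : T.D * T.N ≤ a) (hab : a ≤ b) (hb : b ≤ E)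
    (A B : S.TX → S.TY → Finset ℕ) (hA : ∀ μ ν, A μ ν ⊆ Ioc a b) (hB : ∀ μ ν, B μ ν ⊆ Ioc a b) :
    ∑ μ ∈ S.MX, ∑ ν ∈ S.MY, ((S.prX id μ * S.prY id ν : ℕ) : ℝ) *
      (((A μ ν ×ˢ B μ ν).filter fun q => LE S T s u μ ν q.1 ∨ LE S T s u μ ν q.2).card : ℝ) ≤
      (T.N : ℝ) ^ δm * (2 * ((b : ℝ) - a) * (T.N : ℝ) ^ (1 - e3)) := by
  unfold EXB at hx
  have hab' : (0 : ℝ) ≤ (b : ℝ) - a := by
    have : (a : ℝ) ≤ b := by exact_mod_cast hab
    linarith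
  have hcard : ∀ C : Finset ℕ, C ⊆ Ioc a b → (C.card : ℝ) ≤ (b : ℝ) - a := by
    intro C hC
    have h1 := card_le_card hC
    rw [Nat.card_Ioc] at h1
    have h2 : (C.card : ℝ) ≤ ((b - a : ℕ) : ℝ) := by exact_mod_cast h1
    rwa [Nat.cast_sub hab] at h2
  have hsub : ∀ μ ν, ∀ C : Finset ℕ, C ⊆ Ioc a b →
      C.filter (fun X => LE S T s u μ ν X) ⊆ (range (E + 1)).filter fun X => T.D * T.N < X ∧ LE S T s u μ ν X := by
    intro μ ν C hC X hX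
    rw [mem_filter] at hX
    have h1 := mem_Ioc.1 (hC hX.1)
    rw [mem_filter, mem_range]
    exact ⟨by omega, by omega, hX.2⟩
  have key : ∀ μ ν, (((A μ ν ×ˢ B μ ν).filter fun q => LE S T s u μ ν q.1 ∨ LE S T s u μ ν q.2).card : ℝ) ≤
      2 * ((b : ℝ) - a) * (((range (E + 1)).filter fun X => T.D * T.N < X ∧ LE S T s u μ ν X).card : ℝ) := by
    intro μ ν
    have h1 : (A μ ν ×ˢ B μ ν).filter (fun q => LE S T s u μ ν q.1 ∨ LE S T s u μ ν q.2) ⊆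
        ((A μ ν).filter (fun X => LE S T s u μ ν X) ×ˢ B μ ν) ∪ (A μ ν ×ˢ (B μ ν).filter (fun X => LE S T s u μ ν X)) := by
      intro q hq
      rw [mem_filter, mem_product] at hq
      rw [mem_union, mem_product, mem_product, mem_filter, mem_filter]
      rcases hq.2 with h | h
      · exact Or.inl ⟨⟨hq.1.1, h⟩, hq.1.2⟩
      · exact Or.inr ⟨hq.1.1, hq.1.2, h⟩
    have h2 := (card_le_card h1).trans (card_union_le _ _)
    rw [card_product, card_product] at h2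
    have h3 : (((A μ ν ×ˢ B μ ν).filter fun q => LE S T s u μ ν q.1 ∨ LE S T s u μ ν q.2).card : ℝ) ≤
        (((A μ ν).filter (fun X => LE S T s u μ ν X)).card : ℝ) * ((B μ ν).card : ℝ) +
        ((A μ ν).card : ℝ) * (((B μ ν).filter (fun X => LE S T s u μ ν X)).card : ℝ) := by exact_mod_cast h2
    have h4 : (((A μ ν).filter (fun X => LE S T s u μ ν X)).card : ℝ) ≤
        (((range (E + 1)).filter fun X => T.D * T.N < X ∧ LE S T s u μ ν X).card : ℝ) := by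
      exact_mod_cast card_le_card (hsub μ ν _ (hA μ ν))
    have h5 : (((B μ ν).filter (fun X => LE S T s u μ ν X)).card : ℝ) ≤
        (((range (E + 1)).filter fun X => T.D * T.N < X ∧ LE S T s u μ ν X).card : ℝ) := by
      exact_mod_cast card_le_card (hsub μ ν _ (hB μ ν))
    have h6 := hcard _ (hA μ ν)
    have h7 := hcard _ (hB μ ν)
    have h8 := mul_le_mul h4 h7 (Nat.cast_nonneg _) (Nat.cast_nonneg _)
    have h9 := mul_le_mul h6 h5 (Nat.cast_nonneg _) hab'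
    linarith
  calc ∑ μ ∈ S.MX, ∑ ν ∈ S.MY, ((S.prX id μ * S.prY id ν : ℕ) : ℝ) *
      (((A μ ν ×ˢ B μ ν).filter fun q => LE S T s u μ ν q.1 ∨ LE S T s u μ ν q.2).card : ℝ)
      ≤ ∑ μ ∈ S.MX, ∑ ν ∈ S.MY, (T.N : ℝ) ^ δm * (2 * ((b : ℝ) - a) *
        (((range (E + 1)).filter fun X => T.D * T.N < X ∧ LE S T s u μ ν X).card : ℝ)) :=
        sum_le_sum fun μ hμ => sum_le_sum fun ν hν => mul_le_mul (hs μ hμ ν hν) (key μ ν) (Nat.cast_nonneg _)
          (Real.rpow_nonneg (Nat.cast_nonneg _) _)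
    _ = (T.N : ℝ) ^ δm * (2 * ((b : ℝ) - a) *
        ∑ μ ∈ S.MX, ∑ ν ∈ S.MY, (((range (E + 1)).filter fun X => T.D * T.N < X ∧ LE S T s u μ ν X).card : ℝ)) := by
        simp only [mul_sum]
    _ ≤ _ := mul_le_mul_of_nonneg_left (mul_le_mul_of_nonneg_left hx (by linarith)) (Real.rpow_nonneg (Nat.cast_nonneg _) _)

end Pool.Agent.Lib.T3D
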