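import Pool.Agent.Lib.MP_7b7e48_nt.T3D.Def

/-!
# T3D / Lc (40 minutes): two bad numbers with a common good cycle

PROOF. `Linked2` gives `c` with good cycles for `X` and for `X'`. If neither `LE X` nor `LE X'` holds then no number of the two cycles has the missing pattern, and `lab_eq` (`T3D/Lab.lean`) gives `lam (X - D N) = lab S T s c μ ν = lam (X' - D N)`, a contradiction.
-/

set_option autoImplicit false

open Finset

namespace Pool.Agent.Lib.T3D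

open Pool.Agent.Lib.RG (Rough LV RC PZ)
open Pool.Agent.Lib.RH (Prm MM JJ Blk)
open Pool.Agent.Lib.TC (MS Msr)
open Pool.Agent.Lib.TCB (famX famY CR wD Wei dq BdS lenW dvW gW LW t2W)
open Pool.Agent.Lib.TCF (TUP rho TM Rgh1 wt AP QS QM sgm)
open Pool.Agent.Lib.MP_45349e_nt.LS (lam)

theorem lab_two {S : MS} {T : TC.Dat} (hP : Par S T) (hD : 0 < T.D) {s u : ℝ} (hs : s ^ 2 = 1) (hu : u ^ 2 = 1) {μ : S.TX} {ν : S.TY}
    (hμ : μ ∈ S.MX) (hν : ν ∈ S.MY) {X X' : ℕ} (hX : T.D * T.N < X) (hX' : T.D * T.N < X') (hl : S.Linked2 T μ ν X X')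
    (h1 : lam X ≠ lam (X - T.D * T.N)) (h2 : lam X' ≠ lam (X' - T.D * T.N)) (h3 : lam (X - T.D * T.N) ≠ lam (X' - T.D * T.N)) :
    LE S T s u μ ν X ∨ LE S T s u μ ν X' := by
  by_contra hn
  rw [not_or] at hn
  obtain ⟨hn1, hn2⟩ := hn
  obtain ⟨c, ⟨e, t, g⟩, ⟨e', t', g'⟩⟩ := hl
  have a1 := lab_eq hP hD hμ hν hX g hs hu (fun i hi hp => hn1 ⟨c, e, t, g, i, hi, Or.inl hp⟩)
    (fun i hi hp => hn1 ⟨c, e, t, g, i, hi, Or.inr hp⟩) h1
  have a2 := lab_eq hP hD hμ hν hX' g' hs hu (fun i hi hp => hn2 ⟨c, e', t', g', i, hi, Or.inl hp⟩)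
    (fun i hi hp => hn2 ⟨c, e', t', g', i, hi, Or.inr hp⟩) h2
  exact h3 (a1.trans a2.symm)

end Pool.Agent.Lib.T3D
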