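import Pool.Agent.Lib.MP_7b7e48_nt.T3D.Def

/-!
# T3D / Set3 (60 minutes): the sets of a mark system with composite windows of Y

Mirror of `BR/Fam.lean` (`SetsOk.sqX` ..) and of `dq_prX`, `dq_prY` in `BR/C01.lean`. `prX_eq`, `prY_eq`, `jX_mem`, `jY_mem` (`BR/Fam.lean`): `prX h μ = ∏_c h (jX S μ c)`.
Y: the numbers `jY S ν c` are squarefree and pairwise coprime (`cy`), so the product is squarefree and `dq g` is multiplicative on it (`dq_mul`; induction over `Finset.univ`, or `Finset.prod_induction`; `dq g l = ∏_{p ∈ l.primeFactors} g p` for squarefree `l`, `dq_sq`).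
`injY`: if `prY ν = prY ν'` then for every `c` a prime `p` of `jY ν c` divides some `jY ν' c'`, and `c' = c` by `cy`; so `jY ν c ∣ jY ν' c` (squarefree: `Nat.Squarefree` divides iff all primes divide) and conversely; `jY_inj`. `inv_prX`: `Finset.prod_div_distrib`.
-/

set_option autoImplicit false

open Finset

namespace Pool.Agent.Lib.T3D

open Pool.Agent.Lib.RG (Rough LV RC PZ)
open Pool.Agent.Lib.RH (Prm MM JJ Blk)
open Pool.Agent.Lib.TC (MS Msr)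
open Pool.Agent.Lib.TCB (famX famY CR wD Wei dq BdS lenW dvW gW LW t2W)
open Pool.Agent.Lib.TCF (TUP rho TM Rgh1 wt AP QS QM sgm)
open Pool.Agent.Lib.MP_45349e_nt.LS (lam)

open Pool.Agent.Lib.TCB (jX jX_mem jX_inj prX_eq prod_inj prod_sq jY jY_mem jY_inj prY_eq dq_sq dq_mul dq_one)

variable {S : MS} {R y0 z : ℕ}

/-- `dq g` is multiplicative on products of pairwise coprime squarefree numbers -/
theorem dq_prod3 {ι : Type*} (g : ℕ → ℝ) (s : Finset ι) (f : ι → ℕ) (hs : ∀ i ∈ s, Squarefree (f i))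
    (hc : ∀ i ∈ s, ∀ j ∈ s, i ≠ j → (f i).Coprime (f j)) : dq g (∏ i ∈ s, f i) = ∏ i ∈ s, dq g (f i) ∧ Squarefree (∏ i ∈ s, f i) := by
  classical
  induction s using Finset.induction_on with
  | empty => exact ⟨by rw [prod_empty, prod_empty, dq_one], by rw [prod_empty]; exact squarefree_one⟩
  | insert a s ha ih =>
    have h1 := ih (fun i hi => hs i (mem_insert_of_mem hi)) fun i hi j hj => hc i (mem_insert_of_mem hi) j (mem_insert_of_mem hj)
    have h2 : (f a).Coprime (∏ i ∈ s, f i) := Nat.Coprime.prod_right fun i hi =>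
      hc a (mem_insert_self a s) i (mem_insert_of_mem hi) fun h => ha (h ▸ hi)
    rw [prod_insert ha, prod_insert ha]
    exact ⟨by rw [dq_mul g _ _ (hs a (mem_insert_self a s)) h1.2 h2, h1.1],
      (Nat.squarefree_mul h2).2 ⟨hs a (mem_insert_self a s), h1.2⟩⟩

theorem dq_prime3 (g : ℕ → ℝ) {p : ℕ} (hp : p.Prime) : dq g p = g p := by
  rw [dq_sq g p hp.prime.squarefree, Nat.Prime.primeFactors hp, prod_singleton]

theorem Sets3.sqX (h : Sets3 S R y0 z) {μ : S.TX} (hμ : μ ∈ S.MX) : Squarefree (S.prX id μ) := by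
  rw [prX_eq]
  exact prod_sq (fun c p hp => (h.px c p hp).1) h.dx (jX_mem hμ)

theorem Sets3.jcop (h : Sets3 S R y0 z) {ν ν' : S.TY} (hν : ν ∈ S.MY) (hν' : ν' ∈ S.MY) {c c' : Fin (S.k + 1 + S.n0 + S.nY)} (hc : c ≠ c') :
    (jY S ν c).Coprime (jY S ν' c') :=
  h.cy c c' hc _ (Fintype.mem_piFinset.1 (jY_mem hν) c) _ (Fintype.mem_piFinset.1 (jY_mem hν') c')

theorem Sets3.sqY (h : Sets3 S R y0 z) {ν : S.TY} (hν : ν ∈ S.MY) : Squarefree (S.prY id ν) := by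
  rw [prY_eq]
  exact (dq_prod3 (fun _ => 0) univ (fun c => id (jY S ν c)) (fun c _ => (h.sy c _ (Fintype.mem_piFinset.1 (jY_mem hν) c)).2.1)
    fun c _ c' _ hc => h.jcop hν hν hc).2

theorem Sets3.pX (h : Sets3 S R y0 z) {μ : S.TX} (hμ : μ ∈ S.MX) {p : ℕ} (hp : p.Prime) (hd : p ∣ S.prX id μ) :
    ¬ p ∣ R ∧ y0 < p := by
  rw [prX_eq] at hd
  obtain ⟨c, _, h1⟩ := (Prime.dvd_finsetProd_iff hp.prime _).1 hd
  have h2 := Fintype.mem_piFinset.1 (jX_mem hμ) c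
  have h3 := h.px c _ h2
  have h4 : p = jX S μ c := (Nat.prime_dvd_prime_iff_eq hp h3.1).1 h1
  rw [h4]
  exact h3.2

theorem Sets3.pY (h : Sets3 S R y0 z) {ν : S.TY} (hν : ν ∈ S.MY) {p : ℕ} (hp : p.Prime) (hd : p ∣ S.prY id ν) :
    ¬ p ∣ R ∧ y0 < p := by
  rw [prY_eq] at hd
  obtain ⟨c, _, h1⟩ := (Prime.dvd_finsetProd_iff hp.prime _).1 hd
  exact h.py c _ (Fintype.mem_piFinset.1 (jY_mem hν) c) p hp h1

theorem Sets3.injX (h : Sets3 S R y0 z) {μ μ' : S.TX} (hμ : μ ∈ S.MX) (hμ' : μ' ∈ S.MX) (he : S.prX id μ = S.prX id μ') : μ = μ' := by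
  rw [prX_eq, prX_eq] at he
  exact jX_inj S (prod_inj (fun c p hp => (h.px c p hp).1) h.dx (jX_mem hμ) (jX_mem hμ') he)

private theorem Set3_dvd (h : Sets3 S R y0 z) {ν ν' : S.TY} (hν : ν ∈ S.MY) (hν' : ν' ∈ S.MY) (he : S.prY id ν = S.prY id ν')
    (c : Fin (S.k + 1 + S.n0 + S.nY)) : jY S ν c ∣ jY S ν' c := by
  rw [prY_eq, prY_eq] at he
  have h1 : jY S ν c ∣ ∏ c', id (jY S ν' c') := he ▸ dvd_prod_of_mem (fun c' => id (jY S ν c')) (mem_univ c)
  rw [← mul_prod_erase univ (fun c' => id (jY S ν' c')) (mem_univ c)] at h1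
  refine Nat.Coprime.dvd_of_dvd_mul_right ?_ h1
  exact Nat.Coprime.prod_right fun i hi => h.jcop hν hν' (ne_of_mem_erase hi).symm

theorem Sets3.injY (h : Sets3 S R y0 z) {ν ν' : S.TY} (hν : ν ∈ S.MY) (hν' : ν' ∈ S.MY) (he : S.prY id ν = S.prY id ν') : ν = ν' := by
  refine jY_inj S (funext fun c => Nat.dvd_antisymm ?_ ?_)
  · exact Set3_dvd h hν hν' he c
  · exact Set3_dvd h hν' hν he.symm c

theorem dq_prX3 (h : Sets3 S R y0 z) {μ : S.TX} (hμ : μ ∈ S.MX) (g : ℕ → ℝ) : dq g (S.prX id μ) = S.prX g μ := by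
  have h1 := Fintype.mem_piFinset.1 (jX_mem hμ)
  rw [prX_eq, prX_eq]
  refine (dq_prod3 g univ (fun c => id (jX S μ c)) (fun c _ => (h.px c _ (h1 c)).1.prime.squarefree) fun c _ c' _ hc => ?_).1.trans ?_
  · refine (Nat.coprime_primes (h.px c _ (h1 c)).1 (h.px c' _ (h1 c')).1).2 fun h2 => ?_
    exact disjoint_left.1 (h.dx c c' hc) (h1 c) (h2 ▸ h1 c')
  · exact prod_congr rfl fun c _ => dq_prime3 g (h.px c _ (h1 c)).1

theorem dq_prY3 (h : Sets3 S R y0 z) {ν : S.TY} (hν : ν ∈ S.MY) (g : ℕ → ℝ) : dq g (S.prY id ν) = S.prY (dq g) ν := by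
  have h1 := Fintype.mem_piFinset.1 (jY_mem hν)
  rw [prY_eq, prY_eq]
  exact (dq_prod3 g univ (fun c => id (jY S ν c)) (fun c _ => (h.sy c _ (h1 c)).2.1) fun c _ c' _ hc => h.jcop hν hν hc).1

theorem inv_prX (S : MS) (μ : S.TX) : S.prX (fun p : ℕ => 1 / (p : ℝ)) μ = 1 / ((S.prX id μ : ℕ) : ℝ) := by
  rw [prX_eq, prX_eq, prod_div_distrib, prod_const_one, Nat.cast_prod]
  rfl

theorem inv_prY (S : MS) (ν : S.TY) : S.prY (fun p : ℕ => 1 / (p : ℝ)) ν = 1 / ((S.prY id ν : ℕ) : ℝ) := by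
  rw [prY_eq, prY_eq, prod_div_distrib, prod_const_one, Nat.cast_prod]
  rfl

end Pool.Agent.Lib.T3D
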