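import Pool.Agent.Lib.MP_7b7e48_nt.T3D.Pr
import Pool.Agent.Lib.MP_7b7e48_nt.T3D.Ex
import Pool.Agent.Lib.MP_7b7e48_nt.T3D.Sq
import Pool.Agent.Lib.MP_7b7e48_nt.T3D.Lc
import Pool.Agent.Lib.MP_7b7e48_nt.T3D.Set3

/-!
# T3D / Cls (110 minutes): one difference and one class

`D1`: the full data or the data without the primes of a character (`hsub`: its tuples are tuples of `D`, same `J0`). `A = BS .. 1`, `B = BS .. (-1)` as functions of `(μ, ν)`, `T' = wD T (W0^2 D')`, `T'.D T.N = D' R`. PROOF. `(X, X') ∈ A × B`: `lam X = -1, lam Y = 1, lam X' = 1, lam Y' = -1`; if `Linked2 T' μ ν X X'` then `LE X` or `LE X'` (`lab_two`), so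
`|A||B| ≤ #(not linked) + #(LE)`; `pairs` (`PLem2` from `Brg3.plem`; `CR` from `Rgh1`: coprime to `W0^2 T.N`, rough `MM ≥ T.y`; `Rgh1 → CR` as in `BR/D02.lean`) and `expairs` (`a = D' R`, `b = (D' + J0) R ≤ 2 J1 R`) give `∑ prX prY |A||B| ≤ E`, `E` = the sum of the two bounds. `cauchy` on `MX ×ˢ MY` with `x = prX prY`, `p = |A|`, `q = |B|`,
`∑ 1/x = rho rho` (`Fam3.rX, rY`), `∑ |p - q| ≤ SID` (hypothesis `hS`; `BS` is `BP` or empty). Then the sum over `t ∈ TUP D1.BX`, `t' ∈ TUP D1.BY`, not `BdS`, is `≤ ∑_{μ, ν} (|A| + |B|)`: `t = prX id μ`, `t' = prY id ν` (`Fam3.x, y`, `hsub`), injectivity (`Sets3.injX, injY`), `¬ BdS S T y1 t t' → ¬ badpair` (`badpair (wD T _) = badpair T`).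
-/

set_option autoImplicit false

open Finset

namespace Pool.Agent.Lib.T3D

open Pool.Agent.Lib.RG (Rough LV RC PZ)
open Pool.Agent.Lib.RH (Prm MM JJ Blk)
open Pool.Agent.Lib.TC (MS Msr)
open Pool.Agent.Lib.TCB (famX famY CR wD Wei dq BdS lenW dvW gW LW t2W)
open Pool.Agent.Lib.TCF (TUP rho TM Rgh1 wt AP QS QM sgm)
open Pool.Agent.Lib.MP_45349e_nt.LS (lam)

open Classical in
/-- sums over the tuples of the data `D1` as sums over the tuples of the system -/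
private theorem cls_sum {α : Type*} (A : Finset α) (f : α → ℕ) (hi : ∀ a ∈ A, ∀ b ∈ A, f a = f b → a = b) (U : Finset ℕ)
    (hU : ∀ t ∈ U, ∃ a ∈ A, f a = t) (F : ℕ → ℝ) : ∑ t ∈ U, F t = ∑ a ∈ A, if f a ∈ U then F (f a) else 0 := by
  rw [← sum_filter]
  have h1 : U = (A.filter fun a => f a ∈ U).image f := by
    ext t
    rw [mem_image]
    constructor
    · intro ht
      obtain ⟨a, ha, hat⟩ := hU t ht
      exact ⟨a, mem_filter.2 ⟨ha, by rw [hat]; exact ht⟩, hat⟩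
    · rintro ⟨a, ha, rfl⟩
      exact (mem_filter.1 ha).2
  conv_lhs => rw [h1]
  rw [sum_image]
  intro a ha b hb hab
  exact hi a (mem_filter.1 ha).1 b (mem_filter.1 hb).1 hab

private theorem cls_card {α : Type*} (A B : Finset α) (L E : α × α → Prop) [DecidablePred fun q => ¬ L q] [DecidablePred fun q => E q]
    (h : ∀ q ∈ A ×ˢ B, L q → E q) :
    (A.card : ℝ) * B.card ≤ (((A ×ˢ B).filter fun q => ¬ L q).card : ℝ) + (((A ×ˢ B).filter fun q => E q).card : ℝ) := by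
  classical
  rw [← Nat.cast_mul, ← card_product, ← Nat.cast_add, Nat.cast_le]
  refine le_trans (card_le_card ?_) (card_union_le _ _)
  intro q hq
  rw [mem_union, mem_filter, mem_filter]
  by_cases hL : L q
  · exact Or.inr ⟨hq, h q hq hL⟩
  · exact Or.inl ⟨hq, hL⟩

private theorem cls_J {P : Prm} {R : ℕ} (hR : 2 ≤ R) {D : TCF.Dat} (hD : D.Ok P R) : D.J0 ≤ D.J1 := by
  have h2 : 0 < JJ R := by
    unfold Pool.Agent.Lib.RH.JJ
    rw [Nat.ceil_pos]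
    refine pow_pos (Real.log_pos ?_) _
    exact_mod_cast (by omega : 1 < R)
  have h3 : 0 < MM P R := by
    unfold Pool.Agent.Lib.RH.MM
    positivity
  have h4 : 0 < JJ R * MM P R ^ 2 := by positivity
  have h5 : 8 * JJ R * MM P R ^ 2 * D.J0 = (8 * (JJ R * MM P R ^ 2)) * D.J0 := by ring
  have h6 : D.J0 ≤ D.J2 := by
    refine le_trans ?_ hD.j02
    rw [h5]
    exact Nat.le_mul_of_pos_left _ (by omega)
  exact h6.trans ((Nat.le_mul_of_pos_left _ h2).trans hD.j21)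

open Classical in
theorem cls_bound {P : Prm} {S : MS} {T : TC.Dat} {W0 y1 Cp : ℕ} {D D1 : TCF.Dat} {δ0 δ1 δm δ2 ε e3 s u : ℝ}
    (hB : Brg3 P S T W0 y1 D Cp δ0 δ1 δm δ2 ε e3 s u) (hJ : D1.J0 = D.J0) (hsx : TUP D1.BX ⊆ TUP D.BX) (hsy : TUP D1.BY ⊆ TUP D.BY)
    {D' r : ℕ} (hD0 : 0 < D') (hD1 : D' ≤ D.J1) {ι : Type} (I : Finset ι) (M : ι → Msr S) (w : ι → ℝ)
    (hM : ∀ i ∈ I, TMs (M i) (wD T (W0 ^ 2 * D')) W0 δ0 δ1 (rho D.BX * rho D.BY) (w i))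
    (hc1 : Cov I M (BS P S T W0 y1 D1 D' r 1)) (hc2 : Cov I M (BS P S T W0 y1 D1 D' r (-1))) (SID : ℝ)
    (hS : ∑ t ∈ TUP D1.BX, ∑ t' ∈ TUP D1.BY,
      |((BP P W0 T.N D' (D' * (W0 ^ 2 * T.N)) ((D' + D1.J0) * (W0 ^ 2 * T.N)) r t t' 1).card : ℝ) -
        (BP P W0 T.N D' (D' * (W0 ^ 2 * T.N)) ((D' + D1.J0) * (W0 ^ 2 * T.N)) r t t' (-1)).card| ≤ SID) :
    ∑ t ∈ TUP D1.BX, ∑ t' ∈ (TUP D1.BY).filter (fun t' => ¬ BdS S T y1 t t'),
      (((BP P W0 T.N D' (D' * (W0 ^ 2 * T.N)) ((D' + D1.J0) * (W0 ^ 2 * T.N)) r t t' 1).card : ℝ) +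
        (BP P W0 T.N D' (D' * (W0 ^ 2 * T.N)) ((D' + D1.J0) * (W0 ^ 2 * T.N)) r t t' (-1)).card) ≤
      SID + 2 * Real.sqrt ((rho D.BX * rho D.BY) * (2 * (2 * ε * (rho D.BX * rho D.BY) + (T.N : ℝ) ^ (-δ2)) * (∑ i ∈ I, w i) ^ 2 +
        (T.N : ℝ) ^ δm * (2 * ((D.J0 : ℝ) * (W0 ^ 2 * T.N : ℕ)) * (T.N : ℝ) ^ (1 - e3)))) := by
  set R := W0 ^ 2 * T.N with hRdef
  have hW0 : 0 < W0 := Nat.pos_of_ne_zero hB.w0.ne_zero
  have hN2 : 2 ≤ T.N := by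
    have h1 := hB.num
    have h2 : (3 : ℝ) ≤ ((3 * (S.k + 1) + 2 * S.n0 + S.nX + S.nY : ℕ) : ℝ) := by
      exact_mod_cast (by omega : 3 ≤ 3 * (S.k + 1) + 2 * S.n0 + S.nX + S.nY)
    by_contra h3
    have h4 : T.N = 0 ∨ T.N = 1 := by omega
    rcases h4 with h4 | h4 <;> rw [h4] at h1 <;> norm_num at h1 <;> linarith
  have hR2 : 2 ≤ R := by
    have h1 : 1 ≤ W0 ^ 2 := Nat.one_le_pow _ _ hW0
    rw [hRdef]
    nlinarith
  have hJ01 : D.J0 ≤ D.J1 := cls_J hR2 hB.ok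
  have hDD : (wD T (W0 ^ 2 * D')).D * (wD T (W0 ^ 2 * D')).N = D' * R := by
    show W0 ^ 2 * D' * T.N = D' * R
    rw [hRdef]
    ring
  have hTD : 0 < (wD T (W0 ^ 2 * D')).D := by
    show 0 < W0 ^ 2 * D'
    positivity
  have hρ0X : 0 ≤ rho D.BX := by
    rw [hB.fam.rX]
    exact sum_nonneg fun μ _ => by positivity
  have hρ0Y : 0 ≤ rho D.BY := by
    rw [hB.fam.rY]
    exact sum_nonneg fun ν _ => by positivity
  have hρ : 0 ≤ rho D.BX * rho D.BY := mul_nonneg hρ0X hρ0Y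
  -- members of the sets
  have hmem : ∀ (x : ℝ) (μ : S.TX) (ν : S.TY) (X : ℕ), X ∈ BS P S T W0 y1 D1 D' r x μ ν →
      (D' * R < X ∧ X ≤ (D' + D1.J0) * R) ∧ X ≡ r [MOD W0] ∧ Rgh1 P R X ∧ Rgh1 P R (X - D' * R) ∧
        lam X = -x ∧ lam (X - D' * R) = x := by
    intro x μ ν X hX
    unfold BS at hX
    split_ifs at hX with hc
    · unfold BP PS at hX
      rw [mem_filter, mem_filter, mem_Ioc, ← hRdef] at hX
      obtain ⟨⟨h1, _, _, h2, h3, h4⟩, h5, h6⟩ := hX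
      exact ⟨h1, h2, h3, h4, h5, h6⟩
    · exact absurd hX (notMem_empty X)
  have hcop : ∀ z : ℕ, z.Coprime R → z.Coprime (W0 * T.N) := by
    intro z hz
    exact Nat.Coprime.coprime_dvd_right (Nat.mul_dvd_mul (dvd_pow_self W0 two_ne_zero) dvd_rfl) hz
  have hcr : ∀ z : ℕ, Rgh1 P R z → TCB.CR (wD T (W0 ^ 2 * D')) W0 z := by
    intro z hz
    exact ⟨hcop z hz.1, fun p hp hd => lt_of_le_of_lt hB.ty (hz.2 p hp hd)⟩
  have hsub : ∀ x : ℝ, ∀ μ ν, BS P S T W0 y1 D1 D' r x μ ν ⊆ Ioc (D' * R) ((D' + D1.J0) * R) := by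
    intro x μ ν X hX
    exact mem_Ioc.2 (hmem x μ ν X hX).1
  -- the pairs which are not linked
  have hp1 := pairs (T := wD T (W0 ^ 2 * D')) (y1 := y1) I M w hM hB.e0 hρ (hB.plem D' hD0 hD1)
    (BS P S T W0 y1 D1 D' r 1) (BS P S T W0 y1 D1 D' r (-1)) hc1 hc2
    (by
      intro μ _ ν _ hbad
      unfold BS
      rw [if_neg]
      exact fun h => h.2.2 hbad)
    (by
      intro μ _ ν _ X hX
      obtain ⟨_, _, h3, h4, _⟩ := hmem _ μ ν X hX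
      rw [hDD]
      exact ⟨hcr _ h3, hcr _ h4⟩)
    (by
      intro μ _ ν _ X hX
      obtain ⟨_, _, h3, h4, _⟩ := hmem _ μ ν X hX
      rw [hDD]
      exact ⟨hcr _ h3, hcr _ h4⟩)
    (by
      intro μ _ ν _ X hX X' hX'
      exact (hmem _ μ ν X hX).2.1.trans (hmem _ μ ν X' hX').2.1.symm)
  have hp2 := expairs (T := wD T (W0 ^ 2 * D')) (a := D' * R) (b := (D' + D1.J0) * R) (hB.exb D' hD0 hD1) hB.size (le_of_eq hDD)
    (Nat.mul_le_mul_right _ (by omega))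
    (by
      rw [hJ]
      exact Nat.mul_le_mul_right _ (by omega))
    (BS P S T W0 y1 D1 D' r 1) (BS P S T W0 y1 D1 D' r (-1)) (hsub 1) (hsub (-1))
  have hNN : (wD T (W0 ^ 2 * D')).N = T.N := rfl
  rw [hNN] at hp1 hp2
  have hba : (((D' + D1.J0) * R : ℕ) : ℝ) - ((D' * R : ℕ) : ℝ) = (D.J0 : ℝ) * (R : ℝ) := by
    rw [hJ]
    push_cast
    ring
  rw [hba] at hp2
  -- Cauchy
  have hxpos : ∀ a ∈ S.MX ×ˢ S.MY, (0 : ℝ) < ((S.prX id a.1 * S.prY id a.2 : ℕ) : ℝ) := by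
    intro a ha
    rw [mem_product] at ha
    have h1 := (hB.sets.sqX ha.1).ne_zero
    have h2 := (hB.sets.sqY ha.2).ne_zero
    exact_mod_cast Nat.pos_of_ne_zero (mul_ne_zero h1 h2)
  have hca := cauchy (S.MX ×ˢ S.MY) (fun a => ((S.prX id a.1 * S.prY id a.2 : ℕ) : ℝ))
    (fun a => ((BS P S T W0 y1 D1 D' r 1 a.1 a.2).card : ℝ)) (fun a => ((BS P S T W0 y1 D1 D' r (-1) a.1 a.2).card : ℝ))
    hxpos (fun _ _ => Nat.cast_nonneg _) (fun _ _ => Nat.cast_nonneg _) SID (rho D.BX * rho D.BY)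
    (2 * (2 * ε * (rho D.BX * rho D.BY) + (T.N : ℝ) ^ (-δ2)) * (∑ i ∈ I, w i) ^ 2 +
        (T.N : ℝ) ^ δm * (2 * ((D.J0 : ℝ) * (R : ℝ)) * (T.N : ℝ) ^ (1 - e3)))
    ?_ ?_ ?_
  · refine le_trans ?_ hca
    rw [sum_product]
    rw [cls_sum S.MX (S.prX id) (fun a ha b hb hab => hB.sets.injX ha hb hab) (TUP D1.BX)
      (fun t ht => (hB.fam.x t).1 (hsx ht))]
    refine sum_le_sum fun μ hμ => ?_
    split_ifs with h1
    · rw [sum_filter]
      rw [cls_sum S.MY (S.prY id) (fun a ha b hb hab => hB.sets.injY ha hb hab) (TUP D1.BY)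
        (fun t ht => (hB.fam.y t).1 (hsy ht))]
      refine sum_le_sum fun ν hν => ?_
      have h0 : (0 : ℝ) ≤ ((BS P S T W0 y1 D1 D' r 1 μ ν).card : ℝ) + ((BS P S T W0 y1 D1 D' r (-1) μ ν).card : ℝ) := by
        positivity
      by_cases h2 : S.prY id ν ∈ TUP D1.BY
      · rw [if_pos h2]
        by_cases h3 : BdS S T y1 (S.prX id μ) (S.prY id ν)
        · rw [if_neg (not_not.2 h3)]
          exact h0
        · rw [if_pos h3]
          have h4 : ¬ S.badpair T 0 y1 μ ν := fun h => h3 ⟨μ, hμ, ν, hν, rfl, rfl, h⟩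
          have h5 : ∀ x : ℝ, BS P S T W0 y1 D1 D' r x μ ν =
              BP P W0 T.N D' (D' * (W0 ^ 2 * T.N)) ((D' + D1.J0) * (W0 ^ 2 * T.N)) r (S.prX id μ) (S.prY id ν) x := by
            intro x
            unfold BS
            rw [if_pos ⟨h1, h2, h4⟩]
          rw [h5, h5]
      · rw [if_neg h2]
        exact h0
    · exact sum_nonneg fun ν _ => by positivity
  · refine le_trans ?_ hS
    rw [sum_product]
    rw [cls_sum S.MX (S.prX id) (fun a ha b hb hab => hB.sets.injX ha hb hab) (TUP D1.BX)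
      (fun t ht => (hB.fam.x t).1 (hsx ht))]
    refine sum_le_sum fun μ hμ => ?_
    split_ifs with h1
    · rw [cls_sum S.MY (S.prY id) (fun a ha b hb hab => hB.sets.injY ha hb hab) (TUP D1.BY)
        (fun t ht => (hB.fam.y t).1 (hsy ht))]
      refine sum_le_sum fun ν hν => ?_
      by_cases h3 : S.prX id μ ∈ TUP D1.BX ∧ S.prY id ν ∈ TUP D1.BY ∧ ¬ S.badpair T 0 y1 μ ν
      · rw [if_pos h3.2.1]
        have h5 : ∀ x : ℝ, BS P S T W0 y1 D1 D' r x μ ν =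
            BP P W0 T.N D' (D' * (W0 ^ 2 * T.N)) ((D' + D1.J0) * (W0 ^ 2 * T.N)) r (S.prX id μ) (S.prY id ν) x := by
          intro x
          unfold BS
          rw [if_pos h3]
        simp only [h5]
        exact le_rfl
      · have h5 : ∀ x : ℝ, BS P S T W0 y1 D1 D' r x μ ν = ∅ := by
          intro x
          unfold BS
          rw [if_neg h3]
        simp only [h5, card_empty, Nat.cast_zero, sub_zero, abs_zero]
        split_ifs
        · exact abs_nonneg _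
        · exact le_rfl
    · refine le_of_eq (sum_eq_zero fun ν _ => ?_)
      have h5 : ∀ x : ℝ, BS P S T W0 y1 D1 D' r x μ ν = ∅ := by
        intro x
        unfold BS
        rw [if_neg]
        exact fun h => h1 h.1
      simp only [h5, card_empty, Nat.cast_zero, sub_zero, abs_zero]
  · rw [hB.fam.rX, hB.fam.rY, sum_mul_sum, sum_product]
    refine le_of_eq (sum_congr rfl fun μ _ => sum_congr rfl fun ν _ => ?_)
    push_cast
    rw [one_div_mul_one_div]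
  · have h1 : ∀ μ ∈ S.MX, ∀ ν ∈ S.MY, ((S.prX id μ * S.prY id ν : ℕ) : ℝ) *
        (((BS P S T W0 y1 D1 D' r 1 μ ν).card : ℝ) * ((BS P S T W0 y1 D1 D' r (-1) μ ν).card : ℝ)) ≤
        ((S.prX id μ * S.prY id ν : ℕ) : ℝ) *
          ((((BS P S T W0 y1 D1 D' r 1 μ ν) ×ˢ (BS P S T W0 y1 D1 D' r (-1) μ ν)).filter fun q =>
            ¬ S.Linked2 (wD T (W0 ^ 2 * D')) μ ν q.1 q.2).card : ℝ) +
        ((S.prX id μ * S.prY id ν : ℕ) : ℝ) *
          ((((BS P S T W0 y1 D1 D' r 1 μ ν) ×ˢ (BS P S T W0 y1 D1 D' r (-1) μ ν)).filter fun q =>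
            LE S (wD T (W0 ^ 2 * D')) s u μ ν q.1 ∨ LE S (wD T (W0 ^ 2 * D')) s u μ ν q.2).card : ℝ) := by
      intro μ hμ ν hν
      rw [← mul_add]
      refine mul_le_mul_of_nonneg_left ?_ (Nat.cast_nonneg _)
      refine cls_card _ _ (fun q => S.Linked2 (wD T (W0 ^ 2 * D')) μ ν q.1 q.2)
        (fun q => LE S (wD T (W0 ^ 2 * D')) s u μ ν q.1 ∨ LE S (wD T (W0 ^ 2 * D')) s u μ ν q.2) ?_
      rintro ⟨X, X'⟩ hq hl
      rw [mem_product] at hq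
      obtain ⟨⟨ha1, _⟩, _, _, _, ha5, ha6⟩ := hmem _ μ ν X hq.1
      obtain ⟨⟨hb1, _⟩, _, _, _, hb5, hb6⟩ := hmem _ μ ν X' hq.2
      refine lab_two (T := wD T (W0 ^ 2 * D')) ⟨hB.par.wx, hB.par.wy, hB.par.ab⟩ hTD hB.s1 hB.u1 hμ hν (by rw [hDD]; exact ha1)
        (by rw [hDD]; exact hb1) hl ?_ ?_ ?_
      · rw [hDD, ha5, ha6]; norm_num
      · rw [hDD, hb5, hb6]; norm_num
      · rw [hDD, ha6, hb6]; norm_num
    rw [sum_product]
    refine le_trans (sum_le_sum fun μ hμ => sum_le_sum fun ν hν => h1 μ hμ ν hν) ?_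
    have h2 : ∀ μ ∈ S.MX, ∑ ν ∈ S.MY, (((S.prX id μ * S.prY id ν : ℕ) : ℝ) *
          ((((BS P S T W0 y1 D1 D' r 1 μ ν) ×ˢ (BS P S T W0 y1 D1 D' r (-1) μ ν)).filter fun q =>
            ¬ S.Linked2 (wD T (W0 ^ 2 * D')) μ ν q.1 q.2).card : ℝ) +
        ((S.prX id μ * S.prY id ν : ℕ) : ℝ) *
          ((((BS P S T W0 y1 D1 D' r 1 μ ν) ×ˢ (BS P S T W0 y1 D1 D' r (-1) μ ν)).filter fun q =>
            LE S (wD T (W0 ^ 2 * D')) s u μ ν q.1 ∨ LE S (wD T (W0 ^ 2 * D')) s u μ ν q.2).card : ℝ)) =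
        ∑ ν ∈ S.MY, ((S.prX id μ * S.prY id ν : ℕ) : ℝ) *
          ((((BS P S T W0 y1 D1 D' r 1 μ ν) ×ˢ (BS P S T W0 y1 D1 D' r (-1) μ ν)).filter fun q =>
            ¬ S.Linked2 (wD T (W0 ^ 2 * D')) μ ν q.1 q.2).card : ℝ) +
        ∑ ν ∈ S.MY, ((S.prX id μ * S.prY id ν : ℕ) : ℝ) *
          ((((BS P S T W0 y1 D1 D' r 1 μ ν) ×ˢ (BS P S T W0 y1 D1 D' r (-1) μ ν)).filter fun q =>
            LE S (wD T (W0 ^ 2 * D')) s u μ ν q.1 ∨ LE S (wD T (W0 ^ 2 * D')) s u μ ν q.2).card : ℝ) :=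
      fun μ _ => sum_add_distrib
    rw [sum_congr rfl h2, sum_add_distrib]
    exact add_le_add hp1 hp2

end Pool.Agent.Lib.T3D
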