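import Pool.Agent.Lib.MP_7b7e48_nt.T3D.Tm

/-!
# T3D / Cv0 (40 minutes): covering by one measure

PROOF. `X ∈ BP ..` (so `X ∈ Ioc (D' R) ((D' + J0) R)`, `prX id μ ∣ X`, `prY id ν ∣ X - D' R`): `n = X / prX id μ`, `v = 1`, weight `wt y0 none n = 1`. `(wD T (W0^2 D')).D * T.N = W0^2 D' T.N = D' R`. `n ≤ X ≤ nm = b`.
-/

set_option autoImplicit false

open Finset

namespace Pool.Agent.Lib.T3D

open Pool.Agent.Lib.RG (Rough LV RC PZ)
open Pool.Agent.Lib.RH (Prm MM JJ Blk)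
open Pool.Agent.Lib.TC (MS Msr)
open Pool.Agent.Lib.TCB (famX famY CR wD Wei dq BdS lenW dvW gW LW t2W)
open Pool.Agent.Lib.TCF (TUP rho TM Rgh1 wt AP QS QM sgm)
open Pool.Agent.Lib.MP_45349e_nt.LS (lam)

theorem cov0 {P : Prm} {S : MS} {T : TC.Dat} {W0 y1 : ℕ} {D D1 : TCF.Dat} (hJ : D1.J0 = D.J0) (D' r : ℕ) (x : ℝ) :
    Cov ({()} : Finset Unit) (fun _ => tX S T D W0 D' 1 none 1) (BS P S T W0 y1 D1 D' r x) := by
  classical
  intro μ hμ ν hν X hX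
  unfold BS at hX
  split_ifs at hX with hc
  · unfold BP PS at hX
    rw [Finset.mem_filter, Finset.mem_filter, Finset.mem_Ioc] at hX
    obtain ⟨⟨⟨h1, h2⟩, h3, h4, -⟩, -⟩ := hX
    refine ⟨(), Finset.mem_singleton_self _, X / S.prX id μ, ?_, ?_, ?_⟩
    · show X / S.prX id μ ≤ (D' + D.J0) * (W0 ^ 2 * T.N)
      rw [← hJ]
      exact (Nat.div_le_self _ _).trans h2
    · show 1 * S.prX id μ * (X / S.prX id μ) = X
      rw [one_mul, Nat.mul_div_cancel' h3]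
    · have e : 1 * S.prX id μ * (X / S.prX id μ) = X := by rw [one_mul, Nat.mul_div_cancel' h3]
      show (1 : ℝ) ≤ if D' * (W0 ^ 2 * T.N) < 1 * S.prX id μ * (X / S.prX id μ) ∧ 1 * S.prX id μ * (X / S.prX id μ) ≤ (D' + D.J0) * (W0 ^ 2 * T.N) ∧
        S.prY id ν ∣ 1 * S.prX id μ * (X / S.prX id μ) - W0 ^ 2 * D' * T.N then wt T.y0 none (X / S.prX id μ) else 0
      rw [e, if_pos]
      · exact le_refl _
      · refine ⟨h1, by rw [← hJ]; exact h2, ?_⟩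
        have e2 : W0 ^ 2 * D' * T.N = D' * (W0 ^ 2 * T.N) := by ring
        rw [e2]
        exact h4
  · exact absurd hX (Finset.notMem_empty _)

end Pool.Agent.Lib.T3D
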