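import Pool.Agent.Lib.MP_7b7e48_nt.T3D.Def
import Pool.Agent.Lib.MP_7b7e48_nt.TCF.Bas
import Pool.Agent.Lib.MP_7b7e48_nt.RG.NUM

/-!
# T3D / Num (75 minutes): numerics

`K = log T.N`, `R = W0^2 T.N`, `J = JJ R = ⌈(log R)^1000⌉`, `m = MM P R`. (1) `root_le`: with `σ ≥ N^(-e3/8)`, `ρ = rho BX rho BY`, `w ≤ (log R)^5 σ J0 R`: the term under the root is at most `(ρ σ J0 R/(J^5 m^5))^2`: `4 ε ρ (log R)^10 ≤ ρ (log R)^10 4/(J^11 m^10) ≤ ρ/(4 J^10 m^10)`; `2 N^(-δ2) (log R)^10 ≤ ρ/(4 J^10 m^10)` because `ρ ≥ 1/J1^2 ≥ 1/y0^2 ≥ K^(-2 Cp)`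
(`Ok.jx, jy`: `J^3 ≤ J0 rho`, `J0 ≤ J1 ≤ y0`); `N^δm 2 J0 R N^(1 - e3) ≤ (1/2) ρ σ^2 (J0 R)^2/(J^10 m^10)`: `N^(δm + 1 - e3) ≤ N^(1 - 15 e3/16)`, `σ^2 R ≥ N^(1 - e3/4)`, `ρ/(J^10 m^10) ≥ K^(-C)`. (2) `fin_le`: the sum over `D'`, `r`: `J1 W0 (σ ρ N/K^A + 2 ρ σ J0 R/(J^5 m^5)) ≤ σ R (J1 rho BX)(J0 rho BY)/(J^4 m^4)` for `A ≥ 4001 + 4 C1 + 4`
and large `N` (`J ≤ 2 (2K)^1000`, `m = MM P R ≤ (2 K)^C1 + 1`: see `Num.J2`, `Num.M2` in `RH`).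
-/

set_option autoImplicit false

open Finset

namespace Pool.Agent.Lib.T3D

open Pool.Agent.Lib.RG (Rough LV RC PZ)
open Pool.Agent.Lib.RH (Prm MM JJ Blk)
open Pool.Agent.Lib.TC (MS Msr)
open Pool.Agent.Lib.TCB (famX famY CR wD Wei dq BdS lenW dvW gW LW t2W)
open Pool.Agent.Lib.TCF (TUP rho TM Rgh1 wt AP QS QM sgm)
open Pool.Agent.Lib.MP_45349e_nt.LS (lam)

private theorem nu_log {W0 N : ℕ} (hW : 1 ≤ W0 ^ 2) (h1 : W0 ^ 2 ≤ N) :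
    Real.log N ≤ Real.log ((W0 ^ 2 * N : ℕ) : ℝ) ∧ Real.log ((W0 ^ 2 * N : ℕ) : ℝ) ≤ 2 * Real.log N := by
  have hN0 : 0 < N := lt_of_lt_of_le (by omega) h1
  have hNr : (0 : ℝ) < N := by exact_mod_cast hN0
  constructor
  · apply Real.log_le_log hNr
    exact_mod_cast Nat.le_mul_of_pos_left N hW
  · have h5 : ((W0 ^ 2 * N : ℕ) : ℝ) ≤ (N : ℝ) ^ 2 := by
      have : W0 ^ 2 * N ≤ N ^ 2 := by
        rw [sq N]
        exact Nat.mul_le_mul_right N h1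
      exact_mod_cast this
    have h6 : (0 : ℝ) < ((W0 ^ 2 * N : ℕ) : ℝ) := by
      have : 0 < W0 ^ 2 * N := Nat.mul_pos (by omega) hN0
      exact_mod_cast this
    have h7 := Real.log_le_log h6 h5
    rw [Real.log_pow] at h7
    push_cast at h7 ⊢
    exact h7

/-- `J * m ≤ 4 L ^ (1000 + C1)` -/
private theorem nu_Jm {P : Prm} {R : ℕ} (hn : Pool.Agent.Lib.RH.Num P R) :
    (JJ R : ℝ) * MM P R ≤ 4 * (Real.log R) ^ (1000 + P.C1) := by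
  have hK : (0 : ℝ) ≤ Real.log R := le_trans (by norm_num) hn.K
  calc (JJ R : ℝ) * MM P R ≤ (2 * (Real.log R) ^ 1000) * (2 * (Real.log R) ^ P.C1) :=
        mul_le_mul hn.J2 hn.M2 (Nat.cast_nonneg _) (by positivity)
    _ = 4 * (Real.log R) ^ (1000 + P.C1) := by
        rw [pow_add]
        ring

private theorem nu_inv {P : Prm} {R : ℕ} {D : TCF.Dat} (hD : D.Ok P R) (hJ : 1 ≤ JJ R) (hL : 0 < Real.log R) :
    1 ≤ (D.y0 : ℝ) ^ 2 * (rho D.BX * rho D.BY) := by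
  have hm : 1 ≤ MM P R := Nat.one_le_two_pow
  have h1 : D.J1 ≤ D.y0 := by
    refine le_trans (Nat.le_mul_of_pos_left _ ?_) hD.y1
    positivity
  have h2 : D.J0 ≤ D.J1 := by
    have h3 : D.J0 ≤ D.J2 := by
      refine le_trans (Nat.le_mul_of_pos_left _ ?_) hD.j02
      positivity
    exact h3.trans ((Nat.le_mul_of_pos_left _ hJ).trans hD.j21)
  have hJr : (1 : ℝ) ≤ (JJ R : ℝ) ^ 3 := one_le_pow₀ (by exact_mod_cast hJ)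
  have hx := Pool.Agent.Lib.TCF.rho_pos hD.fx hL
  have hy := Pool.Agent.Lib.TCF.rho_pos hD.fy hL
  have h3 : (1 : ℝ) ≤ D.y0 * rho D.BX := by
    refine (hJr.trans hD.jx).trans ?_
    exact mul_le_mul_of_nonneg_right (by exact_mod_cast h1) hx.le
  have h4 : (1 : ℝ) ≤ D.y0 * rho D.BY := by
    refine (hJr.trans hD.jy).trans ?_
    exact mul_le_mul_of_nonneg_right (by exact_mod_cast h2.trans h1) hy.le
  have h5 := mul_le_mul h3 h4 zero_le_one (by linarith)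
  nlinarith

/-- the three parts -/
private theorem nu_core {ε ρ x w σ G J m L r1 r2 : ℝ} (hρ : 0 < ρ) (hσ : 0 < σ) (hG : 0 < G) (hJ : 0 < J)
    (hm : 0 < m) (hL : 0 < L) (hw0 : 0 ≤ w) (hε : 0 ≤ ε) (hr1 : 0 ≤ r1)
    (hw : w ≤ L ^ 5 * σ * G) (h1 : ε * (J ^ 11 * m ^ 10) ≤ 1) (h1' : 12 * L ^ 10 ≤ J)
    (h2 : 6 * r1 * L ^ 10 * (J * m) ^ 10 ≤ ρ) (h3 : 6 * r2 * (J * m) ^ 10 ≤ ρ * σ ^ 2 * G)
    (hx : x = ρ * (2 * (2 * ε * ρ + r1) * w ^ 2 + 2 * G * r2)) :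
    Real.sqrt x ≤ ρ * σ * G / (J ^ 5 * m ^ 5) := by
  rw [Real.sqrt_le_iff]
  refine ⟨by positivity, ?_⟩
  have hD : 0 < (J * m) ^ 10 := by positivity
  have e0 : (ρ * σ * G / (J ^ 5 * m ^ 5)) ^ 2 = ρ ^ 2 * σ ^ 2 * G ^ 2 / (J * m) ^ 10 := by
    rw [div_pow]
    congr 1
    · ring
    · ring
  rw [e0, le_div_iff₀ hD, hx]
  have hw2 : w ^ 2 ≤ (L ^ 5 * σ * G) ^ 2 := pow_le_pow_left₀ hw0 hw 2
  have q1 : 12 * ε * L ^ 10 * (J * m) ^ 10 ≤ 1 := by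
    calc 12 * ε * L ^ 10 * (J * m) ^ 10 = (12 * L ^ 10) * (ε * (J ^ 10 * m ^ 10)) := by rw [mul_pow]; ring
      _ ≤ J * (ε * (J ^ 10 * m ^ 10)) := mul_le_mul_of_nonneg_right h1' (by positivity)
      _ = ε * (J ^ 11 * m ^ 10) := by ring
      _ ≤ 1 := h1
  have p1 : 4 * ε * ρ ^ 2 * w ^ 2 * (J * m) ^ 10 ≤ ρ ^ 2 * σ ^ 2 * G ^ 2 / 3 := by
    calc 4 * ε * ρ ^ 2 * w ^ 2 * (J * m) ^ 10 ≤ 4 * ε * ρ ^ 2 * (L ^ 5 * σ * G) ^ 2 * (J * m) ^ 10 := by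
          have : 0 ≤ 4 * ε * ρ ^ 2 := by positivity
          exact mul_le_mul_of_nonneg_right (mul_le_mul_of_nonneg_left hw2 this) hD.le
      _ = (12 * ε * L ^ 10 * (J * m) ^ 10) * (ρ ^ 2 * σ ^ 2 * G ^ 2 / 3) := by ring
      _ ≤ 1 * (ρ ^ 2 * σ ^ 2 * G ^ 2 / 3) := mul_le_mul_of_nonneg_right q1 (by positivity)
      _ = ρ ^ 2 * σ ^ 2 * G ^ 2 / 3 := one_mul _
  have p2 : 2 * ρ * r1 * w ^ 2 * (J * m) ^ 10 ≤ ρ ^ 2 * σ ^ 2 * G ^ 2 / 3 := by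
    calc 2 * ρ * r1 * w ^ 2 * (J * m) ^ 10 ≤ 2 * ρ * r1 * (L ^ 5 * σ * G) ^ 2 * (J * m) ^ 10 := by
          have : 0 ≤ 2 * ρ * r1 := by positivity
          exact mul_le_mul_of_nonneg_right (mul_le_mul_of_nonneg_left hw2 this) hD.le
      _ = (6 * r1 * L ^ 10 * (J * m) ^ 10) * (ρ * σ ^ 2 * G ^ 2 / 3) := by ring
      _ ≤ ρ * (ρ * σ ^ 2 * G ^ 2 / 3) := mul_le_mul_of_nonneg_right h2 (by positivity)
      _ = ρ ^ 2 * σ ^ 2 * G ^ 2 / 3 := by ring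
  have p3 : 2 * ρ * G * r2 * (J * m) ^ 10 ≤ ρ ^ 2 * σ ^ 2 * G ^ 2 / 3 := by
    calc 2 * ρ * G * r2 * (J * m) ^ 10 = (6 * r2 * (J * m) ^ 10) * (ρ * G / 3) := by ring
      _ ≤ (ρ * σ ^ 2 * G) * (ρ * G / 3) := mul_le_mul_of_nonneg_right h3 (by positivity)
      _ = ρ ^ 2 * σ ^ 2 * G ^ 2 / 3 := by ring
  calc ρ * (2 * (2 * ε * ρ + r1) * w ^ 2 + 2 * G * r2) * (J * m) ^ 10 =
      4 * ε * ρ ^ 2 * w ^ 2 * (J * m) ^ 10 + 2 * ρ * r1 * w ^ 2 * (J * m) ^ 10 + 2 * ρ * G * r2 * (J * m) ^ 10 := by ring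
    _ ≤ ρ ^ 2 * σ ^ 2 * G ^ 2 := by linarith

theorem root_le (P : Prm) (hP : P.Ok) (W0 Cp : ℕ) {δ0 δ1 δm δ2 e3 : ℝ} (hE : Exps3 P.kap Cp δ0 δ1 δm δ2 e3) :
    ∃ N0 : ℕ, ∀ (S : MS) (T : TC.Dat) (y1 : ℕ) (D : TCF.Dat) (ε s u : ℝ), N0 ≤ T.N →
    Brg3 P S T W0 y1 D Cp δ0 δ1 δm δ2 ε e3 s u → ∀ σ w : ℝ, (T.N : ℝ) ^ (-(e3 / 8)) ≤ σ → 0 ≤ w →
    w ≤ (Real.log ((W0 ^ 2 * T.N : ℕ) : ℝ)) ^ 5 * σ * (D.J0 * ((W0 ^ 2 * T.N : ℕ) : ℝ)) →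
    Real.sqrt ((rho D.BX * rho D.BY) * (2 * (2 * ε * (rho D.BX * rho D.BY) + (T.N : ℝ) ^ (-δ2)) * w ^ 2 +
        (T.N : ℝ) ^ δm * (2 * ((D.J0 : ℝ) * (W0 ^ 2 * T.N : ℕ)) * (T.N : ℝ) ^ (1 - e3)))) ≤
      (rho D.BX * rho D.BY) * σ * (D.J0 * ((W0 ^ 2 * T.N : ℕ) : ℝ)) / ((JJ (W0 ^ 2 * T.N) : ℝ) ^ 5 * (MM P (W0 ^ 2 * T.N) : ℝ) ^ 5) := by
  obtain ⟨Nn, hNn⟩ := Pool.Agent.Lib.RH.num P hP
  have hδ2 := hE.e2
  have he3 := hE.a5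
  obtain ⟨B, hB⟩ : ∃ B : ℕ, B = 10 + 10 * (1000 + P.C1) + 2 * Cp := ⟨_, rfl⟩
  have e1 := Pool.Agent.Lib.RH.ev_log_pow B δ2 hδ2 (6 * 4 ^ 10 * 2 ^ B) (by positivity)
  have e2 := Pool.Agent.Lib.RH.ev_log_pow B (e3 / 2) (by positivity) (6 * 4 ^ 10 * 2 ^ B) (by positivity)
  have e3' := Pool.Agent.Lib.RH.ev_log_ge (12 : ℝ)
  obtain ⟨Nb, hNb⟩ := (e1.and (e2.and e3')).exists_forall_of_atTop
  refine ⟨max (max Nn Nb) (W0 ^ 2), ?_⟩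
  intro S T y1 D ε s u hN hBr σ w hσ hw0 hw
  have hN1 : Nn ≤ T.N := (le_max_left _ _).trans ((le_max_left _ _).trans hN)
  have hN2 : Nb ≤ T.N := (le_max_right _ _).trans ((le_max_left _ _).trans hN)
  have hN3 : W0 ^ 2 ≤ T.N := (le_max_right _ _).trans hN
  obtain ⟨f1, f2, f3⟩ := hNb T.N hN2
  have hW0 : 0 < W0 := Nat.pos_of_ne_zero hBr.w0.ne_zero
  have hW2 : 1 ≤ W0 ^ 2 := Nat.one_le_pow _ _ hW0
  have hNpos : 0 < T.N := lt_of_lt_of_le (by omega) hN3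
  have hNr : (0 : ℝ) < T.N := by exact_mod_cast hNpos
  have hNr1 : (1 : ℝ) ≤ T.N := by exact_mod_cast hNpos
  obtain ⟨l1, l2⟩ := nu_log hW2 hN3
  have hnum := hNn _ (hN1.trans (Nat.le_mul_of_pos_left T.N hW2))
  have hR : (T.N : ℝ) ≤ ((W0 ^ 2 * T.N : ℕ) : ℝ) := by exact_mod_cast Nat.le_mul_of_pos_left T.N hW2
  obtain ⟨R, hRe⟩ : ∃ R : ℕ, R = W0 ^ 2 * T.N := ⟨_, rfl⟩
  have hok := hBr.ok
  have he1 := hBr.e1
  rw [← hRe] at l1 l2 hnum hR hw hok he1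
  rw [← hRe]
  have hL1 : 1 ≤ Real.log R := by linarith
  have hJ0 : (1 : ℝ) ≤ JJ R := by
    refine le_trans ?_ hnum.J1
    exact one_le_pow₀ hL1
  have hJ1 : 1 ≤ JJ R := by exact_mod_cast hJ0
  have hm1 : 1 ≤ MM P R := Nat.one_le_two_pow
  have hmr : (1 : ℝ) ≤ MM P R := by exact_mod_cast hm1
  have hx := Pool.Agent.Lib.TCF.rho_pos hok.fx (by linarith)
  have hy := Pool.Agent.Lib.TCF.rho_pos hok.fy (by linarith)
  have hJ0D : (1 : ℝ) ≤ D.J0 := by exact_mod_cast hok.j0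
  have hσ0 : 0 < σ := lt_of_lt_of_le (by positivity) hσ
  have hJm := nu_Jm hnum
  have hJm10 : ((JJ R : ℝ) * MM P R) ^ 10 ≤ 4 ^ 10 * (Real.log R) ^ (10 * (1000 + P.C1)) := by
    calc ((JJ R : ℝ) * MM P R) ^ 10 ≤ (4 * (Real.log R) ^ (1000 + P.C1)) ^ 10 :=
          pow_le_pow_left₀ (by positivity) hJm 10
      _ = _ := by rw [mul_pow, ← pow_mul, Nat.mul_comm (1000 + P.C1) 10]
  have hinv : 1 ≤ (Real.log R) ^ (2 * Cp) * (rho D.BX * rho D.BY) := by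
    refine (nu_inv hok hJ1 (by linarith)).trans ?_
    refine mul_le_mul_of_nonneg_right ?_ (by positivity)
    rw [hBr.ey, Nat.mul_comm 2 Cp, pow_mul]
    refine pow_le_pow_left₀ (by positivity) (hBr.y0le.trans ?_) 2
    exact pow_le_pow_left₀ (by linarith) l1 _
  -- the polynomial bound
  have hpoly : 6 * (Real.log R) ^ 10 * ((JJ R : ℝ) * MM P R) ^ 10 * (Real.log R) ^ (2 * Cp) ≤
      6 * 4 ^ 10 * 2 ^ B * (Real.log T.N) ^ B := by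
    calc 6 * (Real.log R) ^ 10 * ((JJ R : ℝ) * MM P R) ^ 10 * (Real.log R) ^ (2 * Cp) ≤
        6 * (Real.log R) ^ 10 * (4 ^ 10 * (Real.log R) ^ (10 * (1000 + P.C1))) * (Real.log R) ^ (2 * Cp) :=
          mul_le_mul_of_nonneg_right (mul_le_mul_of_nonneg_left hJm10 (by positivity)) (by positivity)
      _ = 6 * 4 ^ 10 * (Real.log R) ^ B := by
          rw [hB, pow_add, pow_add]
          ring
      _ ≤ 6 * 4 ^ 10 * (2 * Real.log T.N) ^ B := by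
          refine mul_le_mul_of_nonneg_left ?_ (by positivity)
          exact pow_le_pow_left₀ (by linarith) l2 B
      _ = _ := by rw [mul_pow]; ring
  have hLB : ((JJ R : ℝ) * MM P R) ^ 10 * (Real.log R) ^ (2 * Cp) * 6 ≤
      6 * 4 ^ 10 * 2 ^ B * (Real.log T.N) ^ B := by
    refine le_trans ?_ hpoly
    have h1 : (1 : ℝ) ≤ (Real.log R) ^ 10 := one_le_pow₀ hL1
    have h2 : 0 ≤ ((JJ R : ℝ) * MM P R) ^ 10 * (Real.log R) ^ (2 * Cp) := by positivity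
    nlinarith
  refine nu_core (J := (JJ R : ℝ)) (m := (MM P R : ℝ)) (L := Real.log R) (ε := ε) (w := w)
    (r1 := (T.N : ℝ) ^ (-δ2)) (r2 := (T.N : ℝ) ^ δm * (T.N : ℝ) ^ (1 - e3)) (G := (D.J0 : ℝ) * (R : ℝ))
    (mul_pos hx hy) hσ0 (mul_pos (by linarith) (by linarith)) (by linarith) (by linarith) (by linarith) hw0 hBr.e0
    (by positivity)
    hw he1 ?_ ?_ ?_ ?_
  · refine le_trans ?_ hnum.J1
    have h12 : (12 : ℝ) ≤ Real.log R := by linarith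
    calc 12 * (Real.log R) ^ 10 ≤ Real.log R * (Real.log R) ^ 10 := mul_le_mul_of_nonneg_right h12 (by positivity)
      _ = (Real.log R) ^ 11 := by ring
      _ ≤ (Real.log R) ^ 1000 := pow_le_pow_right₀ hL1 (by norm_num)
  · -- second part
    have h1 : 6 * (Real.log R) ^ 10 * ((JJ R : ℝ) * MM P R) ^ 10 * (Real.log R) ^ (2 * Cp) ≤ (T.N : ℝ) ^ δ2 :=
      hpoly.trans f1
    have h2 : (T.N : ℝ) ^ (-δ2) * (T.N : ℝ) ^ δ2 = 1 := by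
      rw [← Real.rpow_add hNr]
      simp
    have h3 : 0 < (T.N : ℝ) ^ (-δ2) := by positivity
    have h4 := mul_le_mul_of_nonneg_left h1 h3.le
    rw [h2] at h4
    have h5 : 0 ≤ 6 * (T.N : ℝ) ^ (-δ2) * (Real.log R) ^ 10 * ((JJ R : ℝ) * MM P R) ^ 10 := by positivity
    calc 6 * (T.N : ℝ) ^ (-δ2) * (Real.log R) ^ 10 * ((JJ R : ℝ) * MM P R) ^ 10 =
        6 * (T.N : ℝ) ^ (-δ2) * (Real.log R) ^ 10 * ((JJ R : ℝ) * MM P R) ^ 10 * 1 := by ring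
      _ ≤ 6 * (T.N : ℝ) ^ (-δ2) * (Real.log R) ^ 10 * ((JJ R : ℝ) * MM P R) ^ 10 *
          ((Real.log R) ^ (2 * Cp) * (rho D.BX * rho D.BY)) := mul_le_mul_of_nonneg_left hinv h5
      _ = ((T.N : ℝ) ^ (-δ2) * (6 * (Real.log R) ^ 10 * ((JJ R : ℝ) * MM P R) ^ 10 * (Real.log R) ^ (2 * Cp))) *
          (rho D.BX * rho D.BY) := by ring
      _ ≤ 1 * (rho D.BX * rho D.BY) := mul_le_mul_of_nonneg_right h4 (by positivity)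
      _ = _ := one_mul _
  · -- third part
    have h1 : ((JJ R : ℝ) * MM P R) ^ 10 * (Real.log R) ^ (2 * Cp) * 6 ≤ (T.N : ℝ) ^ (e3 / 2) := hLB.trans f2
    have h2 : (T.N : ℝ) ^ δm * (T.N : ℝ) ^ (1 - e3) * (T.N : ℝ) ^ (e3 / 2) ≤ σ ^ 2 * (D.J0 * (R : ℝ)) := by
      calc (T.N : ℝ) ^ δm * (T.N : ℝ) ^ (1 - e3) * (T.N : ℝ) ^ (e3 / 2) = (T.N : ℝ) ^ (δm + (1 - e3) + e3 / 2) := by
            rw [← Real.rpow_add hNr, ← Real.rpow_add hNr]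
        _ ≤ (T.N : ℝ) ^ (-(e3 / 8) + -(e3 / 8) + 1) := by
            refine Real.rpow_le_rpow_of_exponent_le hNr1 ?_
            have := hE.a6
            linarith
        _ = ((T.N : ℝ) ^ (-(e3 / 8)) * (T.N : ℝ) ^ (-(e3 / 8))) * T.N := by
            rw [Real.rpow_add hNr, Real.rpow_add hNr, Real.rpow_one]
        _ ≤ (σ * σ) * (D.J0 * (R : ℝ)) := by
            have q1 : 0 < (T.N : ℝ) ^ (-(e3 / 8)) := by positivity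
            have q2 : (T.N : ℝ) ≤ D.J0 * (R : ℝ) := by
              have : (0 : ℝ) ≤ R := Nat.cast_nonneg _
              nlinarith
            exact mul_le_mul (mul_le_mul hσ hσ q1.le hσ0.le) q2 hNr.le (by positivity)
        _ = _ := by ring
    have h5 : 0 ≤ 6 * ((T.N : ℝ) ^ δm * (T.N : ℝ) ^ (1 - e3)) * ((JJ R : ℝ) * MM P R) ^ 10 := by positivity
    calc 6 * ((T.N : ℝ) ^ δm * (T.N : ℝ) ^ (1 - e3)) * ((JJ R : ℝ) * MM P R) ^ 10 =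
        6 * ((T.N : ℝ) ^ δm * (T.N : ℝ) ^ (1 - e3)) * ((JJ R : ℝ) * MM P R) ^ 10 * 1 := by ring
      _ ≤ 6 * ((T.N : ℝ) ^ δm * (T.N : ℝ) ^ (1 - e3)) * ((JJ R : ℝ) * MM P R) ^ 10 *
          ((Real.log R) ^ (2 * Cp) * (rho D.BX * rho D.BY)) := mul_le_mul_of_nonneg_left hinv h5
      _ = (((JJ R : ℝ) * MM P R) ^ 10 * (Real.log R) ^ (2 * Cp) * 6) *
          ((T.N : ℝ) ^ δm * (T.N : ℝ) ^ (1 - e3) * (rho D.BX * rho D.BY)) := by ring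
      _ ≤ (T.N : ℝ) ^ (e3 / 2) * ((T.N : ℝ) ^ δm * (T.N : ℝ) ^ (1 - e3) * (rho D.BX * rho D.BY)) :=
          mul_le_mul_of_nonneg_right h1 (by positivity)
      _ = ((T.N : ℝ) ^ δm * (T.N : ℝ) ^ (1 - e3) * (T.N : ℝ) ^ (e3 / 2)) * (rho D.BX * rho D.BY) := by ring
      _ ≤ (σ ^ 2 * (D.J0 * (R : ℝ))) * (rho D.BX * rho D.BY) := mul_le_mul_of_nonneg_right h2 (by positivity)
      _ = _ := by ring
  · ring

theorem fin_le (P : Prm) (hP : P.Ok) (W0 : ℕ) (hW : 0 < W0) : ∃ A N0 : ℕ, ∀ (N : ℕ) (D : TCF.Dat), N0 ≤ N → D.Ok P (W0 ^ 2 * N) → ∀ σ : ℝ, 0 ≤ σ →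
    (D.J1 : ℝ) * (W0 * (σ * (rho D.BX * rho D.BY * N) / (Real.log N) ^ A +
      2 * ((rho D.BX * rho D.BY) * σ * (D.J0 * ((W0 ^ 2 * N : ℕ) : ℝ)) / ((JJ (W0 ^ 2 * N) : ℝ) ^ 5 * (MM P (W0 ^ 2 * N) : ℝ) ^ 5)))) ≤
    σ * ((W0 ^ 2 * N : ℕ) * ((D.J1 * rho D.BX) * (D.J0 * rho D.BY)) / ((JJ (W0 ^ 2 * N) : ℝ) ^ 4 * (MM P (W0 ^ 2 * N) : ℝ) ^ 4)) := by
  obtain ⟨Nn, hNn⟩ := Pool.Agent.Lib.RH.num P hP
  obtain ⟨B, hB⟩ : ∃ B : ℕ, B = 4 * (1000 + P.C1) := ⟨_, rfl⟩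
  have e1 := Pool.Agent.Lib.RH.ev_log_ge (2 * W0 * (4 ^ 4 * 2 ^ B) : ℝ)
  have e2 := Pool.Agent.Lib.RH.ev_log_ge (4 * W0 : ℝ)
  have e3 := Pool.Agent.Lib.RH.ev_log_ge (12 : ℝ)
  obtain ⟨Nb, hNb⟩ := (e1.and (e2.and e3)).exists_forall_of_atTop
  refine ⟨B + 1, max (max Nn Nb) (W0 ^ 2), ?_⟩
  intro N D hN hok σ hσ
  have hN1 : Nn ≤ N := (le_max_left _ _).trans ((le_max_left _ _).trans hN)
  have hN2 : Nb ≤ N := (le_max_right _ _).trans ((le_max_left _ _).trans hN)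
  have hN3 : W0 ^ 2 ≤ N := (le_max_right _ _).trans hN
  obtain ⟨f1, f2, f3⟩ := hNb N hN2
  have hW2 : 1 ≤ W0 ^ 2 := Nat.one_le_pow _ _ hW
  have hNpos : 0 < N := lt_of_lt_of_le (by omega) hN3
  have hNr : (0 : ℝ) < N := by exact_mod_cast hNpos
  obtain ⟨l1, l2⟩ := nu_log hW2 hN3
  have hnum := hNn _ (hN1.trans (Nat.le_mul_of_pos_left N hW2))
  have hR : (N : ℝ) ≤ ((W0 ^ 2 * N : ℕ) : ℝ) := by exact_mod_cast Nat.le_mul_of_pos_left N hW2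
  obtain ⟨R, hRe⟩ : ∃ R : ℕ, R = W0 ^ 2 * N := ⟨_, rfl⟩
  rw [← hRe] at l1 l2 hnum hR hok
  rw [← hRe]
  have hL1 : 1 ≤ Real.log R := by linarith
  have hJ0 : Real.log R ≤ JJ R := by
    refine le_trans ?_ hnum.J1
    exact le_self_pow₀ hL1 (by norm_num)
  have hm1 : 1 ≤ MM P R := Nat.one_le_two_pow
  have hmr : (1 : ℝ) ≤ MM P R := by exact_mod_cast hm1
  have hx := Pool.Agent.Lib.TCF.rho_pos hok.fx (by linarith)
  have hy := Pool.Agent.Lib.TCF.rho_pos hok.fy (by linarith)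
  have hJ0D : (1 : ℝ) ≤ D.J0 := by exact_mod_cast hok.j0
  have hJm := nu_Jm hnum
  have hK0 : 0 < Real.log N := by linarith
  have hW0r : (0 : ℝ) < W0 := by exact_mod_cast hW
  -- first part
  have hA : 2 * W0 * ((JJ R : ℝ) * MM P R) ^ 4 ≤ (Real.log N) ^ (B + 1) := by
    calc 2 * W0 * ((JJ R : ℝ) * MM P R) ^ 4 ≤ 2 * W0 * (4 * (Real.log R) ^ (1000 + P.C1)) ^ 4 := by
          refine mul_le_mul_of_nonneg_left ?_ (by positivity)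
          exact pow_le_pow_left₀ (by positivity) hJm 4
      _ = 2 * W0 * (4 ^ 4 * (Real.log R) ^ B) := by
          rw [mul_pow, ← pow_mul, hB, Nat.mul_comm (1000 + P.C1) 4]
      _ ≤ 2 * W0 * (4 ^ 4 * (2 * Real.log N) ^ B) := by
          refine mul_le_mul_of_nonneg_left ?_ (by positivity)
          refine mul_le_mul_of_nonneg_left ?_ (by positivity)
          exact pow_le_pow_left₀ (by linarith) l2 B
      _ = (2 * W0 * (4 ^ 4 * 2 ^ B)) * (Real.log N) ^ B := by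
          rw [mul_pow]
          ring
      _ ≤ Real.log N * (Real.log N) ^ B := mul_le_mul_of_nonneg_right f1 (by positivity)
      _ = (Real.log N) ^ (B + 1) := by
          rw [pow_succ]
          ring
  have hBn : 4 * (W0 : ℝ) ≤ (JJ R : ℝ) * MM P R := by
    have h1 : 4 * (W0 : ℝ) ≤ JJ R := by linarith
    have h2 : (0 : ℝ) ≤ JJ R := Nat.cast_nonneg _
    nlinarith
  obtain ⟨q, hq⟩ : ∃ q : ℝ, q = (JJ R : ℝ) * MM P R := ⟨_, rfl⟩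
  have hq0 : 0 < q := by
    rw [hq]
    have : 0 < (JJ R : ℝ) := by linarith
    positivity
  have g4 : (JJ R : ℝ) ^ 4 * (MM P R : ℝ) ^ 4 = q ^ 4 := by rw [hq, mul_pow]
  have g5 : (JJ R : ℝ) ^ 5 * (MM P R : ℝ) ^ 5 = q ^ 5 := by rw [hq, mul_pow]
  rw [← hq] at hA hBn
  rw [g4, g5]
  obtain ⟨ρ, hρ⟩ : ∃ ρ : ℝ, ρ = rho D.BX * rho D.BY := ⟨_, rfl⟩
  have hρ0 : 0 < ρ := by
    rw [hρ]
    positivity
  have g6 : σ * ((R : ℝ) * ((D.J1 * rho D.BX) * (D.J0 * rho D.BY)) / q ^ 4) =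
      (D.J1 : ℝ) * (σ * ρ * (R * D.J0) / q ^ 4) := by
    rw [hρ]
    ring
  rw [← hρ, g6]
  refine mul_le_mul_of_nonneg_left ?_ (Nat.cast_nonneg _)
  have t1 : (W0 : ℝ) * (σ * (ρ * N) / (Real.log N) ^ (B + 1)) ≤ σ * ρ * (R * D.J0) / q ^ 4 / 2 := by
    rw [div_div, mul_div_assoc', div_le_div_iff₀ (by positivity) (by positivity)]
    have h1 : (N : ℝ) ≤ R * D.J0 := by
      have : (0 : ℝ) ≤ R := Nat.cast_nonneg _
      nlinarith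
    calc (W0 : ℝ) * (σ * (ρ * N)) * (q ^ 4 * 2) = (2 * W0 * q ^ 4) * (σ * ρ * N) := by ring
      _ ≤ (Real.log N) ^ (B + 1) * (σ * ρ * N) := mul_le_mul_of_nonneg_right hA (by positivity)
      _ ≤ (Real.log N) ^ (B + 1) * (σ * ρ * (R * D.J0)) := by
          refine mul_le_mul_of_nonneg_left ?_ (by positivity)
          exact mul_le_mul_of_nonneg_left h1 (by positivity)
      _ = σ * ρ * (R * D.J0) * (Real.log N) ^ (B + 1) := by ring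
  have t2 : (W0 : ℝ) * (2 * (ρ * σ * (D.J0 * (R : ℝ)) / q ^ 5)) ≤ σ * ρ * (R * D.J0) / q ^ 4 / 2 := by
    rw [mul_div_assoc', mul_div_assoc', div_div, div_le_div_iff₀ (by positivity) (by positivity)]
    have h1 : 0 ≤ σ * ρ * (R * D.J0) * q ^ 4 := by
      have : (0 : ℝ) ≤ R := Nat.cast_nonneg _
      positivity
    calc (W0 : ℝ) * (2 * (ρ * σ * (D.J0 * (R : ℝ)))) * (q ^ 4 * 2) = (4 * W0) * (σ * ρ * (R * D.J0) * q ^ 4) := by ring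
      _ ≤ q * (σ * ρ * (R * D.J0) * q ^ 4) := mul_le_mul_of_nonneg_right hBn h1
      _ = σ * ρ * (R * D.J0) * q ^ 5 := by ring
  have t3 : (W0 : ℝ) * (σ * (ρ * N) / (Real.log N) ^ (B + 1) + 2 * (ρ * σ * (D.J0 * (R : ℝ)) / q ^ 5)) =
      (W0 : ℝ) * (σ * (ρ * N) / (Real.log N) ^ (B + 1)) + (W0 : ℝ) * (2 * (ρ * σ * (D.J0 * (R : ℝ)) / q ^ 5)) := by ring
  rw [t3]
  linarith

end Pool.Agent.Lib.T3D
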