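import Pool.Agent.Lib.MP_7b7e48_nt.T3D.Def
import Pool.Agent.Lib.MP_7b7e48_nt.BR.D04
import Pool.Agent.Lib.MP_7b7e48_nt.RG.NUM

/-!
# T3D / Bh3 (100 minutes): the hypotheses of the measures from Brg3

`R = W0^2 T.N`. `bh3`: copy of `bh` in `BR/D04.lean` (`weiW`, exponents; the new fields `yz`, `D0` from `Brg3.yz` and `0 < D'`, `0 < W0`; `dd`: a prime dividing `W0 ^ 2 D'` divides `W0` (`w0y`) or `D' ≤ J1 ≤ y0` (`Ok.y1`: `JJ^4 MM^4 J1 ≤ y0`)).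
`hx3`, `hy3`: `a = D' R`, `b = (D' + J0) R`, resp. `a = 0`, `b = J0 R`. `v` from `TM.ty`: `v ≤ R^(1 - κ/2)` (type 1, `len = R^(κ/4)`), or `v ≤ R^(2κ)` (type 2, `len = R^(9/10)`), `κ ≤ 1/1000` (`P.Ok`): see `D06_TM`, `D06_lab` in `BR/D06.lean`: `2 len N^δm v ≤ R ≤ J0 R` as `δm ≤ κ/32`. `v ≤ T.N` the same. `b ≤ ⌊R^(21/20)⌋ v`, `b ≤ T.N^2`:
`D' + J0 ≤ 2 J1 ≤ 2 y0 ≤ 2 K^Cp` and `R = W0^2 T.N`, large `N`. `big`: `exp(18 (k + 1)) J0 R ≤ JJ J0 R ≤ (J2 - J0) R ≤ D' R` because `J2 ≥ 8 JJ MM^2 J0` (`Ok.j02`, `MM ≥ 1`), `kexp`. Casts: `T.D * T.N = W0 ^ 2 * D' * T.N`, `D' * (W0 ^ 2 * T.N)`.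
-/

set_option autoImplicit false

open Finset

namespace Pool.Agent.Lib.T3D

open Pool.Agent.Lib.RG (Rough LV RC PZ)
open Pool.Agent.Lib.RH (Prm MM JJ Blk)
open Pool.Agent.Lib.TC (MS Msr)
open Pool.Agent.Lib.TCB (famX famY CR wD Wei dq BdS lenW dvW gW LW t2W)
open Pool.Agent.Lib.TCF (TUP rho TM Rgh1 wt AP QS QM sgm)
open Pool.Agent.Lib.MP_45349e_nt.LS (lam)

private theorem Bh3_ev (δ : ℝ) (hδ : 0 < δ) (T : ℝ) : ∀ᶠ N : ℕ in Filter.atTop, T ≤ (N : ℝ) ^ δ :=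
  ((tendsto_rpow_atTop hδ).comp (tendsto_natCast_atTop_atTop (R := ℝ))).eventually_ge_atTop T

/-- the sizes of `J0`, `J1`, `J2`, `y0` -/
private theorem Bh3_J {P : Prm} {S : MS} {T : TC.Dat} {W0 y1 : ℕ} {D : TCF.Dat} {Cp : ℕ} {δ0 δ1 δm δ2 ε e3 s u : ℝ}
    (hB : Brg3 P S T W0 y1 D Cp δ0 δ1 δm δ2 ε e3 s u) :
    0 < JJ (W0 ^ 2 * T.N) ∧ 0 < D.J0 ∧ 2 * (JJ (W0 ^ 2 * T.N) * D.J0) ≤ D.J2 ∧ D.J0 ≤ D.J1 ∧ D.J1 ≤ T.y0 ∧ 1 ≤ T.y0 := by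
  have h5 := hB.ok.y1
  have h6 := hB.ok.j0
  have h7 := hB.ok.j02
  have h8 := hB.ok.j21
  rw [hB.ey] at h5
  have hMM : 0 < MM P (W0 ^ 2 * T.N) := by
    unfold Pool.Agent.Lib.RH.MM
    positivity
  have hJJ : 0 < JJ (W0 ^ 2 * T.N) := by
    have h9 := hB.kexp
    have h10 : (0 : ℝ) < JJ (W0 ^ 2 * T.N) := lt_of_lt_of_le (Real.exp_pos _) h9
    exact_mod_cast h10
  obtain ⟨J, hJ⟩ : ∃ J, J = JJ (W0 ^ 2 * T.N) := ⟨_, rfl⟩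
  obtain ⟨M, hM⟩ : ∃ M, M = MM P (W0 ^ 2 * T.N) := ⟨_, rfl⟩
  rw [← hJ] at h5 h7 h8 hJJ ⊢
  rw [← hM] at h5 h7 hMM
  have hM2 : 1 ≤ M ^ 2 := Nat.one_le_pow _ _ hMM
  have hM4 : 1 ≤ M ^ 4 := Nat.one_le_pow _ _ hMM
  have hJ4 : 1 ≤ J ^ 4 := Nat.one_le_pow _ _ hJJ
  have e1 : 8 * (J * D.J0) ≤ D.J2 := by
    calc 8 * (J * D.J0) = 8 * J * 1 * D.J0 := by ring
      _ ≤ 8 * J * M ^ 2 * D.J0 := Nat.mul_le_mul_right _ (Nat.mul_le_mul_left _ hM2)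
      _ ≤ D.J2 := h7
  have e2 : D.J0 ≤ J * D.J0 := Nat.le_mul_of_pos_left _ hJJ
  have e3 : D.J2 ≤ J * D.J2 := Nat.le_mul_of_pos_left _ hJJ
  have e4 : D.J1 ≤ T.y0 := by
    calc D.J1 = 1 * 1 * D.J1 := by ring
      _ ≤ J ^ 4 * M ^ 4 * D.J1 := Nat.mul_le_mul_right _ (Nat.mul_le_mul hJ4 hM4)
      _ ≤ T.y0 := h5
  refine ⟨hJJ, h6, by omega, by omega, e4, by omega⟩

theorem bh3 (P : Prm) (hP : P.Ok) (W0 Cp : ℕ) {δ0 δ1 δm δ2 e3 : ℝ} (hE : Exps3 P.kap Cp δ0 δ1 δm δ2 e3) :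
    ∃ N0 : ℕ, ∀ (S : MS) (T : TC.Dat) (y1 : ℕ) (D : TCF.Dat) (ε s u : ℝ), N0 ≤ T.N →
    Brg3 P S T W0 y1 D Cp δ0 δ1 δm δ2 ε e3 s u →
    ∀ (v : ℕ) (o : Option (ℕ → ℝ)) (L : ℝ), TM P (W0 ^ 2 * T.N) v o L → ∀ D' : ℕ, 0 < D' → D' ≤ D.J1 →
    BH3 S (wD T (W0 ^ 2 * D')) W0 ⌊((W0 ^ 2 * T.N : ℕ) : ℝ) ^ ((21 : ℝ) / 20)⌋₊ δ0 δ1 δm (1 / 200) (dvW P.kap Cp o)
      (lenW P.kap (W0 ^ 2 * T.N) o) (t2W o) (wt T.y0 o) (LW T.y0 o L) (gW T.y0 o) := by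
  by_cases hW0 : Squarefree W0
  swap
  · exact ⟨0, fun S T y1 D ε s u _ hB => absurd hB.w0 hW0⟩
  have hW1 : 1 ≤ W0 := Nat.one_le_iff_ne_zero.2 hW0.ne_zero
  have hk0 := hP.kap0
  have hk1 := hP.kap1
  have hCr : (1 : ℝ) ≤ Cp := by exact_mod_cast hE.Cp1
  obtain ⟨N1, h1⟩ := Pool.Agent.Lib.TCB.weiW P hP W0 Cp hW0 hE.Cp1
  have hg1 : 0 < P.kap / 16 := by linarith
  have hg2 : 0 < 1 / (3000 * (Cp : ℝ)) := by positivity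
  obtain ⟨N2, h2⟩ := Filter.eventually_atTop.1 ((Bh3_ev _ hg1 4).and (Bh3_ev _ hg2 4))
  refine ⟨N1 + N2 + 2, fun S T y1 D ε s u hN hB v o L hT D' hD0 hD1 => ?_⟩
  obtain ⟨h3, h4⟩ := h2 T.N (by omega)
  have hW2 : 1 ≤ W0 ^ 2 := Nat.one_le_pow _ _ hW1
  have hNR : T.N ≤ W0 ^ 2 * T.N := Nat.le_mul_of_pos_left _ (by omega)
  have hN1 : (1 : ℝ) ≤ (T.N : ℝ) := by exact_mod_cast (by omega : 1 ≤ T.N)
  have hN0 : (0 : ℝ) < (T.N : ℝ) := by linarith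
  have hNR' : (T.N : ℝ) ≤ ((W0 ^ 2 * T.N : ℕ) : ℝ) := by exact_mod_cast hNR
  have hR1 : (1 : ℝ) ≤ ((W0 ^ 2 * T.N : ℕ) : ℝ) := hN1.trans hNR'
  have hR0 : (0 : ℝ) < ((W0 ^ 2 * T.N : ℕ) : ℝ) := by linarith
  obtain ⟨-, -, -, -, hJy, hy1⟩ := Bh3_J hB
  have hδv : δ1 + min (P.kap / 16) (1 / (3000 * (Cp : ℝ))) ≤ dvW P.kap Cp o := by
    unfold dvW
    cases o with
    | none =>
      simp only
      have := min_le_left (P.kap / 16) (1 / (3000 * (Cp : ℝ)))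
      linarith [hE.a3]
    | some c =>
      simp only
      have h5 := min_le_right (P.kap / 16) (1 / (3000 * (Cp : ℝ)))
      have h6 : 1 / (500 * (Cp : ℝ)) = 1 / (600 * (Cp : ℝ)) + 1 / (3000 * (Cp : ℝ)) := by
        field_simp
        norm_num
      linarith [hE.a2]
  have h4min : 4 ≤ (T.N : ℝ) ^ (min (P.kap / 16) (1 / (3000 * (Cp : ℝ)))) := by
    rcases min_cases (P.kap / 16) (1 / (3000 * (Cp : ℝ))) with ⟨h5, -⟩ | ⟨h5, -⟩ <;> rw [h5]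
    · exact h3
    · exact h4
  refine ⟨hB.sets, hW0, hB.w0y, by change 2 ≤ T.N; omega, hy1, hB.yz, hB.size, hB.zle, ?_, ?_, ?_, hE.e0.le, hE.em, hE.a1, ?_, ?_, hE.e1.le⟩
  · intro p hp h5
    change p ∣ W0 ^ 2 * D' at h5
    change p ≤ T.y0
    rcases hp.dvd_mul.1 h5 with h6 | h6
    · exact hB.w0y p hp (hp.dvd_of_dvd_pow h6)
    · exact (Nat.le_of_dvd hD0 h6).trans (hD1.trans hJy)
  · exact Nat.mul_pos (by omega) hD0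
  · exact h1 T.N (by omega) T.y0 hy1 hB.w0y hB.y0le v o L hT
  · change 4 * ((W0 ^ 2 * T.N : ℕ) : ℝ) ^ (-(dvW P.kap Cp o)) ≤ (T.N : ℝ) ^ (-δ1)
    have hdv0 : 0 ≤ dvW P.kap Cp o := by
      have := hE.e1
      have h6 : 0 ≤ min (P.kap / 16) (1 / (3000 * (Cp : ℝ))) := le_min hg1.le hg2.le
      linarith
    have h5 : ((W0 ^ 2 * T.N : ℕ) : ℝ) ^ (-(dvW P.kap Cp o)) ≤ (T.N : ℝ) ^ (-(dvW P.kap Cp o)) :=
      Real.rpow_le_rpow_of_nonpos hN0 hNR' (by linarith)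
    calc 4 * ((W0 ^ 2 * T.N : ℕ) : ℝ) ^ (-(dvW P.kap Cp o)) ≤
        (T.N : ℝ) ^ (min (P.kap / 16) (1 / (3000 * (Cp : ℝ)))) * (T.N : ℝ) ^ (-(dvW P.kap Cp o)) := by
          apply mul_le_mul h4min h5 (Real.rpow_nonneg hR0.le _) (Real.rpow_nonneg hN0.le _)
      _ = (T.N : ℝ) ^ (min (P.kap / 16) (1 / (3000 * (Cp : ℝ))) + -(dvW P.kap Cp o)) := (Real.rpow_add hN0 _ _).symm
      _ ≤ (T.N : ℝ) ^ (-δ1) := Real.rpow_le_rpow_of_exponent_le hN1 (by linarith)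
  · change 4 * (T.N : ℝ) ^ δ1 ≤ lenW P.kap (W0 ^ 2 * T.N) o
    have h5 : (T.N : ℝ) ^ (δ1 + P.kap / 16) ≤ lenW P.kap (W0 ^ 2 * T.N) o := by
      unfold lenW
      cases o with
      | none =>
        simp only
        exact (Real.rpow_le_rpow hN0.le hNR' (by linarith [hE.e1])).trans
          (Real.rpow_le_rpow_of_exponent_le hR1 (by linarith [hE.a3]))
      | some c =>
        simp only
        exact (Real.rpow_le_rpow hN0.le hNR' (by linarith [hE.e1])).trans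
          (Real.rpow_le_rpow_of_exponent_le hR1 (by linarith [hE.a3]))
    refine le_trans ?_ h5
    rw [Real.rpow_add hN0, mul_comm]
    exact mul_le_mul_of_nonneg_left h3 (Real.rpow_nonneg hN0.le _)

/-- the sizes of `v` -/
private theorem Bh3_TM {P : Prm} (hP : P.Ok) {R v N : ℕ} {o : Option (ℕ → ℝ)} {L δm : ℝ} (h : TM P R v o L)
    (hN : 1 ≤ N) (hNR : N ≤ R) (hm0 : 0 ≤ δm) (hm : δm ≤ P.kap / 32) (h2 : 2 ≤ (R : ℝ) ^ (P.kap / 25)) :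
    (v : ℝ) ≤ (R : ℝ) ^ (1 - P.kap / 2) ∧ 2 * lenW P.kap R o * (N : ℝ) ^ δm * v ≤ R := by
  have hk := hP.kap0
  have hk1 := hP.kap1
  have hR1 : (1 : ℝ) ≤ R := by exact_mod_cast hN.trans hNR
  have hR0 : (0 : ℝ) < R := by linarith
  have hN0 : (0 : ℝ) ≤ N := Nat.cast_nonneg _
  have h3 : (N : ℝ) ^ δm ≤ (R : ℝ) ^ (P.kap / 32) := by
    calc (N : ℝ) ^ δm ≤ (R : ℝ) ^ δm := Real.rpow_le_rpow hN0 (by exact_mod_cast hNR) hm0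
      _ ≤ (R : ℝ) ^ (P.kap / 32) := Real.rpow_le_rpow_of_exponent_le hR1 hm
  rcases h.ty with ⟨h4, h5, h6⟩ | ⟨c, h4, -, -, h5, h6⟩
  · subst h4
    refine ⟨h6, ?_⟩
    show 2 * (R : ℝ) ^ (P.kap / 4) * (N : ℝ) ^ δm * v ≤ R
    calc 2 * (R : ℝ) ^ (P.kap / 4) * (N : ℝ) ^ δm * v ≤
          (R : ℝ) ^ (P.kap / 25) * (R : ℝ) ^ (P.kap / 4) * (R : ℝ) ^ (P.kap / 32) * (R : ℝ) ^ (1 - P.kap / 2) := by
            gcongr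
      _ = (R : ℝ) ^ (P.kap / 25 + P.kap / 4 + P.kap / 32 + (1 - P.kap / 2)) := by
            rw [Real.rpow_add hR0, Real.rpow_add hR0, Real.rpow_add hR0]
      _ ≤ (R : ℝ) ^ (1 : ℝ) := Real.rpow_le_rpow_of_exponent_le hR1 (by linarith)
      _ = R := Real.rpow_one _
  · subst h4
    refine ⟨h6.trans (Real.rpow_le_rpow_of_exponent_le hR1 (by linarith)), ?_⟩
    show 2 * (R : ℝ) ^ ((9 : ℝ) / 10) * (N : ℝ) ^ δm * v ≤ R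
    calc 2 * (R : ℝ) ^ ((9 : ℝ) / 10) * (N : ℝ) ^ δm * v ≤
          (R : ℝ) ^ (P.kap / 25) * (R : ℝ) ^ ((9 : ℝ) / 10) * (R : ℝ) ^ (P.kap / 32) * (R : ℝ) ^ (2 * P.kap) := by
            gcongr
      _ = (R : ℝ) ^ (P.kap / 25 + (9 : ℝ) / 10 + P.kap / 32 + 2 * P.kap) := by
            rw [Real.rpow_add hR0, Real.rpow_add hR0, Real.rpow_add hR0]
      _ ≤ (R : ℝ) ^ (1 : ℝ) := Real.rpow_le_rpow_of_exponent_le hR1 (by linarith)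
      _ = R := Real.rpow_one _

/-- the common part of `hx3` and `hy3` -/
private theorem Bh3_com (P : Prm) (hP : P.Ok) (W0 Cp : ℕ) {δ0 δ1 δm δ2 e3 : ℝ} (hE : Exps3 P.kap Cp δ0 δ1 δm δ2 e3) :
    ∃ N0 : ℕ, ∀ (S : MS) (T : TC.Dat) (y1 : ℕ) (D : TCF.Dat) (ε s u : ℝ), N0 ≤ T.N →
    Brg3 P S T W0 y1 D Cp δ0 δ1 δm δ2 ε e3 s u →
    ∀ (v : ℕ) (o : Option (ℕ → ℝ)) (L : ℝ), TM P (W0 ^ 2 * T.N) v o L → ∀ D' : ℕ, D.J2 < D' + D.J0 → D' ≤ D.J1 →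
    (D' + D.J0) * (W0 ^ 2 * T.N) ≤ ⌊((W0 ^ 2 * T.N : ℕ) : ℝ) ^ ((21 : ℝ) / 20)⌋₊ * v ∧
    2 * lenW P.kap (W0 ^ 2 * T.N) o * (T.N : ℝ) ^ δm * v ≤ ((D.J0 * (W0 ^ 2 * T.N) : ℕ) : ℝ) ∧ v ≤ T.N ∧
    (D' + D.J0) * (W0 ^ 2 * T.N) ≤ T.N ^ 2 ∧
    Real.exp (18 * (S.k + 1)) * ((D.J0 * (W0 ^ 2 * T.N) : ℕ) : ℝ) ≤ ((D' * (W0 ^ 2 * T.N) : ℕ) : ℝ) := by
  have hk := hP.kap0
  have hk1 := hP.kap1
  obtain ⟨Ne, hNe⟩ := Filter.eventually_atTop.1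
    ((Bh3_ev (P.kap / 25) (by positivity) 2).and
    ((Bh3_ev (P.kap / 2) (by positivity) ((W0 : ℝ) ^ 2 + 1)).and
    ((Pool.Agent.Lib.RH.ev_log_pow Cp 1 one_pos (2 * (W0 : ℝ) ^ 2 + 1) (by positivity)).and
    (Bh3_ev (1 / 25) (by norm_num) 2))))
  refine ⟨max Ne 2, ?_⟩
  intro S T y1 D ε s u hN hB v o L hTM D' hD2 hD1
  have hNe' : Ne ≤ T.N := (le_max_left _ _).trans hN
  have hTN2 : 2 ≤ T.N := (le_max_right _ _).trans hN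
  have hW0 : 0 < W0 := Nat.pos_of_ne_zero hB.w0.ne_zero
  have hRN : T.N ≤ W0 ^ 2 * T.N := Nat.le_mul_of_pos_left _ (pow_pos hW0 2)
  obtain ⟨c1, c2, -, c4⟩ := hNe (W0 ^ 2 * T.N) (hNe'.trans hRN)
  obtain ⟨-, -, c3, -⟩ := hNe T.N hNe'
  have hRTN : ((W0 ^ 2 * T.N : ℕ) : ℝ) = (W0 : ℝ) ^ 2 * T.N := by push_cast; ring
  obtain ⟨j1, j2, j3, j4, j5, j6⟩ := Bh3_J hB
  have q2 : (T.y0 : ℝ) ≤ ((W0 ^ 2 * T.N : ℕ) : ℝ) ^ (P.kap / 1000) := by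
    have := hB.ok.y2
    rwa [hB.ey] at this
  have hkx := hB.kexp
  have hTN1 : 1 ≤ T.N := by omega
  obtain ⟨hvR, hlab⟩ := Bh3_TM hP hTM hTN1 hRN hE.em hE.a4 c1
  obtain ⟨R, hR⟩ : ∃ R, R = W0 ^ 2 * T.N := ⟨_, rfl⟩
  rw [← hR] at hRN c1 c2 c4 hRTN j1 j3 q2 hkx hvR hlab ⊢
  have hR1n : 1 ≤ R := hTN1.trans hRN
  have hN1 : (1 : ℝ) ≤ T.N := by exact_mod_cast hTN1
  have hN0 : (0 : ℝ) < T.N := by linarith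
  have hR1 : (1 : ℝ) ≤ R := by exact_mod_cast hR1n
  have hR0 : (0 : ℝ) < R := by linarith
  have hJ2y : D' + D.J0 ≤ 2 * T.y0 := by omega
  have hJ2y' : ((D' + D.J0 : ℕ) : ℝ) ≤ 2 * T.y0 := by exact_mod_cast hJ2y
  refine ⟨?_, ?_, ?_, ?_, ?_⟩
  · refine le_trans ?_ (Nat.le_mul_of_pos_right _ hTM.v1)
    refine Nat.le_floor ?_
    calc (((D' + D.J0) * R : ℕ) : ℝ) = ((D' + D.J0 : ℕ) : ℝ) * R := by push_cast; ring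
      _ ≤ (2 * T.y0) * R := mul_le_mul_of_nonneg_right hJ2y' hR0.le
      _ ≤ ((R : ℝ) ^ ((1 : ℝ) / 25) * (R : ℝ) ^ (P.kap / 1000)) * R := by
          refine mul_le_mul_of_nonneg_right ?_ hR0.le
          exact mul_le_mul c4 q2 (Nat.cast_nonneg _) (by positivity)
      _ = (R : ℝ) ^ ((1 : ℝ) / 25 + P.kap / 1000 + 1) := by
          rw [Real.rpow_add hR0, Real.rpow_add hR0, Real.rpow_one]
      _ ≤ (R : ℝ) ^ ((21 : ℝ) / 20) := Real.rpow_le_rpow_of_exponent_le hR1 (by linarith)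
  · refine hlab.trans ?_
    exact_mod_cast Nat.le_mul_of_pos_left _ j2
  · have h1 : (v : ℝ) * (W0 : ℝ) ^ 2 ≤ (W0 : ℝ) ^ 2 * T.N := by
      rw [← hRTN]
      calc (v : ℝ) * (W0 : ℝ) ^ 2 ≤ (R : ℝ) ^ (1 - P.kap / 2) * (R : ℝ) ^ (P.kap / 2) :=
            mul_le_mul hvR (by linarith) (by positivity) (by positivity)
        _ = R := by
            rw [← Real.rpow_add hR0]
            rw [show 1 - P.kap / 2 + P.kap / 2 = 1 by ring, Real.rpow_one]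
    have h2 : (0 : ℝ) < (W0 : ℝ) ^ 2 := by
      have : (0 : ℝ) < W0 := by exact_mod_cast hW0
      positivity
    have h3 : (v : ℝ) ≤ T.N := by
      rw [mul_comm] at h1
      exact le_of_mul_le_mul_left h1 h2
    exact_mod_cast h3
  · have h1 : (((D' + D.J0) * R : ℕ) : ℝ) ≤ (T.N : ℝ) ^ 2 := by
      have e4 : (0 : ℝ) ≤ (Real.log T.N) ^ Cp := pow_nonneg (Real.log_nonneg hN1) _
      calc (((D' + D.J0) * R : ℕ) : ℝ) = ((D' + D.J0 : ℕ) : ℝ) * R := by push_cast; ring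
        _ ≤ (2 * (Real.log T.N) ^ Cp) * ((W0 : ℝ) ^ 2 * T.N) := by
            rw [← hRTN]
            refine mul_le_mul_of_nonneg_right (hJ2y'.trans ?_) hR0.le
            exact mul_le_mul_of_nonneg_left hB.y0le (by norm_num)
        _ = (2 * (W0 : ℝ) ^ 2 * (Real.log T.N) ^ Cp) * T.N := by ring
        _ ≤ (T.N : ℝ) * T.N := by
            refine mul_le_mul_of_nonneg_right ?_ hN0.le
            rw [Real.rpow_one] at c3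
            linarith
        _ = (T.N : ℝ) ^ 2 := by ring
    exact_mod_cast h1
  · have e1 : JJ R * D.J0 ≤ D' := by
      have : D.J0 ≤ JJ R * D.J0 := Nat.le_mul_of_pos_left _ j1
      omega
    have e2 : (0 : ℝ) ≤ ((D.J0 * R : ℕ) : ℝ) := Nat.cast_nonneg _
    calc Real.exp (18 * (S.k + 1)) * ((D.J0 * R : ℕ) : ℝ) ≤ (JJ R : ℝ) * ((D.J0 * R : ℕ) : ℝ) :=
          mul_le_mul_of_nonneg_right hkx e2
      _ = ((JJ R * D.J0 * R : ℕ) : ℝ) := by push_cast; ring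
      _ ≤ ((D' * R : ℕ) : ℝ) := by exact_mod_cast Nat.mul_le_mul_right R e1

theorem hx3 (P : Prm) (hP : P.Ok) (W0 Cp : ℕ) {δ0 δ1 δm δ2 e3 : ℝ} (hE : Exps3 P.kap Cp δ0 δ1 δm δ2 e3) :
    ∃ N0 : ℕ, ∀ (S : MS) (T : TC.Dat) (y1 : ℕ) (D : TCF.Dat) (ε s u : ℝ), N0 ≤ T.N →
    Brg3 P S T W0 y1 D Cp δ0 δ1 δm δ2 ε e3 s u →
    ∀ (v : ℕ) (o : Option (ℕ → ℝ)) (L : ℝ), TM P (W0 ^ 2 * T.N) v o L → ∀ D' : ℕ, D.J2 < D' + D.J0 → D' ≤ D.J1 →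
    HX S (wD T (W0 ^ 2 * D')) W0 v (D' * (W0 ^ 2 * T.N)) ((D' + D.J0) * (W0 ^ 2 * T.N))
      ⌊((W0 ^ 2 * T.N : ℕ) : ℝ) ^ ((21 : ℝ) / 20)⌋₊ δm (lenW P.kap (W0 ^ 2 * T.N) o) := by
  obtain ⟨N0, h0⟩ := Bh3_com P hP W0 Cp hE
  refine ⟨N0, fun S T y1 D ε s u hN hB v o L hTM D' hD2 hD1 => ?_⟩
  obtain ⟨h1, h2, h3, h4, h5⟩ := h0 S T y1 D ε s u hN hB v o L hTM D' hD2 hD1
  have e1 : (((D' + D.J0) * (W0 ^ 2 * T.N) : ℕ) : ℝ) - ((D' * (W0 ^ 2 * T.N) : ℕ) : ℝ) = ((D.J0 * (W0 ^ 2 * T.N) : ℕ) : ℝ) := by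
    push_cast
    ring
  have e2 : ((W0 ^ 2 * D' : ℕ) : ℝ) * T.N = ((D' * (W0 ^ 2 * T.N) : ℕ) : ℝ) := by
    push_cast
    ring
  refine ⟨Nat.mul_le_mul_right _ (by omega), h1, ?_, hTM.v1, hTM.vc, h3, ?_, h4, ?_⟩
  · rw [e1]
    exact h2
  · show W0 ^ 2 * D' * T.N ≤ D' * (W0 ^ 2 * T.N)
    exact le_of_eq (by ring)
  · show Real.exp (18 * (S.k + 1)) * ((((D' + D.J0) * (W0 ^ 2 * T.N) : ℕ) : ℝ) - ((W0 ^ 2 * D' : ℕ) : ℝ) * T.N) ≤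
      ((W0 ^ 2 * D' : ℕ) : ℝ) * T.N
    rw [e2, e1]
    exact h5

theorem hy3 (P : Prm) (hP : P.Ok) (W0 Cp : ℕ) {δ0 δ1 δm δ2 e3 : ℝ} (hE : Exps3 P.kap Cp δ0 δ1 δm δ2 e3) :
    ∃ N0 : ℕ, ∀ (S : MS) (T : TC.Dat) (y1 : ℕ) (D : TCF.Dat) (ε s u : ℝ), N0 ≤ T.N →
    Brg3 P S T W0 y1 D Cp δ0 δ1 δm δ2 ε e3 s u →
    ∀ (v : ℕ) (o : Option (ℕ → ℝ)) (L : ℝ), TM P (W0 ^ 2 * T.N) v o L → ∀ D' : ℕ, D.J2 < D' + D.J0 → D' ≤ D.J1 →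
    HY S (wD T (W0 ^ 2 * D')) W0 v 0 (D.J0 * (W0 ^ 2 * T.N))
      ⌊((W0 ^ 2 * T.N : ℕ) : ℝ) ^ ((21 : ℝ) / 20)⌋₊ δm (lenW P.kap (W0 ^ 2 * T.N) o) := by
  obtain ⟨N0, h0⟩ := Bh3_com P hP W0 Cp hE
  refine ⟨N0, fun S T y1 D ε s u hN hB v o L hTM D' hD2 hD1 => ?_⟩
  obtain ⟨h1, h2, h3, h4, h5⟩ := h0 S T y1 D ε s u hN hB v o L hTM D' hD2 hD1
  have e2 : ((W0 ^ 2 * D' : ℕ) : ℝ) * T.N = ((D' * (W0 ^ 2 * T.N) : ℕ) : ℝ) := by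
    push_cast
    ring
  refine ⟨Nat.zero_le _, (Nat.mul_le_mul_right _ (by omega)).trans h1, ?_, hTM.v1, hTM.vc, h3, ?_, ?_⟩
  · rw [Nat.cast_zero, sub_zero]
    exact h2
  · show D.J0 * (W0 ^ 2 * T.N) + W0 ^ 2 * D' * T.N ≤ T.N ^ 2
    refine le_trans (le_of_eq ?_) h4
    ring
  · show Real.exp (18 * (S.k + 1)) * ((D.J0 * (W0 ^ 2 * T.N) : ℕ) : ℝ) ≤ ((W0 ^ 2 * D' : ℕ) : ℝ) * T.N
    rw [e2]
    exact h5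

end Pool.Agent.Lib.T3D
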