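import Pool.Agent.Lib.MP_7b7e48_nt.T3D.Set3

/-!
# T3D / Mas (75 minutes): masses of the measures

`n = number of all prime factors ≤ 3 (k + 1) + 2 n0 + nX + nY`, `8 n ≤ y0`. PROOF. For `p > y0`: `|p g p - 1| ≤ 2/p ≤ 2/y0`. `prX g μ = (1/prX id μ) ∏_{p ∣ prX} (p g p)` (`dq_prX3`, `dq`), and the product of at most `n` factors of `[1 - 2/y0, 1 + 2/y0]` is in `[1/2, 2]` (Bernoulli `one_add_mul_le_pow`: `(1 - 2/y0)^n ≥ 1 - 2n/y0 ≥ 3/4`;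
`(1 + 2/y0)^n ≤ exp(2n/y0) ≤ 2`). The same for `prY (dq g) ν = dq g (prY id ν)` with at most `2 (k + 1) + n0 + nY` prime factors (`Sets3.sy`). `mX_m1`: `m1 = (1/prX) prY (dq g) ν ≤ 2/(prX prY)` and `m1 > 0`, so `prX prY ≤ 2 m1⁻¹`. `mX_tot`: `tot = W (∑ 1/prX) (∑ prY (dq g) ν) ≤ 2 W rho rho` (`Fam3.rX`, `rY`, `inv_prX`; `hW : 0 ≤ W`).
-/

set_option autoImplicit false

open Finset

namespace Pool.Agent.Lib.T3D

open Pool.Agent.Lib.RG (Rough LV RC PZ)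
open Pool.Agent.Lib.RH (Prm MM JJ Blk)
open Pool.Agent.Lib.TC (MS Msr)
open Pool.Agent.Lib.TCB (famX famY CR wD Wei dq BdS lenW dvW gW LW t2W)
open Pool.Agent.Lib.TCF (TUP rho TM Rgh1 wt AP QS QM sgm)
open Pool.Agent.Lib.MP_45349e_nt.LS (lam)
open Pool.Agent.Lib.TCB (jX jX_mem prX_eq jY jY_mem prY_eq)

variable {S : MS} {T : TC.Dat} {D : TCF.Dat} {R y0 z v a b : ℕ} {t2 : Prop} {w : ℕ → ℝ} {L : ℝ} {g : ℕ → ℝ}

/-- product of numbers close to `1` -/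
private theorem Mas_prod {n y0 : ℕ} (f : Fin n → ℕ) (F : Fin n → ℝ) (hn : 8 * n ≤ y0) (h24 : 24 ≤ y0)
    (hf : ∀ c, (1 - 2 / (y0 : ℝ)) ^ 2 ≤ (f c : ℝ) * F c ∧ (f c : ℝ) * F c ≤ (1 + 2 / (y0 : ℝ)) ^ 2) :
    1 / 2 ≤ ((∏ c, f c : ℕ) : ℝ) * ∏ c, F c ∧ ((∏ c, f c : ℕ) : ℝ) * ∏ c, F c ≤ 2 := by
  have hy : (24 : ℝ) ≤ (y0 : ℝ) := by exact_mod_cast h24
  have hy0 : (0 : ℝ) < (y0 : ℝ) := by linarith
  have hn' : (8 : ℝ) * n ≤ (y0 : ℝ) := by exact_mod_cast hn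
  have ht : (2 : ℝ) / (y0 : ℝ) ≤ 1 := by rw [div_le_one hy0]; linarith
  have ht0 : (0 : ℝ) ≤ 2 / (y0 : ℝ) := by positivity
  have hnt : (2 * n : ℝ) * (2 / (y0 : ℝ)) ≤ 1 / 2 := by
    rw [mul_div_assoc', div_le_iff₀ hy0]
    linarith
  rw [Nat.cast_prod, ← prod_mul_distrib]
  constructor
  · calc (1 : ℝ) / 2 ≤ 1 + ((2 * n : ℕ) : ℝ) * (-(2 / (y0 : ℝ))) := by push_cast; linarith
      _ ≤ (1 + (-(2 / (y0 : ℝ)))) ^ (2 * n) := one_add_mul_le_pow (by linarith) _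
      _ = ∏ _c : Fin n, (1 - 2 / (y0 : ℝ)) ^ 2 := by
          rw [prod_const, card_univ, Fintype.card_fin, ← pow_mul, ← sub_eq_add_neg]
      _ ≤ ∏ c, (f c : ℝ) * F c := prod_le_prod (fun c _ => sq_nonneg _) fun c _ => (hf c).1
  · have h1 : ∏ c, (f c : ℝ) * F c ≤ ∏ _c : Fin n, (1 + 2 / (y0 : ℝ)) ^ 2 :=
      prod_le_prod (fun c _ => (sq_nonneg _).trans (hf c).1) fun c _ => (hf c).2
    rw [prod_const, card_univ, Fintype.card_fin, ← pow_mul] at h1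
    refine h1.trans ?_
    have h2 : (1 + 2 / (y0 : ℝ)) ^ (2 * n) ≤ Real.exp (1 / 2) := by
      calc (1 + 2 / (y0 : ℝ)) ^ (2 * n) ≤ (Real.exp (2 / (y0 : ℝ))) ^ (2 * n) := by
            refine pow_le_pow_left₀ (by positivity) ?_ _
            have := Real.add_one_le_exp (2 / (y0 : ℝ))
            linarith
        _ = Real.exp ((2 * n : ℝ) * (2 / (y0 : ℝ))) := by
            rw [← Real.exp_nat_mul]
            push_cast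
            rfl
        _ ≤ Real.exp (1 / 2) := Real.exp_le_exp.2 hnt
    refine h2.trans ?_
    have h3 : Real.exp (1 / 2) * Real.exp (1 / 2) = Real.exp 1 := by
      rw [← Real.exp_add]; norm_num
    have h4 := Real.exp_one_lt_d9
    have h5 : 0 < Real.exp (1 / 2) := Real.exp_pos _
    nlinarith

/-- one prime -/
private theorem Mas_one {g : ℕ → ℝ} (hg : ∀ p : ℕ, p.Prime → 0 ≤ g p ∧ |g p - 1 / p| ≤ 2 / (p : ℝ) ^ 2) {y0 p : ℕ}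
    (h24 : 24 ≤ y0) (hp : p.Prime) (hy : y0 < p) : 1 - 2 / (y0 : ℝ) ≤ (p : ℝ) * g p ∧ (p : ℝ) * g p ≤ 1 + 2 / (y0 : ℝ) := by
  have hy24 : (24 : ℝ) ≤ (y0 : ℝ) := by exact_mod_cast h24
  have hy0 : (0 : ℝ) < (y0 : ℝ) := by linarith
  have hp0 : (0 : ℝ) < (p : ℝ) := by exact_mod_cast hp.pos
  have hyp : (y0 : ℝ) ≤ (p : ℝ) := by exact_mod_cast hy.le
  have h1 := (hg p hp).2
  have h2 : (p : ℝ) * (2 / (p : ℝ) ^ 2) ≤ 2 / (y0 : ℝ) := by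
    have : (p : ℝ) * (2 / (p : ℝ) ^ 2) = 2 / (p : ℝ) := by field_simp
    rw [this]
    exact div_le_div_of_nonneg_left (by norm_num) hy0 hyp
  have h3 : (p : ℝ) * (g p - 1 / p) = (p : ℝ) * g p - 1 := by field_simp
  rw [abs_le] at h1
  have h4 := mul_le_mul_of_nonneg_left h1.1 hp0.le
  have h5 := mul_le_mul_of_nonneg_left h1.2 hp0.le
  rw [h3] at h4 h5
  constructor
  · linarith [mul_neg (p : ℝ) (2 / (p : ℝ) ^ 2)]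
  · linarith

private theorem Mas_sq {y0 : ℕ} (h24 : 24 ≤ y0) {x : ℝ} (h : 1 - 2 / (y0 : ℝ) ≤ x ∧ x ≤ 1 + 2 / (y0 : ℝ)) :
    (1 - 2 / (y0 : ℝ)) ^ 2 ≤ x ∧ x ≤ (1 + 2 / (y0 : ℝ)) ^ 2 := by
  have hy24 : (24 : ℝ) ≤ (y0 : ℝ) := by exact_mod_cast h24
  have hy0 : (0 : ℝ) < (y0 : ℝ) := by linarith
  have ht : (2 : ℝ) / (y0 : ℝ) ≤ 1 := by rw [div_le_one hy0]; linarith
  have ht0 : (0 : ℝ) ≤ 2 / (y0 : ℝ) := by positivity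
  constructor <;> nlinarith [h.1, h.2]

/-- at most two primes -/
private theorem Mas_two {g : ℕ → ℝ} (hg : ∀ p : ℕ, p.Prime → 0 ≤ g p ∧ |g p - 1 / p| ≤ 2 / (p : ℝ) ^ 2) {y0 l : ℕ}
    (h24 : 24 ≤ y0) (hl : 1 < l) (hc : l.primeFactors.card ≤ 2) (hy : ∀ p : ℕ, p.Prime → p ∣ l → y0 < p) :
    (1 - 2 / (y0 : ℝ)) ^ 2 ≤ (l : ℝ) * dq g l ∧ (l : ℝ) * dq g l ≤ (1 + 2 / (y0 : ℝ)) ^ 2 := by
  have hy24 : (24 : ℝ) ≤ (y0 : ℝ) := by exact_mod_cast h24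
  have hy0 : (0 : ℝ) < (y0 : ℝ) := by linarith
  have ht : (2 : ℝ) / (y0 : ℝ) ≤ 1 := by rw [div_le_one hy0]; linarith
  have ht0 : (0 : ℝ) ≤ 2 / (y0 : ℝ) := by positivity
  have hl0 : (0 : ℝ) < (l : ℝ) := by exact_mod_cast (by omega : 0 < l)
  have e1 : (l : ℝ) * dq g l = ∏ p ∈ l.primeFactors, (p : ℝ) * g p := by
    unfold TCB.dq
    rw [mul_div_assoc', mul_comm, mul_div_assoc, div_self hl0.ne', mul_one]
  rw [e1]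
  have h1 : ∀ p ∈ l.primeFactors, 1 - 2 / (y0 : ℝ) ≤ (p : ℝ) * g p ∧ (p : ℝ) * g p ≤ 1 + 2 / (y0 : ℝ) := fun p hp =>
    Mas_one hg h24 (Nat.prime_of_mem_primeFactors hp) (hy p (Nat.prime_of_mem_primeFactors hp) (Nat.dvd_of_mem_primeFactors hp))
  constructor
  · calc (1 - 2 / (y0 : ℝ)) ^ 2 ≤ (1 - 2 / (y0 : ℝ)) ^ l.primeFactors.card :=
          pow_le_pow_of_le_one (by linarith) (by linarith) hc
      _ = ∏ _p ∈ l.primeFactors, (1 - 2 / (y0 : ℝ)) := by rw [prod_const]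
      _ ≤ ∏ p ∈ l.primeFactors, (p : ℝ) * g p := prod_le_prod (fun p _ => by linarith) fun p hp => (h1 p hp).1
  · calc ∏ p ∈ l.primeFactors, (p : ℝ) * g p ≤ ∏ _p ∈ l.primeFactors, (1 + 2 / (y0 : ℝ)) :=
          prod_le_prod (fun p hp => le_trans (by linarith) (h1 p hp).1) fun p hp => (h1 p hp).2
      _ = (1 + 2 / (y0 : ℝ)) ^ l.primeFactors.card := by rw [prod_const]
      _ ≤ (1 + 2 / (y0 : ℝ)) ^ 2 := pow_le_pow_right₀ (by linarith) hc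

private theorem Mas_X (hs : Sets3 S R y0 z) (hn : 8 * (3 * (S.k + 1) + 2 * S.n0 + S.nX + S.nY) ≤ y0)
    (hg : ∀ p : ℕ, p.Prime → 0 ≤ g p ∧ |g p - 1 / p| ≤ 2 / (p : ℝ) ^ 2) {μ : S.TX} (hμ : μ ∈ S.MX) :
    1 / 2 ≤ ((S.prX id μ : ℕ) : ℝ) * S.prX g μ ∧ ((S.prX id μ : ℕ) : ℝ) * S.prX g μ ≤ 2 := by
  have h1 := Fintype.mem_piFinset.1 (jX_mem hμ)
  have h24 : 24 ≤ y0 := by omega
  rw [prX_eq, prX_eq]
  refine Mas_prod (jX S μ) (fun c => g (jX S μ c)) (by omega) h24 fun c => ?_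
  have h2 := hs.px c _ (h1 c)
  exact Mas_sq h24 (Mas_one hg h24 h2.1 h2.2.2)

private theorem Mas_Y (hs : Sets3 S R y0 z) (hn : 8 * (3 * (S.k + 1) + 2 * S.n0 + S.nX + S.nY) ≤ y0)
    (hg : ∀ p : ℕ, p.Prime → 0 ≤ g p ∧ |g p - 1 / p| ≤ 2 / (p : ℝ) ^ 2) {ν : S.TY} (hν : ν ∈ S.MY) :
    1 / 2 ≤ ((S.prY id ν : ℕ) : ℝ) * S.prY (dq g) ν ∧ ((S.prY id ν : ℕ) : ℝ) * S.prY (dq g) ν ≤ 2 := by
  have h1 := Fintype.mem_piFinset.1 (jY_mem hν)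
  have h24 : 24 ≤ y0 := by omega
  rw [prY_eq, prY_eq]
  refine Mas_prod (jY S ν) (fun c => dq g (jY S ν c)) (by omega) h24 fun c => ?_
  have h2 := hs.sy c _ (h1 c)
  exact Mas_two hg h24 h2.1 h2.2.2 fun p hp hd => (hs.py c _ (h1 c) p hp hd).2

private theorem Mas_pX (hs : Sets3 S R y0 z) {μ : S.TX} (hμ : μ ∈ S.MX) : (0 : ℝ) < ((S.prX id μ : ℕ) : ℝ) := by
  exact_mod_cast Nat.pos_of_ne_zero (hs.sqX hμ).ne_zero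

private theorem Mas_pY (hs : Sets3 S R y0 z) {ν : S.TY} (hν : ν ∈ S.MY) : (0 : ℝ) < ((S.prY id ν : ℕ) : ℝ) := by
  exact_mod_cast Nat.pos_of_ne_zero (hs.sqY hν).ne_zero

private theorem Mas_inv {a b : ℝ} (hb : 1 / 2 ≤ a * b) (h2 : a * b ≤ 2) (ha : 0 < a) : a ≤ 2 * b⁻¹ ∧ 0 ≤ b ∧ b ≤ 2 * (1 / a) := by
  have hb0 : 0 < b := by
    by_contra h
    have := mul_nonpos_of_nonneg_of_nonpos ha.le (not_lt.1 h)
    linarith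
  refine ⟨?_, hb0.le, ?_⟩
  · rw [← div_eq_mul_inv, le_div_iff₀ hb0]
    exact h2
  · rw [mul_one_div, le_div_iff₀ ha, mul_comm]
    exact h2

theorem mX_m1 (hs : Sets3 S R y0 z) (hn : 8 * (3 * (S.k + 1) + 2 * S.n0 + S.nX + S.nY) ≤ y0)
    (hg : ∀ p : ℕ, p.Prime → 0 ≤ g p ∧ |g p - 1 / p| ≤ 2 / (p : ℝ) ^ 2) {μ : S.TX} (hμ : μ ∈ S.MX) {ν : S.TY} (hν : ν ∈ S.MY) :
    ((S.prX id μ * S.prY id ν : ℕ) : ℝ) ≤ 2 * ((mX S T v a b t2 w L g).m1 μ ν)⁻¹ := by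
  have e1 : (mX S T v a b t2 w L g).m1 μ ν = 1 / ((S.prX id μ : ℕ) : ℝ) * S.prY (dq g) ν := by
    show S.prX (fun p : ℕ => 1 / (p : ℝ)) μ * S.prY (dq g) ν = _
    rw [inv_prX]
  have h1 := Mas_Y hs hn hg hν
  have hX := Mas_pX hs hμ
  have hY := Mas_pY hs hν
  have e2 : ((S.prX id μ * S.prY id ν : ℕ) : ℝ) * (1 / ((S.prX id μ : ℕ) : ℝ) * S.prY (dq g) ν) =
      ((S.prY id ν : ℕ) : ℝ) * S.prY (dq g) ν := by
    push_cast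
    field_simp
  rw [e1]
  refine (Mas_inv (by rw [e2]; exact h1.1) (by rw [e2]; exact h1.2) ?_).1
  push_cast
  exact mul_pos hX hY

theorem mY_m1 (hs : Sets3 S R y0 z) (hn : 8 * (3 * (S.k + 1) + 2 * S.n0 + S.nX + S.nY) ≤ y0)
    (hg : ∀ p : ℕ, p.Prime → 0 ≤ g p ∧ |g p - 1 / p| ≤ 2 / (p : ℝ) ^ 2) {μ : S.TX} (hμ : μ ∈ S.MX) {ν : S.TY} (hν : ν ∈ S.MY) :
    ((S.prX id μ * S.prY id ν : ℕ) : ℝ) ≤ 2 * ((mY S T v a b t2 w L g).m1 μ ν)⁻¹ := by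
  have e1 : (mY S T v a b t2 w L g).m1 μ ν = S.prX g μ * (1 / ((S.prY id ν : ℕ) : ℝ)) := by
    show S.prX g μ * S.prY (fun p : ℕ => 1 / (p : ℝ)) ν = _
    rw [inv_prY]
  have h1 := Mas_X hs hn hg hμ
  have hX := Mas_pX hs hμ
  have hY := Mas_pY hs hν
  have e2 : ((S.prX id μ * S.prY id ν : ℕ) : ℝ) * (S.prX g μ * (1 / ((S.prY id ν : ℕ) : ℝ))) =
      ((S.prX id μ : ℕ) : ℝ) * S.prX g μ := by
    push_cast
    field_simp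
  rw [e1]
  refine (Mas_inv (by rw [e2]; exact h1.1) (by rw [e2]; exact h1.2) ?_).1
  push_cast
  exact mul_pos hX hY

theorem mX_tot (hs : Sets3 S R y0 z) (hf : Fam3 S D) (hn : 8 * (3 * (S.k + 1) + 2 * S.n0 + S.nX + S.nY) ≤ y0)
    (hg : ∀ p : ℕ, p.Prime → 0 ≤ g p ∧ |g p - 1 / p| ≤ 2 / (p : ℝ) ^ 2) (hW : 0 ≤ (mX S T v a b t2 w L g).W) :
    (mX S T v a b t2 w L g).tot ≤ 2 * (mX S T v a b t2 w L g).W * (rho D.BX * rho D.BY) := by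
  have e1 : (mX S T v a b t2 w L g).tot = (mX S T v a b t2 w L g).W *
      ((∑ μ ∈ S.MX, 1 / ((S.prX id μ : ℕ) : ℝ)) * ∑ ν ∈ S.MY, S.prY (dq g) ν) := by
    show (mX S T v a b t2 w L g).W * ((∑ μ ∈ S.MX, S.prX (fun p : ℕ => 1 / (p : ℝ)) μ) * ∑ ν ∈ S.MY, S.prY (dq g) ν) = _
    rw [sum_congr rfl fun μ (_ : μ ∈ S.MX) => inv_prX S μ]
  have h1 : ∑ ν ∈ S.MY, S.prY (dq g) ν ≤ 2 * rho D.BY := by
    rw [hf.rY, mul_sum]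
    exact sum_le_sum fun ν hν => (Mas_inv (Mas_Y hs hn hg hν).1 (Mas_Y hs hn hg hν).2 (Mas_pY hs hν)).2.2
  have h2 : 0 ≤ rho D.BX := by
    rw [hf.rX]
    exact sum_nonneg fun μ _ => by positivity
  rw [e1, ← hf.rX]
  calc (mX S T v a b t2 w L g).W * (rho D.BX * ∑ ν ∈ S.MY, S.prY (dq g) ν)
      ≤ (mX S T v a b t2 w L g).W * (rho D.BX * (2 * rho D.BY)) :=
        mul_le_mul_of_nonneg_left (mul_le_mul_of_nonneg_left h1 h2) hW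
    _ = 2 * (mX S T v a b t2 w L g).W * (rho D.BX * rho D.BY) := by ring

theorem mY_tot (hs : Sets3 S R y0 z) (hf : Fam3 S D) (hn : 8 * (3 * (S.k + 1) + 2 * S.n0 + S.nX + S.nY) ≤ y0)
    (hg : ∀ p : ℕ, p.Prime → 0 ≤ g p ∧ |g p - 1 / p| ≤ 2 / (p : ℝ) ^ 2) (hW : 0 ≤ (mY S T v a b t2 w L g).W) :
    (mY S T v a b t2 w L g).tot ≤ 2 * (mY S T v a b t2 w L g).W * (rho D.BX * rho D.BY) := by
  have e1 : (mY S T v a b t2 w L g).tot = (mY S T v a b t2 w L g).W *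
      ((∑ μ ∈ S.MX, S.prX g μ) * ∑ ν ∈ S.MY, 1 / ((S.prY id ν : ℕ) : ℝ)) := by
    show (mY S T v a b t2 w L g).W * ((∑ μ ∈ S.MX, S.prX g μ) * ∑ ν ∈ S.MY, S.prY (fun p : ℕ => 1 / (p : ℝ)) ν) = _
    rw [sum_congr rfl fun ν (_ : ν ∈ S.MY) => inv_prY S ν]
  have h1 : ∑ μ ∈ S.MX, S.prX g μ ≤ 2 * rho D.BX := by
    rw [hf.rX, mul_sum]
    exact sum_le_sum fun μ hμ => (Mas_inv (Mas_X hs hn hg hμ).1 (Mas_X hs hn hg hμ).2 (Mas_pX hs hμ)).2.2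
  have h2 : 0 ≤ rho D.BY := by
    rw [hf.rY]
    exact sum_nonneg fun ν _ => by positivity
  rw [e1, ← hf.rY]
  calc (mY S T v a b t2 w L g).W * ((∑ μ ∈ S.MX, S.prX g μ) * rho D.BY)
      ≤ (mY S T v a b t2 w L g).W * (2 * rho D.BX * rho D.BY) :=
        mul_le_mul_of_nonneg_left (mul_le_mul_of_nonneg_right h1 h2) hW
    _ = 2 * (mY S T v a b t2 w L g).W * (rho D.BX * rho D.BY) := by ring

end Pool.Agent.Lib.T3D
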