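import Pool.Agent.Lib.MP_7b7e48_nt.T3D.Set3

/-!
# T3D / My (120 minutes): the measures of kind Y

Mirror of `BR/C04.lean` (`mM3_ok`): `m = v prY ν`, `Y = m n ∈ (a, b]`, `X = m n + D N`, the condition `prX μ ∣ m n + D N` is one class modulo `prX μ` (unit, as `D N` is coprime to `prX μ`: primes of `D` are `≤ y0`, primes of `prX μ` are `> y0` and do not divide `R`), if `prX μ` is coprime to `m`; if it is not then there is no such `n`
(a common prime `p` divides `D N`). `dq g (q prX μ) = gq q prX g μ` (`dq_prX3`, all `g p ≤ 1`), `prY (1/l) ν = 1/prY id ν` (`inv_prY`). The helper lemmas of `BR/C01.lean` (`two_class`, `lin_class`, `sq_class`, `dq_sq`, `dq_mul`, `dq_sqp`, `split_q`) do not mention the sets.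
Fields: `tau_cases`: second case; `X_dvd`: by definition of `Om`; `Y_dvd`: `X - D N = m n`; `Y_pos`: `m n > a ≥ 0`; `X_big`: `exp(..) (X - D N) = exp(..) m n ≤ exp(..) b ≤ D N ≤ X` (`HY.big`); `X_le`: `HY.b2`; `hX`: `g`; `hY = 1/l`: `hY_nonneg`, `hY_win` trivial (difference `0`); `eq2`: `τ = prY`: if `p ∣ prY ν` as the case `p ∣ prX μ` in `C04`, if `p ∣ prX μ` by `sq_class`.
-/

set_option autoImplicit false

open Finset

namespace Pool.Agent.Lib.T3D

open Pool.Agent.Lib.RG (Rough LV RC PZ)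
open Pool.Agent.Lib.RH (Prm MM JJ Blk)
open Pool.Agent.Lib.TC (MS Msr)
open Pool.Agent.Lib.TCB (famX famY CR wD Wei dq BdS lenW dvW gW LW t2W)
open Pool.Agent.Lib.TCF (TUP rho TM Rgh1 wt AP QS QM sgm)
open Pool.Agent.Lib.MP_45349e_nt.LS (lam)

variable {S : MS} {T : TC.Dat} {W0 B v a b : ℕ} {δ0 δ1 δm δw δv len : ℝ} {t2 : Prop} {w : ℕ → ℝ} {L : ℝ} {g : ℕ → ℝ}

open Pool.Agent.Lib.TCB (prX_eq jX jX_mem two_class lin_class sq_class dq_sq dq_mul dq_sqp split_q)

/-! ### basic facts -/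

private theorem My_posY (H : BH3 S T W0 B δ0 δ1 δm δw δv len t2 w L g) {ν : S.TY} (hν : ν ∈ S.MY) :
    0 < S.prY id ν := Nat.pos_of_ne_zero (H.sets.sqY hν).ne_zero

private theorem My_posX (H : BH3 S T W0 B δ0 δ1 δm δw δv len t2 w L g) {μ : S.TX} (hμ : μ ∈ S.MX) :
    0 < S.prX id μ := Nat.pos_of_ne_zero (H.sets.sqX hμ).ne_zero

private theorem My_copR (H : BH3 S T W0 B δ0 δ1 δm δw δv len t2 w L g) {μ : S.TX} (hμ : μ ∈ S.MX) :
    (S.prX id μ).Coprime (W0 ^ 2 * T.N) := by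
  apply Nat.coprime_of_dvd
  intro p hp h1 h2
  exact (H.sets.pX hμ hp h1).1 h2

private theorem My_g (H : BH3 S T W0 B δ0 δ1 δm δw δv len t2 w L g) {p : ℕ} (hp : p.Prime) :
    0 ≤ g p ∧ g p ≤ 1 := by
  obtain ⟨h1, h2⟩ := H.wei.g_nonneg p hp
  have h3 : (2 : ℝ) ≤ p := by exact_mod_cast hp.two_le
  refine ⟨h1, ?_⟩
  have h4 := (abs_le.1 h2).2
  have h5 : 1 / (p : ℝ) ≤ 1 / 2 := one_div_le_one_div_of_le (by norm_num) h3
  have h6 : 2 / (p : ℝ) ^ 2 ≤ 1 / 2 := by
    rw [div_le_div_iff₀ (by positivity) (by norm_num)]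
    nlinarith
  linarith

private theorem My_g2 (H : BH3 S T W0 B δ0 δ1 δm δw δv len t2 w L g) {p : ℕ} (hp : p.Prime) :
    g p ≤ 2 / p := by
  obtain ⟨h1, h2⟩ := H.wei.g_nonneg p hp
  have h3 : (2 : ℝ) ≤ p := by exact_mod_cast hp.two_le
  have h4 := (abs_le.1 h2).2
  have h6 : 2 / (p : ℝ) ^ 2 ≤ 1 / p := by
    rw [div_le_div_iff₀ (by positivity) (by positivity)]
    nlinarith
  have h7 : 2 / (p : ℝ) = 1 / p + 1 / p := by ring
  linarith

private theorem My_gX (H : BH3 S T W0 B δ0 δ1 δm δw δv len t2 w L g) {μ : S.TX} (hμ : μ ∈ S.MX) :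
    0 ≤ S.prX g μ ∧ S.prX g μ ≤ 1 := by
  rw [prX_eq]
  have h1 : ∀ c, (jX S μ c).Prime := fun c =>
    (H.sets.px c _ (Fintype.mem_piFinset.1 (jX_mem hμ) c)).1
  exact ⟨prod_nonneg fun c _ => (My_g H (h1 c)).1,
    prod_le_one (fun c _ => (My_g H (h1 c)).1) fun c _ => (My_g H (h1 c)).2⟩

private theorem My_gq (H : BH3 S T W0 B δ0 δ1 δm δw δv len t2 w L g) (q : ℕ) :
    0 ≤ ∏ p ∈ q.primeFactors, g p ∧ ∏ p ∈ q.primeFactors, g p ≤ 1 :=
  ⟨prod_nonneg fun _ hp => (My_g H (Nat.prime_of_mem_primeFactors hp)).1,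
    prod_le_one (fun _ hp => (My_g H (Nat.prime_of_mem_primeFactors hp)).1)
      fun _ hp => (My_g H (Nat.prime_of_mem_primeFactors hp)).2⟩

private theorem My_ms (H : BH3 S T W0 B δ0 δ1 δm δw δv len t2 w L g) (h : HY S T W0 v a b B δm len)
    {ν : S.TY} (hν : ν ∈ S.MY) (μ : S.TX) : (mY S T v a b t2 w L g).ms μ ν =
      L * (((b : ℝ) - a) / ((v * S.prY id ν : ℕ) : ℝ)) * S.prX g μ := by
  have h1 : S.prY (fun p : ℕ => 1 / (p : ℝ)) ν = 1 / ((S.prY id ν : ℕ) : ℝ) := inv_prY S ν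
  have h2 : (0 : ℝ) < (S.prY id ν : ℕ) := by exact_mod_cast My_posY H hν
  have h3 : (0 : ℝ) < v := by exact_mod_cast h.v0
  change L * ((b : ℝ) - a) / v * (S.prX g μ * S.prY (fun p : ℕ => 1 / (p : ℝ)) ν) = _
  rw [h1]
  push_cast
  field_simp

private theorem My_N1 (H : BH3 S T W0 B δ0 δ1 δm δw δv len t2 w L g) : (1 : ℝ) ≤ T.N := by
  have := H.N2
  have h1 : 1 ≤ T.N := by omega
  exact_mod_cast h1

private theorem My_pow (H : BH3 S T W0 B δ0 δ1 δm δw δv len t2 w L g) :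
    (T.N : ℝ) ^ δ0 * (T.N : ℝ) ^ δm ≤ ((W0 ^ 2 * T.N : ℕ) : ℝ) ^ δw := by
  have hN := My_N1 H
  have hN0 : (0 : ℝ) < T.N := by linarith
  have hR : (T.N : ℝ) ≤ ((W0 ^ 2 * T.N : ℕ) : ℝ) := by
    have : 0 < W0 := Nat.pos_of_ne_zero H.w0.ne_zero
    exact_mod_cast Nat.le_mul_of_pos_left _ (pow_pos this 2)
  have hw0 : 0 ≤ δw := by linarith [H.e0, H.em, H.e1]
  rw [← Real.rpow_add hN0]
  exact (Real.rpow_le_rpow_of_exponent_le hN H.e1).trans (Real.rpow_le_rpow hN0.le hR hw0)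

/-- the interval of the `n` -/
private theorem My_int (H : BH3 S T W0 B δ0 δ1 δm δw δv len t2 w L g) (h : HY S T W0 v a b B δm len)
    {ν : S.TY} (hν : ν ∈ S.MY) {μ : S.TX} (hμ : μ ∈ S.MX) :
    0 < v * S.prY id ν ∧ a / (v * S.prY id ν) ≤ b / (v * S.prY id ν) ∧ b / (v * S.prY id ν) ≤ B ∧
    len ≤ ((b / (v * S.prY id ν) : ℕ) : ℝ) - ((a / (v * S.prY id ν) : ℕ) : ℝ) ∧
    |(((b / (v * S.prY id ν) : ℕ) : ℝ) - ((a / (v * S.prY id ν) : ℕ) : ℝ)) -
      ((b : ℝ) - a) / ((v * S.prY id ν : ℕ) : ℝ)| ≤ 1 ∧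
    1 ≤ ((b : ℝ) - a) / ((v * S.prY id ν : ℕ) : ℝ) ∧
    ((b : ℝ) - a) / ((v * S.prY id ν : ℕ) : ℝ) ≤ ((b : ℝ) - a) / v := by
  have hN := My_N1 H
  have hY := My_posY H hν
  have hX := My_posX H hμ
  set m : ℕ := v * S.prY id ν with hm
  have hm0 : 0 < m := Nat.mul_pos h.v0 hY
  have hmr : (0 : ℝ) < m := by exact_mod_cast hm0
  have hvr : (0 : ℝ) < v := by exact_mod_cast h.v0
  have hab' : (a : ℝ) ≤ b := by exact_mod_cast h.ab
  have hlen : 4 ≤ len := by
    have : (1 : ℝ) ≤ (T.N : ℝ) ^ δ1 := Real.one_le_rpow hN H.e5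
    linarith [H.e4]
  have hYle : ((S.prY id ν : ℕ) : ℝ) ≤ (T.N : ℝ) ^ δm := by
    refine le_trans ?_ (H.size μ hμ ν hν)
    exact_mod_cast Nat.le_mul_of_pos_left _ hX
  have hvm : (v : ℝ) ≤ m := by exact_mod_cast Nat.le_mul_of_pos_right v hY
  have h1 : 2 * len ≤ ((b : ℝ) - a) / m := by
    rw [le_div_iff₀ hmr]
    refine le_trans ?_ h.lab
    have e1 : (m : ℝ) = v * ((S.prY id ν : ℕ) : ℝ) := by rw [hm]; push_cast; ring
    rw [e1]
    have := mul_le_mul_of_nonneg_left hYle (by positivity : (0 : ℝ) ≤ 2 * len * v)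
    linarith
  have fa1 : ((a / m : ℕ) : ℝ) ≤ (a : ℝ) / m := Nat.cast_div_le
  have fb1 : ((b / m : ℕ) : ℝ) ≤ (b : ℝ) / m := Nat.cast_div_le
  have fa2 : (a : ℝ) / m ≤ ((a / m : ℕ) : ℝ) + 1 := by
    rw [div_le_iff₀ hmr]
    have := (Nat.lt_mul_div_succ a hm0).le
    have h2 : (a : ℝ) ≤ ((m * (a / m + 1) : ℕ) : ℝ) := by exact_mod_cast this
    push_cast at h2
    push_cast
    linarith
  have fb2 : (b : ℝ) / m ≤ ((b / m : ℕ) : ℝ) + 1 := by
    rw [div_le_iff₀ hmr]
    have := (Nat.lt_mul_div_succ b hm0).le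
    have h2 : (b : ℝ) ≤ ((m * (b / m + 1) : ℕ) : ℝ) := by exact_mod_cast this
    push_cast at h2
    push_cast
    linarith
  have e2 : ((b : ℝ) - a) / m = (b : ℝ) / m - (a : ℝ) / m := sub_div _ _ _
  refine ⟨hm0, Nat.div_le_div_right h.ab, ?_, ?_, ?_, ?_, ?_⟩
  · refine le_trans (Nat.div_le_div_left (Nat.le_mul_of_pos_right v hY) h.v0) ?_
    exact Nat.div_le_of_le_mul (by rw [mul_comm]; exact h.bB)
  · linarith
  · rw [abs_le]
    constructor <;> linarith
  · linarith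
  · exact div_le_div_of_nonneg_left (by linarith) hvr hvm

/-- `L ≤ N ^ (-δ1) W / 8` -/
private theorem My_L (H : BH3 S T W0 B δ0 δ1 δm δw δv len t2 w L g) (h : HY S T W0 v a b B δm len) :
    8 * L ≤ (T.N : ℝ) ^ (-δ1) * (L * ((b : ℝ) - a) / v) := by
  have hN := My_N1 H
  have hN0 : (0 : ℝ) < T.N := by linarith
  have hvr : (0 : ℝ) < v := by exact_mod_cast h.v0
  have hL := H.wei.L_pos
  have h1 : 1 ≤ (T.N : ℝ) ^ δm := Real.one_le_rpow hN H.em
  have hp : 0 < (T.N : ℝ) ^ δ1 := Real.rpow_pos_of_pos hN0 _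
  have hlen : 0 < len := by linarith [H.e4]
  have h2 : 8 * (T.N : ℝ) ^ δ1 ≤ ((b : ℝ) - a) / v := by
    rw [le_div_iff₀ hvr]
    refine le_trans ?_ h.lab
    have h3 : 8 * (T.N : ℝ) ^ δ1 ≤ 2 * len * (T.N : ℝ) ^ δm := by
      calc 8 * (T.N : ℝ) ^ δ1 ≤ 2 * len := by linarith [H.e4]
        _ ≤ 2 * len * (T.N : ℝ) ^ δm := le_mul_of_one_le_right (by linarith) h1
    exact mul_le_mul_of_nonneg_right h3 hvr.le
  have h4 : 0 < (T.N : ℝ) ^ (-δ1) := Real.rpow_pos_of_pos hN0 _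
  have e1 : (T.N : ℝ) ^ (-δ1) * (T.N : ℝ) ^ δ1 = 1 := by
    rw [← Real.rpow_add hN0, neg_add_cancel, Real.rpow_zero]
  calc 8 * L = ((T.N : ℝ) ^ (-δ1) * L) * (8 * (T.N : ℝ) ^ δ1) := by
        rw [show ((T.N : ℝ) ^ (-δ1) * L) * (8 * (T.N : ℝ) ^ δ1) =
          8 * L * ((T.N : ℝ) ^ (-δ1) * (T.N : ℝ) ^ δ1) by ring, e1, mul_one]
    _ ≤ ((T.N : ℝ) ^ (-δ1) * L) * (((b : ℝ) - a) / v) :=
        mul_le_mul_of_nonneg_left h2 (by positivity)
    _ = _ := by ring

/-- sums over one class -/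
private theorem My_eval (H : BH3 S T W0 B δ0 δ1 δm δw δv len t2 w L g) (h : HY S T W0 v a b B δm len)
    {ν : S.TY} (hν : ν ∈ S.MY) {μ : S.TX} (hμ : μ ∈ S.MX) {Q qW q2 r : ℕ} (hQ : Q = qW * q2)
    (hqW : qW ∣ W0) (hq2 : 0 < q2) (hc : q2.Coprime (W0 ^ 2 * T.N))
    (hs : (Q : ℝ) ≤ (T.N : ℝ) ^ δ0 * (T.N : ℝ) ^ δm) (hr : t2 → r.Coprime Q)
    (hd0 : 0 ≤ dq g Q) (hd1 : dq g Q ≤ 1) :
    |∑ n ∈ (Ioc (a / (v * S.prY id ν)) (b / (v * S.prY id ν))).filter (fun n => n ≡ r [MOD Q]), w n -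
      L * (((b : ℝ) - a) / ((v * S.prY id ν : ℕ) : ℝ)) * dq g Q| ≤
      3 / 4 * ((T.N : ℝ) ^ (-δ1) * (L * ((b : ℝ) - a) / v)) := by
  obtain ⟨hm0, i1, i2, i3, i4, i5, i6⟩ := My_int H h hν hμ
  set m : ℕ := v * S.prY id ν with hm
  have hL := H.wei.L_pos
  have hbase := H.wei.eq (a / m) (b / m) i1 i2 i3 qW q2 r hqW hq2 hc (by
    rw [← hQ]; exact hs.trans (My_pow H)) (by rw [← hQ]; exact hr)
  rw [← hQ] at hbase
  set Sm : ℝ := ∑ n ∈ (Ioc (a / m) (b / m)).filter (fun n => n ≡ r [MOD Q]), w n with hSm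
  set ℓ : ℝ := ((b / m : ℕ) : ℝ) - ((a / m : ℕ) : ℝ) with hℓ
  set lam : ℝ := ((b : ℝ) - a) / (m : ℝ) with hlam
  set W : ℝ := L * ((b : ℝ) - a) / v with hW
  have hN := My_N1 H
  have hN0 : (0 : ℝ) < T.N := by linarith
  have h8 := My_L H h
  rw [← hW] at h8
  have hLW : L * lam ≤ W := by
    rw [hW, mul_div_assoc]
    exact mul_le_mul_of_nonneg_left i6 hL.le
  have hℓ2 : ℓ ≤ 2 * lam := by
    have := (abs_le.1 i4).2
    linarith
  have hLℓ : L * ℓ ≤ 2 * W := by
    have := mul_le_mul_of_nonneg_left hℓ2 hL.le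
    linarith
  have hLℓ0 : 0 ≤ L * ℓ := by
    apply mul_nonneg hL.le
    have := (abs_le.1 i4).1
    linarith
  have hR := H.e3
  set ρ : ℝ := ((W0 ^ 2 * T.N : ℕ) : ℝ) ^ (-δv) with hρ
  have hρ0 : 0 ≤ ρ := Real.rpow_nonneg (Nat.cast_nonneg _) _
  have hW0 : 0 ≤ W := by linarith
  have e1 : ρ * (L * ℓ) ≤ 1 / 2 * ((T.N : ℝ) ^ (-δ1) * W) := by
    calc ρ * (L * ℓ) ≤ ρ * (2 * W) := mul_le_mul_of_nonneg_left hLℓ hρ0
      _ = (4 * ρ) * (W / 2) := by ring
      _ ≤ (T.N : ℝ) ^ (-δ1) * (W / 2) := mul_le_mul_of_nonneg_right hR (by linarith)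
      _ = _ := by ring
  have e2 : |L * ℓ * dq g Q - L * lam * dq g Q| ≤ L := by
    have : L * ℓ * dq g Q - L * lam * dq g Q = L * (ℓ - lam) * dq g Q := by ring
    rw [this, abs_mul, abs_mul, abs_of_pos hL, abs_of_nonneg hd0]
    calc L * |ℓ - lam| * dq g Q ≤ L * 1 * 1 :=
          mul_le_mul (mul_le_mul_of_nonneg_left i4 hL.le) hd1 hd0 (by linarith)
      _ = L := by ring
  have a1 := abs_le.1 hbase
  have a2 := abs_le.1 e2
  rw [abs_le]
  constructor <;> linarith [a1.1, a1.2, a2.1, a2.2]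

/-- sums over the multiples of `p` in one class -/
private theorem My_eval0 (H : BH3 S T W0 B δ0 δ1 δm δw δv len t2 w L g) (h : HY S T W0 v a b B δm len)
    (ht : t2) {ν : S.TY} (hν : ν ∈ S.MY) {μ : S.TX} (hμ : μ ∈ S.MX) {Q qW q2 r p : ℕ}
    (hQ : Q = qW * q2) (hqW : qW ∣ W0) (hq2 : 0 < q2) (hc : q2.Coprime (W0 ^ 2 * T.N))
    (hs : (Q : ℝ) ≤ (T.N : ℝ) ^ δ0 * (T.N : ℝ) ^ δm) (hr : r.Coprime Q) (hp : p.Prime)
    (hpy : T.y0 < p) (hpq : ¬ p ∣ q2) (hd0 : 0 ≤ dq g Q) (hd1 : dq g Q ≤ 1) :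
    ∑ n ∈ (Ioc (a / (v * S.prY id ν)) (b / (v * S.prY id ν))).filter
      (fun n => n ≡ r [MOD Q] ∧ p ∣ n), w n ≤
      4 / p * (L * (((b : ℝ) - a) / ((v * S.prY id ν : ℕ) : ℝ)) * dq g Q) +
      (T.N : ℝ) ^ (-δ1) * (L * ((b : ℝ) - a) / v) := by
  obtain ⟨hm0, i1, i2, i3, i4, i5, i6⟩ := My_int H h hν hμ
  set m : ℕ := v * S.prY id ν with hm
  have hL := H.wei.L_pos
  have hbase := H.wei.eq0 ht (a / m) (b / m) i1 i2 i3 qW q2 r p hqW hq2 hc (by
    rw [← hQ]; exact hs.trans (My_pow H)) (by rw [← hQ]; exact hr) hp hpy hpq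
  rw [← hQ] at hbase
  set Sm : ℝ := ∑ n ∈ (Ioc (a / m) (b / m)).filter (fun n => n ≡ r [MOD Q] ∧ p ∣ n), w n with hSm
  set ℓ : ℝ := ((b / m : ℕ) : ℝ) - ((a / m : ℕ) : ℝ) with hℓ
  set lam : ℝ := ((b : ℝ) - a) / (m : ℝ) with hlam
  set W : ℝ := L * ((b : ℝ) - a) / v with hW
  have h8 := My_L H h
  rw [← hW] at h8
  have hLW : L * lam ≤ W := by
    rw [hW, mul_div_assoc]
    exact mul_le_mul_of_nonneg_left i6 hL.le
  have hℓ1 : ℓ ≤ lam + 1 := by
    have := (abs_le.1 i4).2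
    linarith
  have hLℓ : L * ℓ ≤ 2 * W := by
    have := mul_le_mul_of_nonneg_left (show ℓ ≤ 2 * lam by linarith) hL.le
    linarith
  have hR := H.e3
  set ρ : ℝ := ((W0 ^ 2 * T.N : ℕ) : ℝ) ^ (-δv) with hρ
  have hρ0 : 0 ≤ ρ := Real.rpow_nonneg (Nat.cast_nonneg _) _
  have hlam0 : 0 ≤ L * lam := mul_nonneg hL.le (by linarith)
  have hW0 : 0 ≤ W := by linarith
  have e1 : ρ * (L * ℓ) ≤ 1 / 2 * ((T.N : ℝ) ^ (-δ1) * W) := by
    calc ρ * (L * ℓ) ≤ ρ * (2 * W) := mul_le_mul_of_nonneg_left hLℓ hρ0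
      _ = (4 * ρ) * (W / 2) := by ring
      _ ≤ (T.N : ℝ) ^ (-δ1) * (W / 2) := mul_le_mul_of_nonneg_right hR (by linarith)
      _ = _ := by ring
  have hp2 : (2 : ℝ) ≤ p := by exact_mod_cast hp.two_le
  have hp4 : 4 / (p : ℝ) ≤ 2 := by
    rw [div_le_iff₀ (by linarith)]
    linarith
  have hp40 : 0 ≤ 4 / (p : ℝ) := by positivity
  have e2 : 4 / (p : ℝ) * (L * ℓ * dq g Q) ≤ 4 / p * (L * lam * dq g Q) + 2 * L := by
    have h1 : L * ℓ * dq g Q ≤ L * lam * dq g Q + L := by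
      have h2 : L * ℓ ≤ L * lam + L := by
        have := mul_le_mul_of_nonneg_left hℓ1 hL.le
        linarith
      have h3 := mul_le_mul_of_nonneg_right h2 hd0
      have h4 := mul_le_mul_of_nonneg_left hd1 hL.le
      linarith
    have h5 := mul_le_mul_of_nonneg_left h1 hp40
    have h6 := mul_le_mul_of_nonneg_right hp4 hL.le
    linarith
  have hLN : 0 ≤ (T.N : ℝ) ^ (-δ1) * W := by linarith
  linarith

/-! ### the classes -/

private theorem My_none (H : BH3 S T W0 B δ0 δ1 δm δw δv len t2 w L g) {ν : S.TY}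
    {μ : S.TX} (hμ : μ ∈ S.MX) (hc : ¬ (S.prX id μ).Coprime (v * S.prY id ν)) {n : ℕ}
    (h2 : S.prX id μ ∣ v * S.prY id ν * n + T.D * T.N) : False := by
  obtain ⟨p, hp, h3, h4⟩ := Nat.Prime.not_coprime_iff_dvd.1 hc
  obtain ⟨h5, h6⟩ := H.sets.pX hμ hp h3
  have h7 : p ∣ v * S.prY id ν * n := h4.mul_right n
  have h8 : p ∣ v * S.prY id ν * n + T.D * T.N := h3.trans h2
  have h10 : p ∣ T.D * T.N := (Nat.dvd_add_right h7).1 h8
  rcases (Nat.Prime.dvd_mul hp).1 h10 with h11 | h11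
  · have := H.dd p hp h11
    omega
  · exact h5 (h11.mul_left _)

/-- the condition `prX μ ∣ X` is one class of units -/
private theorem My_class (H : BH3 S T W0 B δ0 δ1 δm δw δv len t2 w L g)
    {ν : S.TY} {μ : S.TX} (hμ : μ ∈ S.MX)
    (hc : (S.prX id μ).Coprime (v * S.prY id ν)) : ∃ r' : ℕ, r'.Coprime (S.prX id μ) ∧
      ∀ n : ℕ, (S.prX id μ ∣ v * S.prY id ν * n + T.D * T.N ↔
        n ≡ r' [MOD S.prX id μ]) := by
  obtain ⟨r, h1, h2⟩ := lin_class (v * S.prY id ν) (S.prX id μ) 1 ((T.D * T.N : ℕ) : ℤ) 0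
    (My_posX H hμ) one_pos (Nat.coprime_one_right _) hc.symm (Nat.coprime_one_right _)
  refine ⟨r, ?_, ?_⟩
  · have h3 := h2 (by
      rw [Int.natAbs_natCast]
      apply Nat.Coprime.symm
      apply Nat.coprime_of_dvd
      intro p hp h3 h4
      obtain ⟨h5, h6⟩ := H.sets.pX hμ hp h3
      rcases (Nat.Prime.dvd_mul hp).1 h4 with h11 | h11
      · have := H.dd p hp h11
        omega
      · exact h5 (h11.mul_left _)) (Nat.coprime_one_right _)
    rwa [mul_one] at h3
  · intro n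
    have h3 := h1 n
    rw [mul_one] at h3
    rw [← h3]
    have e1 : ((v * S.prY id ν : ℕ) : ℤ) * (n : ℤ) + ((T.D * T.N : ℕ) : ℤ) =
        ((v * S.prY id ν * n + T.D * T.N : ℕ) : ℤ) := by
      push_cast
      ring
    rw [e1, Int.natCast_dvd_natCast]
    exact ⟨fun h4 => ⟨h4, by simp⟩, fun h4 => h4.1⟩

/-- the sums as sums over the interval -/
private theorem My_sum (h : HY S T W0 v a b B δm len) {ν : S.TY} (hY : 0 < S.prY id ν) (μ : S.TX)
    (Q : ℕ → Prop) [DecidablePred Q] (Q' : ℕ → Prop) [DecidablePred Q']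
    (hQ : ∀ n : ℕ, a < v * S.prY id ν * n →
      ((Q n ∧ S.prX id μ ∣ v * S.prY id ν * n + T.D * T.N) ↔ Q' n)) :
    ∑ n ∈ (range (b + 1)).filter Q, (mY S T v a b t2 w L g).Om μ ν n =
      ∑ n ∈ (Ioc (a / (v * S.prY id ν)) (b / (v * S.prY id ν))).filter Q', w n := by
  classical
  set m : ℕ := v * S.prY id ν with hm
  have hm0 : 0 < m := Nat.mul_pos h.v0 hY
  have h1 : ∀ n, (mY S T v a b t2 w L g).Om μ ν n =
      if a < m * n ∧ m * n ≤ b ∧ S.prX id μ ∣ m * n + T.D * T.N then w n else 0 := by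
    intro n
    rfl
  simp only [h1]
  rw [← sum_filter, filter_filter]
  refine sum_congr ?_ fun _ _ => rfl
  ext n
  simp only [mem_filter, mem_range, mem_Ioc]
  rw [Nat.div_lt_iff_lt_mul hm0, Nat.le_div_iff_mul_le hm0, mul_comm n m]
  constructor
  · rintro ⟨-, h2, h3, h4, h5⟩
    exact ⟨⟨h3, h4⟩, (hQ n h3).1 ⟨h2, h5⟩⟩
  · rintro ⟨⟨h3, h4⟩, h5⟩
    obtain ⟨h6, h7⟩ := (hQ n h3).2 h5
    refine ⟨?_, h6, h3, h4, h7⟩
    have : n ≤ m * n := Nat.le_mul_of_pos_left n hm0
    omega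

private theorem My_cl (H : BH3 S T W0 B δ0 δ1 δm δw δv len t2 w L g) (h : HY S T W0 v a b B δm len) {ν : S.TY} (hν : ν ∈ S.MY)
    {μ : S.TX} (hμ : μ ∈ S.MX) (hc : (S.prX id μ).Coprime (v * S.prY id ν)) (q : ℕ) (hq : Squarefree q)
    (hq1 : (q : ℝ) ≤ (T.N : ℝ) ^ δ0) (hq2 : q.Coprime (S.prX id μ)) (hq3 : ∀ p : ℕ, p.Prime → p ∣ q → p ∣ W0 ∨ ¬ p ∣ T.N)
    (r : ℕ) (hr : t2 → r.Coprime q) :
    |(mY S T v a b t2 w L g).cl μ ν q r - (mY S T v a b t2 w L g).ms μ ν * (mY S T v a b t2 w L g).gq q| ≤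
      (T.N : ℝ) ^ (-δ1) * (mY S T v a b t2 w L g).W := by
  have hX := My_posX H hμ
  have hY := My_posY H hν
  have hq0 : 0 < q := Nat.pos_of_ne_zero hq.ne_zero
  obtain ⟨r', hr', hcl⟩ := My_class H hμ hc
  obtain ⟨s, hs1, hs2⟩ := two_class q (S.prX id μ) r r' hq0 hX hq2
  obtain ⟨qW, q2, e1, hqW, hq20, hqR, hqq⟩ := split_q q W0 T.N hq hq3
  have hdq : dq g (q * S.prX id μ) = (∏ p ∈ q.primeFactors, g p) * S.prX g μ := by
    rw [dq_mul g q _ hq (H.sets.sqX hμ) hq2, dq_sq g q hq, dq_prX3 H.sets hμ g]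
  have hgq := My_gq H q
  have hgX := My_gX H hμ
  have hXle : ((S.prX id μ : ℕ) : ℝ) ≤ (T.N : ℝ) ^ δm := by
    refine le_trans ?_ (H.size μ hμ ν hν)
    exact_mod_cast Nat.le_mul_of_pos_right _ hY
  have hev := My_eval H h hν hμ (Q := q * S.prX id μ) (qW := qW) (q2 := q2 * S.prX id μ) (r := s)
    (by rw [e1]; ring) hqW (Nat.mul_pos hq20 hX) (Nat.Coprime.mul_left hqR (My_copR H hμ))
    (by
      push_cast
      exact mul_le_mul hq1 hXle (Nat.cast_nonneg _) (Real.rpow_nonneg (Nat.cast_nonneg _) _))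
    (fun ht => hs2 (hr ht) hr')
    (by rw [hdq]; exact mul_nonneg hgq.1 hgX.1) (by rw [hdq]; exact mul_le_one₀ hgq.2 hgX.1 hgX.2)
  have hsum : (mY S T v a b t2 w L g).cl μ ν q r =
      ∑ n ∈ (Ioc (a / (v * S.prY id ν)) (b / (v * S.prY id ν))).filter
        (fun n => n ≡ s [MOD q * S.prX id μ]), w n := by
    refine My_sum h hY μ (fun n => n ≡ r [MOD q]) (fun n => n ≡ s [MOD q * S.prX id μ]) ?_
    intro n hn
    rw [hcl n]
    exact hs1 n
  rw [hsum, My_ms H h hν μ]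
  have e2 : L * (((b : ℝ) - a) / ((v * S.prY id ν : ℕ) : ℝ)) * S.prX g μ * (mY S T v a b t2 w L g).gq q =
      L * (((b : ℝ) - a) / ((v * S.prY id ν : ℕ) : ℝ)) * dq g (q * S.prX id μ) := by
    rw [hdq]
    change L * (((b : ℝ) - a) / ((v * S.prY id ν : ℕ) : ℝ)) * S.prX g μ * (∏ p ∈ q.primeFactors, g p) = _
    ring
  rw [e2]
  refine hev.trans ?_
  change 3 / 4 * ((T.N : ℝ) ^ (-δ1) * (L * ((b : ℝ) - a) / v)) ≤ (T.N : ℝ) ^ (-δ1) * (L * ((b : ℝ) - a) / v)
  have h8 := My_L H h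
  have hL := H.wei.L_pos
  linarith

private theorem My_PL {p : ℕ} (hp : p ∈ T.PL) : p.Prime ∧ T.y0 < p ∧ p ≤ T.z := by
  unfold TC.Dat.PL at hp
  have h := mem_filter.1 hp
  have := mem_range.1 h.1
  exact ⟨h.2.1, h.2.2, by omega⟩

/-- the bound for the multiples of `p` and one class -/
private theorem My_zero (H : BH3 S T W0 B δ0 δ1 δm δw δv len t2 w L g) (h : HY S T W0 v a b B δm len)
    (ht : t2) {ν : S.TY} (hν : ν ∈ S.MY) {μ : S.TX} (hμ : μ ∈ S.MX)
    (hc : (S.prX id μ).Coprime (v * S.prY id ν)) (q : ℕ) (hq : Squarefree q)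
    (hq1 : (q : ℝ) ≤ (T.N : ℝ) ^ δ0) (hq2 : q.Coprime (S.prX id μ))
    (hq3 : ∀ p : ℕ, p.Prime → p ∣ q → p ∣ W0 ∨ ¬ p ∣ T.N) (r : ℕ) (hr : r.Coprime q) {p : ℕ}
    (hp : p.Prime) (hpy : T.y0 < p) (hpq : ¬ p ∣ q * S.prX id μ) (Q : ℕ → Prop) [DecidablePred Q]
    (hQ : ∀ n : ℕ, Q n ↔ n ≡ r [MOD q] ∧ p ∣ n) :
    ∑ n ∈ (range (b + 1)).filter Q, (mY S T v a b t2 w L g).Om μ ν n ≤
      4 / p * (mY S T v a b t2 w L g).ms μ ν * (mY S T v a b t2 w L g).gq q +
        (T.N : ℝ) ^ (-δ1) * (mY S T v a b t2 w L g).W := by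
  have hX := My_posX H hμ
  have hY := My_posY H hν
  have hq0 : 0 < q := Nat.pos_of_ne_zero hq.ne_zero
  obtain ⟨r', hr', hcl⟩ := My_class H hμ hc
  obtain ⟨s, hs1, hs2⟩ := two_class q (S.prX id μ) r r' hq0 hX hq2
  obtain ⟨qW, q2, e1, hqW, hq20, hqR, hqq⟩ := split_q q W0 T.N hq hq3
  have hdq : dq g (q * S.prX id μ) = (∏ p ∈ q.primeFactors, g p) * S.prX g μ := by
    rw [dq_mul g q _ hq (H.sets.sqX hμ) hq2, dq_sq g q hq, dq_prX3 H.sets hμ g]
  have hgq := My_gq H q
  have hgX := My_gX H hμ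
  have hXle : ((S.prX id μ : ℕ) : ℝ) ≤ (T.N : ℝ) ^ δm := by
    refine le_trans ?_ (H.size μ hμ ν hν)
    exact_mod_cast Nat.le_mul_of_pos_right _ hY
  have hev := My_eval0 H h ht hν hμ (Q := q * S.prX id μ) (qW := qW) (q2 := q2 * S.prX id μ) (r := s)
    (p := p)
    (by rw [e1]; ring) hqW (Nat.mul_pos hq20 hX) (Nat.Coprime.mul_left hqR (My_copR H hμ))
    (by
      push_cast
      exact mul_le_mul hq1 hXle (Nat.cast_nonneg _) (Real.rpow_nonneg (Nat.cast_nonneg _) _))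
    (hs2 hr hr') hp hpy (fun h5 => hpq (by
      refine h5.trans ⟨qW, ?_⟩
      rw [e1]
      ring))
    (by rw [hdq]; exact mul_nonneg hgq.1 hgX.1) (by rw [hdq]; exact mul_le_one₀ hgq.2 hgX.1 hgX.2)
  have hsum : ∑ n ∈ (range (b + 1)).filter Q, (mY S T v a b t2 w L g).Om μ ν n =
      ∑ n ∈ (Ioc (a / (v * S.prY id ν)) (b / (v * S.prY id ν))).filter
        (fun n => n ≡ s [MOD q * S.prX id μ] ∧ p ∣ n), w n := by
    refine My_sum h hY μ Q (fun n => n ≡ s [MOD q * S.prX id μ] ∧ p ∣ n) ?_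
    intro n hn
    rw [hQ n, hcl n, ← hs1 n]
    tauto
  rw [hsum, My_ms H h hν μ]
  refine hev.trans (le_of_eq ?_)
  rw [hdq]
  change _ = 4 / (p : ℝ) * (L * (((b : ℝ) - a) / ((v * S.prY id ν : ℕ) : ℝ)) * S.prX g μ) *
    (∏ p ∈ q.primeFactors, g p) + (T.N : ℝ) ^ (-δ1) * (L * ((b : ℝ) - a) / v)
  ring

theorem mY_ok (H : BH3 S T W0 B δ0 δ1 δm δw δv len t2 w L g) (h : HY S T W0 v a b B δm len) :
    (mY S T v a b t2 w L g).OK3 T W0 δ0 δ1 := by
  classical
  have hN := My_N1 H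
  have hN0 : (0 : ℝ) < T.N := by linarith
  have hvr : (0 : ℝ) < v := by exact_mod_cast h.v0
  have hL := H.wei.L_pos
  have h8 := My_L H h
  have hNp : 0 < (T.N : ℝ) ^ (-δ1) := Real.rpow_pos_of_pos hN0 _
  have hW : 0 < L * ((b : ℝ) - a) / v := by
    by_contra hcon
    push Not at hcon
    have := mul_nonpos_of_nonneg_of_nonpos hNp.le hcon
    linarith
  have hba : 0 < (b : ℝ) - a := by
    by_contra hcon
    push Not at hcon
    have h1 : L * ((b : ℝ) - a) / v ≤ 0 :=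
      div_nonpos_of_nonpos_of_nonneg (mul_nonpos_of_nonneg_of_nonpos hL.le hcon) hvr.le
    linarith
  -- the meaning of the support
  have hOm : ∀ (μ : S.TX) (ν : S.TY) (n : ℕ), (mY S T v a b t2 w L g).Om μ ν n ≠ 0 →
      a < v * S.prY id ν * n ∧ v * S.prY id ν * n ≤ b ∧
      S.prX id μ ∣ v * S.prY id ν * n + T.D * T.N ∧ w n ≠ 0 := by
    intro μ ν n hne
    by_cases hcond : a < v * S.prY id ν * n ∧ v * S.prY id ν * n ≤ b ∧
      S.prX id μ ∣ v * S.prY id ν * n + T.D * T.N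
    · refine ⟨hcond.1, hcond.2.1, hcond.2.2, ?_⟩
      have e1 : (mY S T v a b t2 w L g).Om μ ν n = w n := if_pos hcond
      rwa [e1] at hne
    · exact absurd (if_neg hcond) hne
  have hms0 : ∀ μ ∈ S.MX, ∀ ν ∈ S.MY, 0 ≤ (mY S T v a b t2 w L g).ms μ ν := by
    intro μ hμ ν hν
    rw [My_ms H h hν μ]
    have h1 : (0 : ℝ) < ((v * S.prY id ν : ℕ) : ℝ) := by
      exact_mod_cast Nat.mul_pos h.v0 (My_posY H hν)
    have := (My_gX H hμ).1
    positivity
  have hWeq : (mY S T v a b t2 w L g).W = L * ((b : ℝ) - a) / v := rfl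
  have hadm : ∀ (μ : S.TX) (ν : S.TY), (mY S T v a b t2 w L g).adm μ ν →
      (S.prX id μ).Coprime (v * S.prY id ν) := by
    rintro μ ν ⟨h1, h2⟩
    have h3 : (S.prX id μ * S.prY id ν).Coprime v := h1
    exact Nat.Coprime.mul_right (Nat.Coprime.coprime_dvd_left (dvd_mul_right _ _) h3) h2
  exact
    { W_pos := hW
      v_pos := h.v0
      v_le := h.vl
      v_cop := by
        refine Nat.Coprime.coprime_dvd_right ?_ h.vc
        exact Nat.mul_dvd_mul (dvd_pow_self _ (by norm_num)) dvd_rfl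
      tau_cases := Or.inr ⟨fun _ _ => rfl, rfl⟩
      Om_nonneg := by
        intro μ ν n
        change 0 ≤ (if _ then w n else 0)
        split_ifs
        · exact H.wei.nonneg n
        · exact le_rfl
      nm_bd := by
        intro μ ν n hne
        obtain ⟨h1, h2, -, -⟩ := hOm μ ν n hne
        change n ≤ b
        have h3 : 0 < v * S.prY id ν := by
          rcases Nat.eq_zero_or_pos (v * S.prY id ν) with h4 | h4
          · rw [h4, zero_mul] at h1
            omega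
          · exact h4
        exact (Nat.le_mul_of_pos_left n h3).trans h2
      nm_le := by
        change b ≤ T.N ^ 3
        refine ((Nat.le_add_right b _).trans h.b2).trans (Nat.pow_le_pow_right ?_ (by norm_num))
        have := H.N2
        omega
      X_eq := by
        intro μ ν n _
        change ((v * S.prY id ν * n + T.D * T.N : ℕ) : ℤ) =
          (v : ℤ) * ((S.prY id ν : ℕ) : ℤ) * n + ((T.D : ℤ) * (T.N : ℤ))
        push_cast
        ring
      X_dvd := by
        intro μ ν n hne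
        exact (hOm μ ν n hne).2.2.1
      Y_dvd := by
        intro μ ν n _
        change S.prY id ν ∣ v * S.prY id ν * n + T.D * T.N - T.D * T.N
        rw [Nat.add_sub_cancel]
        exact (dvd_mul_left _ _).mul_right n
      Y_pos := by
        intro μ ν n hne
        have h1 := (hOm μ ν n hne).1
        change T.D * T.N < v * S.prY id ν * n + T.D * T.N
        omega
      X_big := by
        intro μ ν n hne
        obtain ⟨h1, h2, -, -⟩ := hOm μ ν n hne
        change Real.exp (18 * (S.k + 1)) * (((v * S.prY id ν * n + T.D * T.N : ℕ) : ℝ) - T.D * T.N) ≤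
          ((v * S.prY id ν * n + T.D * T.N : ℕ) : ℝ)
        have h3 : ((v * S.prY id ν * n : ℕ) : ℝ) ≤ b := by exact_mod_cast h2
        have e1 : ((v * S.prY id ν * n + T.D * T.N : ℕ) : ℝ) =
            ((v * S.prY id ν * n : ℕ) : ℝ) + (T.D : ℝ) * T.N := by
          push_cast
          ring
        rw [e1, add_sub_cancel_right]
        calc Real.exp (18 * (S.k + 1)) * ((v * S.prY id ν * n : ℕ) : ℝ)
            ≤ Real.exp (18 * (S.k + 1)) * (b : ℝ) :=
              mul_le_mul_of_nonneg_left h3 (Real.exp_pos _).le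
          _ ≤ T.D * T.N := h.big
          _ ≤ _ := le_add_of_nonneg_left (Nat.cast_nonneg _)
      X_le := by
        intro μ ν n hne
        have h1 := (hOm μ ν n hne).2.1
        have h2 := h.b2
        change v * S.prY id ν * n + T.D * T.N ≤ T.N ^ 2
        omega
      hX_nonneg := fun p hp => H.wei.g_nonneg p hp
      hY_nonneg := by
        intro p _
        change 0 ≤ 1 / (p : ℝ) ∧ |1 / (p : ℝ) - 1 / p| ≤ 2 / (p : ℝ) ^ 2
        rw [sub_self, abs_zero]
        exact ⟨by positivity, by positivity⟩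
      hY_win := by
        intro i l _
        change 0 ≤ 1 / (l : ℝ) ∧ |1 / (l : ℝ) - 1 / l| ≤ 2 / ((l : ℝ) * T.y0)
        rw [sub_self, abs_zero]
        exact ⟨by positivity, by positivity⟩
      g_small := fun p hp hpy => ⟨fun ht => H.wei.g_one ht p, fun ht => H.wei.g_small ht p hp hpy⟩
      g_large := fun p hp _ => H.wei.g_nonneg p hp
      t2_small := by
        intro ht μ ν n hne p hp hpy hpn
        have h1 := H.wei.rough ht n (hOm μ ν n hne).2.2.2 p hp hpn
        omega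
      up := by
        intro μ hμ ν hν
        have h0 := hms0 μ hμ ν hν
        have hE : 0 ≤ (T.N : ℝ) ^ (-δ1) * (mY S T v a b t2 w L g).W := by
          rw [hWeq]
          positivity
        by_cases hc : (S.prX id μ).Coprime (v * S.prY id ν)
        · have h1 := My_cl H h hν hμ hc 1 squarefree_one (by
            rw [Nat.cast_one]
            exact Real.one_le_rpow hN H.e0) (Nat.coprime_one_left _) (by
            intro p hp hp1
            exact absurd (Nat.dvd_one.1 hp1) hp.one_lt.ne') 0 (fun _ => Nat.coprime_one_right _)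
          have h2 : (mY S T v a b t2 w L g).gq 1 = 1 := by
            unfold Msr.gq
            rw [Nat.primeFactors_one, prod_empty]
          rw [h2, mul_one] at h1
          have h3 := (abs_le.1 h1).2
          linarith
        · have h1 : (mY S T v a b t2 w L g).cl μ ν 1 0 = 0 := by
            unfold Msr.cl
            refine sum_eq_zero fun n _ => ?_
            by_contra hne
            obtain ⟨h2, -, h4, -⟩ := hOm μ ν n hne
            exact My_none H hμ hc h4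
          rw [h1]
          linarith
      eq := by
        intro μ hμ ν hν ha q hq hq1 hq2 hq3 r hr
        exact My_cl H h hν hμ (hadm μ ν ha) q hq hq1
          (Nat.Coprime.coprime_dvd_right (dvd_mul_right _ _) hq2) hq3 r hr
      eq0 := by
        intro ht μ hμ ν hν ha q hq hq1 hq2 hq3 p hp hpq r hr
        obtain ⟨hpp, hpy, -⟩ := My_PL hp
        refine My_zero H h ht hν hμ (hadm μ ν ha) q hq hq1
          (Nat.Coprime.coprime_dvd_right (dvd_mul_right _ _) hq2) hq3 r hr hpp hpy ?_ _ fun n => Iff.rfl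
        intro h1
        refine hpq (h1.trans ?_)
        exact Nat.mul_dvd_mul dvd_rfl (dvd_mul_right _ _)
      eq2 := by
        intro μ hμ ν hν ha p hp hpd r
        obtain ⟨hpp, hpy, hpz⟩ := My_PL hp
        have hc := hadm μ ν ha
        have hcXY : (S.prY id ν).Coprime (S.prX id μ) := ha.2.symm
        have hpz' : (p : ℝ) ≤ (T.N : ℝ) ^ δ0 := le_trans (by exact_mod_cast hpz) H.zle
        have hms := hms0 μ hμ ν hν
        have hE : 0 ≤ (T.N : ℝ) ^ (-δ1) * (mY S T v a b t2 w L g).W := by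
          rw [hWeq]
          positivity
        have hp2 : (2 : ℝ) ≤ p := by exact_mod_cast hpp.two_le
        have hp0 : (0 : ℝ) < p := by linarith
        change (if p ∣ S.prY id ν then (mY S T v a b t2 w L g).cl μ ν p r
          else (mY S T v a b t2 w L g).cl μ ν (p ^ 2) r) ≤ _
        split_ifs with hpY
        · have hpX : ¬ p ∣ S.prX id μ := by
            intro h1
            have := Nat.dvd_gcd hpY h1
            rw [hcXY] at this
            exact hpp.one_lt.ne' (Nat.dvd_one.1 this)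
          by_cases hcase : t2 ∧ p ∣ r
          · obtain ⟨ht, hpr⟩ := hcase
            have h1 := My_zero H h ht hν hμ hc 1 squarefree_one (by
              rw [Nat.cast_one]
              exact Real.one_le_rpow hN H.e0) (Nat.coprime_one_left _) (by
              intro p hp hp1
              exact absurd (Nat.dvd_one.1 hp1) hp.one_lt.ne') 0 (Nat.coprime_one_right _) hpp hpy
              (by rwa [one_mul]) (fun n => n ≡ r [MOD p]) (by
                intro n
                constructor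
                · intro h2
                  exact ⟨Nat.modEq_one, (h2.dvd_iff dvd_rfl).2 hpr⟩
                · rintro ⟨-, h2⟩
                  exact ((Nat.modEq_zero_iff_dvd.2 h2).trans (Nat.modEq_zero_iff_dvd.2 hpr).symm))
            have h2 : (mY S T v a b t2 w L g).gq 1 = 1 := by
              unfold Msr.gq
              rw [Nat.primeFactors_one, prod_empty]
            rw [h2, mul_one] at h1
            exact h1
          · have h1 := My_cl H h hν hμ hc p hpp.squarefree hpz'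
              ((Nat.Prime.coprime_iff_not_dvd hpp).2 hpX) (by
                intro l hl hlp
                right
                rw [(Nat.prime_dvd_prime_iff_eq hl hpp).1 hlp]
                intro h3
                exact (H.sets.pY hν hpp hpY).1 (h3.mul_left _)) r (by
                intro ht
                refine Nat.Coprime.symm ((Nat.Prime.coprime_iff_not_dvd hpp).2 fun h3 => ?_)
                exact hcase ⟨ht, h3⟩)
            have h2 : (mY S T v a b t2 w L g).gq p = g p := by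
              unfold Msr.gq
              rw [Nat.Prime.primeFactors hpp, prod_singleton]
              rfl
            rw [h2] at h1
            have h3 := (abs_le.1 h1).2
            have h4 := mul_le_mul_of_nonneg_left (My_g2 H hpp) hms
            have h5 : (mY S T v a b t2 w L g).ms μ ν * (2 / p) ≤
                4 / p * (mY S T v a b t2 w L g).ms μ ν := by
              have e1 : 4 / (p : ℝ) * (mY S T v a b t2 w L g).ms μ ν =
                (mY S T v a b t2 w L g).ms μ ν * (2 / p) + (mY S T v a b t2 w L g).ms μ ν * (2 / p) := by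
                ring
              rw [e1]
              have : 0 ≤ (mY S T v a b t2 w L g).ms μ ν * (2 / p) := by positivity
              linarith
            linarith
        · have hpX : p ∣ S.prX id μ := by
            rcases (Nat.Prime.dvd_mul hpp).1 hpd with h1 | h1
            · exact h1
            · exact absurd h1 hpY
          have hY := My_posY H hν
          have hX := My_posX H hμ
          have hRHS : 0 ≤ 4 / (p : ℝ) * (mY S T v a b t2 w L g).ms μ ν := by positivity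
          obtain ⟨r', hr', hcl⟩ := My_class H hμ hc
          rcases sq_class p (S.prX id μ) r r' hpp (H.sets.sqX hμ) hpX with hnone | ⟨s, hs1, hs2⟩
          · have hsum : (mY S T v a b t2 w L g).cl μ ν (p ^ 2) r =
                ∑ n ∈ (Ioc (a / (v * S.prY id ν)) (b / (v * S.prY id ν))).filter
                  (fun _ => False), w n := by
              refine My_sum h hY μ (fun n => n ≡ r [MOD p ^ 2]) (fun _ => False) ?_
              intro n hn
              rw [hcl n]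
              exact ⟨fun h1 => hnone n h1, fun h1 => h1.elim⟩
            rw [hsum, filter_false, sum_empty]
            linarith
          · have hsum : (mY S T v a b t2 w L g).cl μ ν (p ^ 2) r =
                ∑ n ∈ (Ioc (a / (v * S.prY id ν)) (b / (v * S.prY id ν))).filter
                  (fun n => n ≡ s [MOD p * S.prX id μ]), w n := by
              refine My_sum h hY μ (fun n => n ≡ r [MOD p ^ 2])
                (fun n => n ≡ s [MOD p * S.prX id μ]) ?_
              intro n hn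
              rw [hcl n]
              exact hs1 n
            have hXle : ((S.prX id μ : ℕ) : ℝ) ≤ (T.N : ℝ) ^ δm := by
              refine le_trans ?_ (H.size μ hμ ν hν)
              exact_mod_cast Nat.le_mul_of_pos_right _ hY
            have hdq : dq g (p * S.prX id μ) = S.prX g μ / p := by
              rw [dq_sqp g p _ hpp (H.sets.sqX hμ) hpX, dq_prX3 H.sets hμ g]
            have hgX := My_gX H hμ
            have hev := My_eval H h hν hμ (Q := p * S.prX id μ) (qW := 1) (q2 := p * S.prX id μ)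
              (r := s) (by rw [one_mul]) (one_dvd _) (Nat.mul_pos hpp.pos hX)
              (Nat.Coprime.mul_left
                (Nat.Coprime.coprime_dvd_left hpX (My_copR H hμ)) (My_copR H hμ))
              (by
                push_cast
                exact mul_le_mul hpz' hXle (Nat.cast_nonneg _)
                  (Real.rpow_nonneg (Nat.cast_nonneg _) _))
              (fun _ => hs2 hr') (by rw [hdq]; exact div_nonneg hgX.1 hp0.le)
              (by
                rw [hdq, div_le_one hp0]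
                linarith [hgX.2])
            rw [hsum]
            have h3 := (abs_le.1 hev).2
            have e1 : L * (((b : ℝ) - a) / ((v * S.prY id ν : ℕ) : ℝ)) * dq g (p * S.prX id μ) =
                (mY S T v a b t2 w L g).ms μ ν * (1 / p) := by
              rw [hdq, My_ms H h hν μ]
              ring
            rw [e1] at h3
            have h5 : (mY S T v a b t2 w L g).ms μ ν * (1 / p) ≤
                4 / p * (mY S T v a b t2 w L g).ms μ ν := by
              have e2 : 4 / (p : ℝ) * (mY S T v a b t2 w L g).ms μ ν =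
                (mY S T v a b t2 w L g).ms μ ν * (1 / p) +
                  3 * ((mY S T v a b t2 w L g).ms μ ν * (1 / p)) := by
                ring
              rw [e2]
              have : 0 ≤ (mY S T v a b t2 w L g).ms μ ν * (1 / p) := by positivity
              linarith
            rw [hWeq] at hE ⊢
            linarith }

end Pool.Agent.Lib.T3D
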