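import Pool.Agent.Lib.MP_7b7e48_nt.T3D.Tm
import Pool.Agent.Lib.MP_7b7e48_nt.T3D.Mx
import Pool.Agent.Lib.MP_7b7e48_nt.T3D.My
import Pool.Agent.Lib.MP_7b7e48_nt.T3D.Mas
import Pool.Agent.Lib.MP_7b7e48_nt.T3D.Bh3

/-!
# T3D / Tok (60 minutes): test measures are measures

PROOF. `mX_ok` with `bh3`, `hx3`; `mX_m1`, `mX_tot` with `Wei.g_nonneg` for `g = gW T.y0 o` (`(bh3 ..).wei.g_nonneg`), `Brg3.sets` (note `(wD T D).y0 = T.y0`, ..), `8 (3 (k+1) + 2 n0 + nX + nY) ≤ y0`: `num`: `≤ 8 K`, and `K ≤ y0/8` for large `N`: `y0 ≥ JJ^4 MM^4 J1 ≥ JJ ≥ K^1000/..` (`Ok.y1`, `JJ N = ⌈(log N)^1000⌉`);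
`W = LW (b - a)/v ≤ L J0 R/v` (`LW_le` in `BR/D04.lean`; `b - a = J0 R`), `0 ≤ W` the same.
-/

set_option autoImplicit false

open Finset

namespace Pool.Agent.Lib.T3D

open Pool.Agent.Lib.RG (Rough LV RC PZ)
open Pool.Agent.Lib.RH (Prm MM JJ Blk)
open Pool.Agent.Lib.TC (MS Msr)
open Pool.Agent.Lib.TCB (famX famY CR wD Wei dq BdS lenW dvW gW LW t2W LW_le)
open Pool.Agent.Lib.TCF (TUP rho TM Rgh1 wt AP QS QM sgm)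
open Pool.Agent.Lib.MP_45349e_nt.LS (lam)

private theorem Tok_JJ (R N : ℕ) (h8 : (8 : ℝ) ≤ Real.log N) (hN : 0 < N) (hNR : N ≤ R) : 8 * Real.log N ≤ (JJ R : ℝ) := by
  have h1 : Real.log N ≤ Real.log R := Real.log_le_log (by exact_mod_cast hN) (by exact_mod_cast hNR)
  have h2 : (Real.log R) ^ 2 ≤ (Real.log R) ^ 1000 := pow_le_pow_right₀ (by linarith) (by norm_num)
  have h3 : (Real.log R) ^ 1000 ≤ (JJ R : ℝ) := by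
    unfold Pool.Agent.Lib.RH.JJ
    exact Nat.le_ceil _
  nlinarith

private theorem Tok_pos (P : Prm) (S : MS) (T : TC.Dat) (W0 y1 : ℕ) (D : TCF.Dat) (Cp : ℕ) {δ0 δ1 δm δ2 ε e3 s u : ℝ}
    (hB : Brg3 P S T W0 y1 D Cp δ0 δ1 δm δ2 ε e3 s u) : 0 < JJ (W0 ^ 2 * T.N) ∧ 0 < MM P (W0 ^ 2 * T.N) ∧ D.J0 ≤ D.J2 ∧ 0 < D.J1 := by
  have hMM : 0 < MM P (W0 ^ 2 * T.N) := by
    unfold Pool.Agent.Lib.RH.MM
    positivity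
  have hJJ : 0 < JJ (W0 ^ 2 * T.N) := by
    have h10 : (0 : ℝ) < JJ (W0 ^ 2 * T.N) := lt_of_lt_of_le (Real.exp_pos _) hB.kexp
    exact_mod_cast h10
  have h7 := hB.ok.j02
  have h6 := hB.ok.j0
  have h8 := hB.ok.j21
  have h9 : 1 ≤ 8 * JJ (W0 ^ 2 * T.N) * MM P (W0 ^ 2 * T.N) ^ 2 := Nat.one_le_iff_ne_zero.2 (by positivity)
  have h10 : D.J0 ≤ D.J2 := le_trans (Nat.le_mul_of_pos_left _ h9) h7
  have h11 : 0 < D.J1 := lt_of_lt_of_le (Nat.mul_pos hJJ (lt_of_lt_of_le h6 h10)) h8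
  exact ⟨hJJ, hMM, h10, h11⟩

private theorem Tok_n (P : Prm) (S : MS) (T : TC.Dat) (W0 y1 : ℕ) (D : TCF.Dat) (Cp : ℕ) {δ0 δ1 δm δ2 ε e3 s u : ℝ}
    (hB : Brg3 P S T W0 y1 D Cp δ0 δ1 δm δ2 ε e3 s u) (h8 : (8 : ℝ) ≤ Real.log T.N) (hN : 0 < T.N) :
    8 * (3 * (S.k + 1) + 2 * S.n0 + S.nX + S.nY) ≤ T.y0 := by
  have hW1 : 0 < W0 ^ 2 := Nat.pos_of_ne_zero (pow_ne_zero 2 hB.w0.ne_zero)
  have h1 := Tok_JJ (W0 ^ 2 * T.N) T.N h8 hN (Nat.le_mul_of_pos_left _ hW1)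
  have h2 := hB.num
  obtain ⟨hJJ, hMM, h10, h11⟩ := Tok_pos P S T W0 y1 D Cp hB
  have h3 := hB.ok.y1
  rw [hB.ey] at h3
  have h4 : JJ (W0 ^ 2 * T.N) ≤ T.y0 := by
    refine le_trans ?_ h3
    calc JJ (W0 ^ 2 * T.N) = JJ (W0 ^ 2 * T.N) ^ 1 * 1 * 1 := by ring
      _ ≤ JJ (W0 ^ 2 * T.N) ^ 4 * MM P (W0 ^ 2 * T.N) ^ 4 * D.J1 :=
        Nat.mul_le_mul (Nat.mul_le_mul (Nat.pow_le_pow_right hJJ (by norm_num)) (Nat.one_le_iff_ne_zero.2 (by positivity))) h11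
  have h5 : ((8 * (3 * (S.k + 1) + 2 * S.n0 + S.nX + S.nY) : ℕ) : ℝ) ≤ (T.y0 : ℝ) := by
    have h6 : ((8 * (3 * (S.k + 1) + 2 * S.n0 + S.nX + S.nY) : ℕ) : ℝ) = 8 * ((3 * (S.k + 1) + 2 * S.n0 + S.nX + S.nY : ℕ) : ℝ) := by
      push_cast
      ring
    rw [h6]
    have h7 : (JJ (W0 ^ 2 * T.N) : ℝ) ≤ (T.y0 : ℝ) := by exact_mod_cast h4
    linarith
  exact_mod_cast h5

private theorem Tok_log : ∃ N1 : ℕ, ∀ N : ℕ, N1 ≤ N → (8 : ℝ) ≤ Real.log N ∧ 0 < N := by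
  obtain ⟨N1, h1⟩ := Filter.eventually_atTop.1
    ((Real.tendsto_log_atTop.comp (tendsto_natCast_atTop_atTop (R := ℝ))).eventually_ge_atTop 8)
  exact ⟨N1 + 1, fun N hN => ⟨h1 N (by omega), by omega⟩⟩

theorem tX_ok (P : Prm) (hP : P.Ok) (W0 Cp : ℕ) {δ0 δ1 δm δ2 e3 : ℝ} (hE : Exps3 P.kap Cp δ0 δ1 δm δ2 e3) :
    ∃ N0 : ℕ, ∀ (S : MS) (T : TC.Dat) (y1 : ℕ) (D : TCF.Dat) (ε s u : ℝ), N0 ≤ T.N →
    Brg3 P S T W0 y1 D Cp δ0 δ1 δm δ2 ε e3 s u →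
    ∀ (v : ℕ) (o : Option (ℕ → ℝ)) (L : ℝ), TM P (W0 ^ 2 * T.N) v o L → ∀ D' : ℕ, D.J2 < D' + D.J0 → D' ≤ D.J1 →
    TMs (tX S T D W0 D' v o L) (wD T (W0 ^ 2 * D')) W0 δ0 δ1 (rho D.BX * rho D.BY) (L * (D.J0 * (W0 ^ 2 * T.N : ℕ)) / v) := by
  obtain ⟨N1, h1⟩ := bh3 P hP W0 Cp hE
  obtain ⟨N2, h2⟩ := hx3 P hP W0 Cp hE
  obtain ⟨N3, h3⟩ := Tok_log
  refine ⟨N1 + N2 + N3, fun S T y1 D ε s u hN hB v o L hT D' hD1 hD2 => ?_⟩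
  obtain ⟨h8, hNp⟩ := h3 T.N (by omega)
  obtain ⟨hJJ, hMM, h10, h11⟩ := Tok_pos P S T W0 y1 D Cp hB
  have hD0 : 0 < D' := by omega
  have hb := h1 S T y1 D ε s u (by omega) hB v o L hT D' hD0 hD2
  have hx := h2 S T y1 D ε s u (by omega) hB v o L hT D' hD1 hD2
  have hn := Tok_n P S T W0 y1 D Cp hB h8 hNp
  have hv : (0 : ℝ) < v := by exact_mod_cast hT.v1
  obtain ⟨hL0, hL1⟩ := LW_le (y0 := T.y0) hT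
  have hR : (0 : ℝ) ≤ (D.J0 : ℝ) * ((W0 ^ 2 * T.N : ℕ) : ℝ) := by positivity
  have hWe : (tX S T D W0 D' v o L).W = LW T.y0 o L * (D.J0 * ((W0 ^ 2 * T.N : ℕ) : ℝ)) / v := by
    unfold tX mX
    simp only
    congr 2
    push_cast
    ring
  have hW0 : 0 ≤ (tX S T D W0 D' v o L).W := by
    rw [hWe]
    positivity
  refine ⟨mX_ok hb hx, fun μ hμ ν hν => ?_, ?_, ?_⟩
  · exact mX_m1 hB.sets hn hb.wei.g_nonneg hμ hν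
  · exact mX_tot hB.sets hB.fam hn hb.wei.g_nonneg hW0
  · rw [hWe]
    gcongr

theorem tY_ok (P : Prm) (hP : P.Ok) (W0 Cp : ℕ) {δ0 δ1 δm δ2 e3 : ℝ} (hE : Exps3 P.kap Cp δ0 δ1 δm δ2 e3) :
    ∃ N0 : ℕ, ∀ (S : MS) (T : TC.Dat) (y1 : ℕ) (D : TCF.Dat) (ε s u : ℝ), N0 ≤ T.N →
    Brg3 P S T W0 y1 D Cp δ0 δ1 δm δ2 ε e3 s u →
    ∀ (v : ℕ) (o : Option (ℕ → ℝ)) (L : ℝ), TM P (W0 ^ 2 * T.N) v o L → ∀ D' : ℕ, D.J2 < D' + D.J0 → D' ≤ D.J1 →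
    TMs (tY S T D W0 D' v o L) (wD T (W0 ^ 2 * D')) W0 δ0 δ1 (rho D.BX * rho D.BY) (L * (D.J0 * (W0 ^ 2 * T.N : ℕ)) / v) := by
  obtain ⟨N1, h1⟩ := bh3 P hP W0 Cp hE
  obtain ⟨N2, h2⟩ := hy3 P hP W0 Cp hE
  obtain ⟨N3, h3⟩ := Tok_log
  refine ⟨N1 + N2 + N3, fun S T y1 D ε s u hN hB v o L hT D' hD1 hD2 => ?_⟩
  obtain ⟨h8, hNp⟩ := h3 T.N (by omega)
  obtain ⟨hJJ, hMM, h10, h11⟩ := Tok_pos P S T W0 y1 D Cp hB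
  have hD0 : 0 < D' := by omega
  have hb := h1 S T y1 D ε s u (by omega) hB v o L hT D' hD0 hD2
  have hx := h2 S T y1 D ε s u (by omega) hB v o L hT D' hD1 hD2
  have hn := Tok_n P S T W0 y1 D Cp hB h8 hNp
  have hv : (0 : ℝ) < v := by exact_mod_cast hT.v1
  obtain ⟨hL0, hL1⟩ := LW_le (y0 := T.y0) hT
  have hR : (0 : ℝ) ≤ (D.J0 : ℝ) * ((W0 ^ 2 * T.N : ℕ) : ℝ) := by positivity
  have hWe : (tY S T D W0 D' v o L).W = LW T.y0 o L * (D.J0 * ((W0 ^ 2 * T.N : ℕ) : ℝ)) / v := by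
    unfold tY mY
    simp only
    congr 2
    push_cast
    ring
  have hW0 : 0 ≤ (tY S T D W0 D' v o L).W := by
    rw [hWe]
    positivity
  refine ⟨mY_ok hb hx, fun μ hμ ν hν => ?_, ?_, ?_⟩
  · exact mY_m1 hB.sets hn hb.wei.g_nonneg hμ hν
  · exact mY_tot hB.sets hB.fam hn hb.wei.g_nonneg hW0
  · rw [hWe]
    gcongr

end Pool.Agent.Lib.T3D
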