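import Pool.Agent.Lib.MP_7b7e48_nt.TCF.Numx
import Pool.Agent.Lib.MP_7b7e48_nt.T3D.Tok
import Pool.Agent.Lib.MP_7b7e48_nt.T3D.Cls
import Pool.Agent.Lib.MP_7b7e48_nt.T3D.Ad
import Pool.Agent.Lib.MP_7b7e48_nt.T3D.Cv0
import Pool.Agent.Lib.MP_7b7e48_nt.T3D.Num
import Pool.Agent.Lib.MP_7b7e48_nt.T3E.Fin
import Pool.Agent.Lib.MP_7b7e48_nt.TCF.Siz

/-!
# T3D / A0 (90 minutes): the input a0

`R = W0^2 T.N`. PROOF. `ap_dec` with `Bd = BdS S T y1`. For `D' ∈ Ioo (J2 - J0) J1` (`0 < D'`, `J2 < D' + J0`, `D' ≤ J1`), `r < W0`: `cls_bound` with `D1 = D`, `I = {()}`, `M = tX .. 1 none 1` (`tX_ok`, `TM P R 1 none 1`: `tm_one` in `TCF/Siz.lean`, or directly), `w = J0 R`, `cov0` twice, `SID = rho rho N/K^A` from `T3E.bal` (`A` from `fin_le`, `Cj = Cp + 3`: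
`(D' + J0) R ≤ 2 J1 W0^2 T.N ≤ K^Cj T.N`; `BP .. 1` and `BP .. (-1)` are the two sets of `T3E.bal`: `T3E.PSW` and `PS` are the same set, `-(-1) = 1`). `root_le` with `σ = 1`, `w = J0 R ≤ (log R)^5 J0 R`. Sum: at most `J1` values `D'` and `W0` values `r`: `≤ J1 W0 (SID + 2 ρ J0 R/(JJ^5 MM^5))`, `fin_le` with `σ = 1`.
-/

set_option autoImplicit false

open Finset

namespace Pool.Agent.Lib.T3D

open Pool.Agent.Lib.RG (Rough LV RC PZ)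
open Pool.Agent.Lib.RH (Prm MM JJ Blk)
open Pool.Agent.Lib.TC (MS Msr)
open Pool.Agent.Lib.TCB (famX famY CR wD Wei dq BdS lenW dvW gW LW t2W)
open Pool.Agent.Lib.TCF (TUP rho TM Rgh1 wt AP QS QM sgm)
open Pool.Agent.Lib.MP_45349e_nt.LS (lam)

open Classical in
theorem a0_thm (P : Prm) (hP : P.Ok) (W0 Cp : ℕ) (hW : 0 < W0) {δ0 δ1 δm δ2 e3 : ℝ} (hE : Exps3 P.kap Cp δ0 δ1 δm δ2 e3) :
    ∃ N0 : ℕ, ∀ (S : MS) (T : TC.Dat) [NeZero (W0 ^ 2 * T.N)] (y1 : ℕ) (D : TCF.Dat) (ε s u : ℝ), N0 ≤ T.N → Even T.N →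
    Brg3 P S T W0 y1 D Cp δ0 δ1 δm δ2 ε e3 s u →
    ∑ x : ZMod (W0 ^ 2 * T.N), (if IsUnit x then AP P (W0 ^ 2 * T.N) D (fun _ _ _ _ => True) (BdS S T y1) 1 x else 0) ≤
      (W0 ^ 2 * T.N : ℕ) * ((D.J1 * rho D.BX) * (D.J0 * rho D.BY)) / ((JJ (W0 ^ 2 * T.N) : ℝ) ^ 4 * (MM P (W0 ^ 2 * T.N) : ℝ) ^ 4) := by
  obtain ⟨A, n1, hfin⟩ := fin_le P hP W0 hW
  obtain ⟨n2, hbal⟩ := Pool.Agent.Lib.T3E.bal P hP W0 hW A (Cp + 3)
  obtain ⟨n3, hroot⟩ := root_le P hP W0 Cp hE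
  obtain ⟨n4, htok⟩ := tX_ok P hP W0 Cp hE
  obtain ⟨n5, hnum⟩ := Pool.Agent.Lib.TCF.numx P hP
  have htend : Filter.Tendsto (fun n : ℕ => Real.log (n : ℝ)) Filter.atTop Filter.atTop :=
    Real.tendsto_log_atTop.comp tendsto_natCast_atTop_atTop
  obtain ⟨n6, hn6⟩ := (htend.eventually_ge_atTop (2 * (W0 : ℝ) ^ 2)).exists_forall_of_atTop
  refine ⟨max 3 (max n1 (max n2 (max n3 (max n4 (max n5 n6))))), ?_⟩
  intro S T _ y1 D ε s u hN hev hB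
  simp only [max_le_iff] at hN
  obtain ⟨g0, g1, g2, g3, g4, g5, g6⟩ := hN
  have hW1 : (1 : ℝ) ≤ W0 := by exact_mod_cast hW
  have hW2 : (1 : ℝ) ≤ (W0 : ℝ) ^ 2 := one_le_pow₀ hW1
  have hlog : 2 * (W0 : ℝ) ^ 2 ≤ Real.log T.N := hn6 T.N g6
  have hlog1 : 1 ≤ Real.log T.N := by linarith
  have hRN : T.N ≤ W0 ^ 2 * T.N := Nat.le_mul_of_pos_left _ (by positivity)
  have hX : Pool.Agent.Lib.TCF.NumX P (W0 ^ 2 * T.N) := hnum _ (le_trans g5 hRN)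
  have hok := hB.ok
  have hTN : (0 : ℝ) < T.N := by exact_mod_cast (by omega : 0 < T.N)
  have hRr : (T.N : ℝ) ≤ ((W0 ^ 2 * T.N : ℕ) : ℝ) := by exact_mod_cast hRN
  have hRpos : (0 : ℝ) < ((W0 ^ 2 * T.N : ℕ) : ℝ) := lt_of_lt_of_le hTN hRr
  have hlogR : 1 ≤ Real.log ((W0 ^ 2 * T.N : ℕ) : ℝ) := le_trans hlog1 (Real.log_le_log hTN hRr)
  have hρX : 0 ≤ rho D.BX := by unfold Pool.Agent.Lib.TCF.rho; positivity
  have hρY : 0 ≤ rho D.BY := by unfold Pool.Agent.Lib.TCF.rho; positivity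
  -- sizes
  have hJ1 : 1 ≤ D.J1 := Pool.Agent.Lib.TCF.j1_pos hX hok
  have hJ2 : D.J2 < D.J1 := Pool.Agent.Lib.TCF.j2_lt hX hok
  have hJ0 : D.J0 ≤ D.J2 := by
    have h1 := Pool.Agent.Lib.TCF.j0_le hX hok
    have h2 : 1 ≤ 8 * MM P (W0 ^ 2 * T.N) ^ 2 := by
      have := Pool.Agent.Lib.TCF.mm_one P (W0 ^ 2 * T.N)
      have h3 : 1 ≤ MM P (W0 ^ 2 * T.N) ^ 2 := Nat.one_le_pow _ _ this
      omega
    calc D.J0 = 1 * D.J0 := (one_mul _).symm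
      _ ≤ 8 * MM P (W0 ^ 2 * T.N) ^ 2 * D.J0 := Nat.mul_le_mul_right _ h2
      _ ≤ D.J2 := h1
  have hJy : D.J1 ≤ D.y0 := by
    have := Pool.Agent.Lib.TCF.y0_J1 hX hok
    omega
  have hJK : (D.J1 : ℝ) ≤ (Real.log T.N) ^ Cp := by
    have h1 : (D.J1 : ℝ) ≤ (T.y0 : ℝ) := by
      rw [← hB.ey]
      exact_mod_cast hJy
    exact h1.trans hB.y0le
  have hTM : TM P (W0 ^ 2 * T.N) 1 none 1 := Pool.Agent.Lib.TCF.tm_one hP hX
  set w0 : ℝ := (D.J0 : ℝ) * ((W0 ^ 2 * T.N : ℕ) : ℝ) with hw0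
  have hw0n : 0 ≤ w0 := by positivity
  have hrt := hroot S T y1 D ε s u g3 hB 1 w0 (by
      apply Real.rpow_le_one_of_one_le_of_nonpos
      · exact_mod_cast (by omega : 1 ≤ T.N)
      · have := hE.a5
        linarith) hw0n (by
      rw [mul_one]
      exact le_mul_of_one_le_left hw0n (one_le_pow₀ hlogR))
  set ρ : ℝ := rho D.BX * rho D.BY with hρ
  have hρ0 : 0 ≤ ρ := mul_nonneg hρX hρY
  set Bd : ℝ := 1 * (ρ * T.N) / (Real.log T.N) ^ A +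
      2 * (ρ * 1 * (D.J0 * ((W0 ^ 2 * T.N : ℕ) : ℝ)) / ((JJ (W0 ^ 2 * T.N) : ℝ) ^ 5 * (MM P (W0 ^ 2 * T.N) : ℝ) ^ 5)) with hBd
  have hBd0 : 0 ≤ Bd := by positivity
  have hcell : ∀ D' ∈ Ioo (D.J2 - D.J0) D.J1, ∀ r ∈ range W0,
      ∑ t ∈ TUP D.BX, ∑ t' ∈ (TUP D.BY).filter (fun t' => ¬ BdS S T y1 t t'),
        (((BP P W0 T.N D' (D' * (W0 ^ 2 * T.N)) ((D' + D.J0) * (W0 ^ 2 * T.N)) r t t' 1).card : ℝ) +
          (BP P W0 T.N D' (D' * (W0 ^ 2 * T.N)) ((D' + D.J0) * (W0 ^ 2 * T.N)) r t t' (-1)).card) ≤ Bd := by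
    intro D' hD' r _
    rw [mem_Ioo] at hD'
    have hD0 : 0 < D' := by omega
    have hD1 : D' ≤ D.J1 := by omega
    have hD2 : D.J2 < D' + D.J0 := by omega
    have hM := htok S T y1 D ε s u g4 hB 1 none 1 hTM D' hD2 hD1
    have hM' : ∀ i ∈ ({()} : Finset Unit), TMs ((fun _ => tX S T D W0 D' 1 none 1) i) (wD T (W0 ^ 2 * D')) W0 δ0 δ1
        (rho D.BX * rho D.BY) ((fun _ : Unit => w0) i) := by
      intro i _
      have h1 : (1 : ℝ) * (D.J0 * ((W0 ^ 2 * T.N : ℕ) : ℝ)) / ((1 : ℕ) : ℝ) = w0 := by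
        rw [hw0, Nat.cast_one, div_one, one_mul]
      rw [h1] at hM
      exact hM
    have hS := hbal T.N g2 hev D hok D' (D' * (W0 ^ 2 * T.N)) ((D' + D.J0) * (W0 ^ 2 * T.N)) r hD0 hD1 le_rfl
      (Nat.mul_le_mul_right _ (Nat.le_add_right _ _)) (by
        have h1 : (((D' + D.J0) * (W0 ^ 2 * T.N) : ℕ) : ℝ) ≤ (2 * D.J1 : ℝ) * ((W0 : ℝ) ^ 2 * T.N) := by
          push_cast
          apply mul_le_mul_of_nonneg_right _ (by positivity)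
          have h2 : (D' : ℝ) ≤ D.J1 := by exact_mod_cast hD1
          have h3 : (D.J0 : ℝ) ≤ D.J1 := by exact_mod_cast (by omega : D.J0 ≤ D.J1)
          linarith
        have h4 : (2 * D.J1 : ℝ) * ((W0 : ℝ) ^ 2 * T.N) = (D.J1 : ℝ) * (2 * (W0 : ℝ) ^ 2) * T.N := by ring
        have h5 : (D.J1 : ℝ) * (2 * (W0 : ℝ) ^ 2) ≤ (Real.log T.N) ^ Cp * Real.log T.N :=
          mul_le_mul hJK hlog (by positivity) (by positivity)
        have h6 : (Real.log T.N) ^ Cp * Real.log T.N ≤ (Real.log T.N) ^ (Cp + 3) := by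
          rw [← pow_succ]
          exact pow_le_pow_right₀ hlog1 (by omega)
        rw [h4] at h1
        exact h1.trans (mul_le_mul_of_nonneg_right (h5.trans h6) hTN.le))
    have hS' : ∑ t ∈ TUP D.BX, ∑ t' ∈ TUP D.BY,
        |((BP P W0 T.N D' (D' * (W0 ^ 2 * T.N)) ((D' + D.J0) * (W0 ^ 2 * T.N)) r t t' 1).card : ℝ) -
          (BP P W0 T.N D' (D' * (W0 ^ 2 * T.N)) ((D' + D.J0) * (W0 ^ 2 * T.N)) r t t' (-1)).card| ≤
        ρ * T.N / (Real.log T.N) ^ A := by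
      refine le_trans (le_of_eq ?_) hS
      refine Finset.sum_congr rfl fun t _ => Finset.sum_congr rfl fun t' _ => ?_
      unfold BP PS Pool.Agent.Lib.T3E.PSW
      simp only [neg_neg]
    have hmain := cls_bound hB rfl (Finset.Subset.refl _) (Finset.Subset.refl _) hD0 hD1 ({()} : Finset Unit)
      (fun _ => tX S T D W0 D' 1 none 1) (fun _ => w0) hM' (cov0 rfl D' r 1) (cov0 rfl D' r (-1)) _ hS'
    refine hmain.trans ?_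
    have h1 : ∑ i ∈ ({()} : Finset Unit), w0 = w0 := Finset.sum_singleton _ _
    rw [h1, hBd, one_mul]
    linarith
  have hdec := ap_dec (P := P) hW (by omega : 2 ≤ T.N) hok (BdS S T y1)
  refine hdec.trans ((Finset.sum_le_sum fun D' hD' => Finset.sum_le_sum fun r hr => hcell D' hD' r hr).trans ?_)
  rw [Finset.sum_const, Finset.sum_const, Finset.card_range, nsmul_eq_mul, nsmul_eq_mul, Nat.card_Ioo]
  have hfin' := hfin T.N D g1 hok 1 zero_le_one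
  rw [one_mul ((((W0 ^ 2 * T.N : ℕ) : ℝ)) * ((D.J1 * rho D.BX) * (D.J0 * rho D.BY)) /
    ((JJ (W0 ^ 2 * T.N) : ℝ) ^ 4 * (MM P (W0 ^ 2 * T.N) : ℝ) ^ 4))] at hfin'
  refine le_trans ?_ hfin'
  apply mul_le_mul_of_nonneg_right _ (by positivity)
  exact_mod_cast (by omega : D.J1 - (D.J2 - D.J0) - 1 ≤ D.J1)

end Pool.Agent.Lib.T3D
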