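import Pool.Agent.Lib.MP_7b7e48_nt.T3D.Tm
import Pool.Agent.Lib.MP_7b7e48_nt.T3D.Set3
import Pool.Agent.Lib.MP_7b7e48_nt.BR.D04
import Pool.Agent.Lib.MP_7b7e48_nt.RG.BAS

/-!
# T3D / Cv1 (120 minutes): covering of the abnormal numbers

`χ` real, `c n = Re χ n`. Index: `(true, q)`, `(false, v)` for kind `X` in `inl`, for kind `Y` in `inr`: `ι = Bool × Bool × ℕ`: `(kX?, type 1?, v)`. PROOF. Let `X ∈ BS .. μ ν`, `Y = X - D' R`: `lam X = - lam Y` and `χ X = χ Y` (`X ≡ Y` modulo `R`), so `lam X ≠ χ X` or `lam Y ≠ χ Y`. Say `lam X ≠ χ X` (the case `Y` is symmetric, kind `Y`).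
`X` is coprime to `R`, all its prime factors have `χ = ± 1`; if all prime factors had `χ = -1` then `χ X = lam X` (complete multiplicativity; `DA` and its lemmas in `TCF`, or induction on the factorization). So some prime `q0 ∣ X` has `χ q0 = 1`, `q0 > MM` (rough). The primes of `prX id μ` are structure primes of `D1` : `χ = -1` (`hx`), so
`q0 ∣ X / prX id μ`. If `q0 ≤ R^(1 - κ)`: `q0 ∈ QM P χ`, `n = X/(q0 prX)`, index `(true, true, q0)`, weight `1`. Else `v := X/(q0 prX id μ) ≤ (D' + J0) R / R^(1 - κ) ≤ 2 J1 R^κ ≤ R^(2κ)` (`hJ1`), `v ≥ 1`, `v ∣ X` so `v` is coprime to `R` and rough: `v ∈ VV`, `n = q0` is prime, `> R^(1-κ) > y0`, so `Rough y0 n` and the weight is `rr c q0 = 1 + c q0 = 2`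
(`rr c q = ∑_{d ∣ q} c d = c 1 + c q`).
-/

set_option autoImplicit false

open Finset

namespace Pool.Agent.Lib.T3D

open Pool.Agent.Lib.RG (Rough LV RC PZ)
open Pool.Agent.Lib.RH (Prm MM JJ Blk)
open Pool.Agent.Lib.TC (MS Msr)
open Pool.Agent.Lib.TCB (famX famY CR wD Wei dq BdS lenW dvW gW LW t2W)
open Pool.Agent.Lib.TCF (TUP rho TM Rgh1 wt AP QS QM sgm)
open Pool.Agent.Lib.MP_45349e_nt.LS (lam)

open Classical in
/-- the `v` of the measures of type 2 -/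
noncomputable def VV (P : Prm) (R : ℕ) : Finset ℕ := (Icc 1 ⌊(R : ℝ) ^ (2 * P.kap)⌋₊).filter fun v => v.Coprime R ∧ Rough (MM P R) v

/-- the indices of the covering measures: kind `X` (`true`) or `Y`, type 1 (`true`) or 2, `v` -/
noncomputable def IX (P : Prm) {R : ℕ} (χ : DirichletCharacter ℂ R) : Finset (Bool × Bool × ℕ) :=
  (univ : Finset Bool) ×ˢ ((({true} : Finset Bool) ×ˢ QM P χ) ∪ (({false} : Finset Bool) ×ˢ VV P R))

/-- the covering measures -/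
noncomputable def MI (S : MS) (T : TC.Dat) (D : TCF.Dat) (W0 D' : ℕ) (c : ℕ → ℝ) (L : ℝ) (i : Bool × Bool × ℕ) : Msr S :=
  if i.1 then (if i.2.1 then tX S T D W0 D' i.2.2 none 1 else tX S T D W0 D' i.2.2 (some c) L)
  else (if i.2.1 then tY S T D W0 D' i.2.2 none 1 else tY S T D W0 D' i.2.2 (some c) L)

private theorem Cv1_TUP {R n' : ℕ} (χ : DirichletCharacter ℂ R) {B : Fin n' → Finset ℕ}
    (hB : ∀ c, ∀ p ∈ B c, p.Prime ∧ χ (p : ZMod R) = -1) {t : ℕ} (ht : t ∈ TUP B) {q : ℕ} (hq : q.Prime)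
    (hχq : χ (q : ZMod R) = 1) : ¬ q ∣ t := by
  intro hd
  unfold TUP at ht
  rw [mem_image] at ht
  obtain ⟨m, hm, rfl⟩ := ht
  rw [Fintype.mem_piFinset] at hm
  rw [hq.prime.dvd_finsetProd_iff] at hd
  obtain ⟨c, -, hc⟩ := hd
  obtain ⟨h1, h2⟩ := hB c _ (hm c)
  have h3 : q = m c := (Nat.prime_dvd_prime_iff_eq hq h1).1 hc
  rw [h3, h2] at hχq
  norm_num at hχq

private theorem Cv1_wt {R : ℕ} (χ : DirichletCharacter ℂ R) {y0 q : ℕ} (hq : q.Prime) (hy : y0 < q)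
    (hχq : χ (q : ZMod R) = 1) : 1 ≤ wt y0 (some (fun n => (χ (n : ZMod R)).re)) q := by
  have h1 : Rough y0 q := by
    intro p hp hd
    rw [(Nat.prime_dvd_prime_iff_eq hp hq).1 hd]
    exact hy
  unfold wt
  simp only
  rw [if_pos h1]
  unfold Pool.Agent.Lib.RG.rr
  rw [hq.divisors, sum_insert (by
    rw [mem_singleton]
    exact hq.one_lt.ne), sum_singleton, Nat.cast_one, map_one, hχq]
  norm_num

private theorem Cv1_key {P : Prm} {R : ℕ} [NeZero R] (hP : P.Ok) (χ : DirichletCharacter ℂ R) (hχ : χ ^ 2 = 1) {y0 J1 : ℕ}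
    (hJ1 : 2 * (J1 : ℝ) ≤ (R : ℝ) ^ P.kap) (hy0 : (y0 : ℝ) ≤ (R : ℝ) ^ P.kap) {n' : ℕ} {B : Fin n' → Finset ℕ}
    (hB : ∀ c, ∀ p ∈ B c, p.Prime ∧ χ (p : ZMod R) = -1) {a t : ℕ} (ht : t ∈ TUP B) (hta : t ∣ a) (ha : 0 < a)
    (haR : a ≤ 2 * J1 * R) (hr : Rgh1 P R a) (hD : Pool.Agent.Lib.RH.DA χ a) :
    (∃ v ∈ QM P χ, ∃ n, v * t * n = a) ∨
      (∃ v ∈ VV P R, ∃ n, v * t * n = a ∧ 1 ≤ wt y0 (some (fun n => (χ (n : ZMod R)).re)) n) := by
  classical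
  have hR1 : 1 ≤ R := Nat.one_le_iff_ne_zero.2 (NeZero.ne R)
  have hR1' : (1 : ℝ) ≤ R := by exact_mod_cast hR1
  have hR0 : (0 : ℝ) < R := by linarith
  have hk0 := hP.kap0
  have hk1 := hP.kap1
  obtain ⟨q, hq, hqa, hχq⟩ := Pool.Agent.Lib.RH.DA_prime hχ ha hr.1 hD
  have hqt := Cv1_TUP χ hB ht hq hχq
  have hqM : MM P R < q := hr.2 q hq hqa
  have hcop : q.Coprime t := (Nat.Prime.coprime_iff_not_dvd hq).2 hqt
  obtain ⟨w, hw⟩ := hcop.mul_dvd_of_dvd_of_dvd hqa hta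
  by_cases hc : (q : ℝ) ≤ (R : ℝ) ^ (1 - P.kap)
  · left
    refine ⟨q, ?_, w, hw.symm⟩
    have hqR : q ≤ R := by
      have : (q : ℝ) ≤ R := hc.trans (by
        calc (R : ℝ) ^ (1 - P.kap) ≤ (R : ℝ) ^ (1 : ℝ) :=
              Real.rpow_le_rpow_of_exponent_le hR1' (by linarith)
          _ = R := Real.rpow_one _)
      exact_mod_cast this
    unfold TCF.QM TCF.QS
    rw [mem_filter, mem_filter, mem_range]
    exact ⟨⟨by omega, hq, hqM, hχq⟩, hc⟩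
  · right
    push Not at hc
    have hw0 : 0 < w := by
      rcases Nat.eq_zero_or_pos w with h | h
      · rw [h, mul_zero] at hw
        omega
      · exact h
    have hwa : w ∣ a := ⟨q * t, by rw [hw]; ring⟩
    have hqw : q * w ≤ a := by
      rw [hw]
      have ht0 : 0 < t := Nat.pos_of_dvd_of_pos hta ha
      calc q * w = q * 1 * w := by ring
        _ ≤ q * t * w := Nat.mul_le_mul_right _ (Nat.mul_le_mul_left _ ht0)
    have hwle : (w : ℝ) ≤ (R : ℝ) ^ (2 * P.kap) := by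
      have h1 : (q : ℝ) * w ≤ 2 * J1 * R := by
        have : q * w ≤ 2 * J1 * R := hqw.trans haR
        exact_mod_cast this
      have h2 : (R : ℝ) ^ (1 - P.kap) * w ≤ (R : ℝ) ^ P.kap * R := by
        calc (R : ℝ) ^ (1 - P.kap) * w ≤ q * w := mul_le_mul_of_nonneg_right hc.le (Nat.cast_nonneg _)
          _ ≤ 2 * J1 * R := h1
          _ ≤ (R : ℝ) ^ P.kap * R := mul_le_mul_of_nonneg_right hJ1 hR0.le
      have h3 : (R : ℝ) ^ P.kap * R = (R : ℝ) ^ (1 - P.kap) * (R : ℝ) ^ (2 * P.kap) := by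
        rw [← Real.rpow_add hR0]
        nth_rewrite 2 [← Real.rpow_one (R : ℝ)]
        rw [← Real.rpow_add hR0]
        congr 1
        ring
      rw [h3] at h2
      exact le_of_mul_le_mul_left h2 (Real.rpow_pos_of_pos hR0 _)
    refine ⟨w, ?_, q, by rw [hw]; ring, ?_⟩
    · unfold VV
      rw [mem_filter, mem_Icc]
      refine ⟨⟨hw0, Nat.le_floor hwle⟩, Nat.Coprime.coprime_dvd_left hwa hr.1, ?_⟩
      intro p hp hpm
      exact hr.2 p hp (hpm.trans hwa)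
    · refine Cv1_wt χ hq ?_ hχq
      have h1 : (y0 : ℝ) < q := by
        refine lt_of_le_of_lt (hy0.trans ?_) hc
        exact Real.rpow_le_rpow_of_exponent_le hR1' (by linarith)
      exact_mod_cast h1

private theorem Cv1_n {v t n a : ℕ} (h : v * t * n = a) (ha : 0 < a) : n ≤ a := by
  rw [← h]
  have h1 : 0 < v * t := by
    rcases Nat.eq_zero_or_pos (v * t) with h2 | h2
    · rw [h2, zero_mul] at h
      omega
    · exact h2
  exact Nat.le_mul_of_pos_left _ h1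

theorem cov1 {P : Prm} {S : MS} {T : TC.Dat} {W0 y1 : ℕ} [NeZero (W0 ^ 2 * T.N)] {D D1 : TCF.Dat} (hP : P.Ok) (hJ : D1.J0 = D.J0)
    (hN : 2 ≤ T.N) (χ : DirichletCharacter ℂ (W0 ^ 2 * T.N)) (hχ : χ ^ 2 = 1)
    (hx : ∀ c, ∀ p ∈ D1.BX c, p.Prime ∧ χ (p : ZMod (W0 ^ 2 * T.N)) = -1) (hy : ∀ c, ∀ p ∈ D1.BY c, p.Prime ∧ χ (p : ZMod (W0 ^ 2 * T.N)) = -1)
    (L : ℝ) (D' r : ℕ) (hD1 : D' ≤ D.J1) (hJ0 : D.J0 ≤ D.J1) (hJ1 : 2 * (D.J1 : ℝ) ≤ ((W0 ^ 2 * T.N : ℕ) : ℝ) ^ P.kap)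
    (hy0 : (T.y0 : ℝ) ≤ ((W0 ^ 2 * T.N : ℕ) : ℝ) ^ P.kap) (x : ℝ) (hx1 : x = 1 ∨ x = -1) :
    Cov (IX P χ) (MI S T D W0 D' (fun n => (χ (n : ZMod (W0 ^ 2 * T.N))).re) L) (BS P S T W0 y1 D1 D' r x) := by
  classical
  intro μ hμ ν hν X hX
  obtain ⟨R, hR⟩ : ∃ R : ℕ, R = W0 ^ 2 * T.N := ⟨_, rfl⟩
  unfold BS at hX
  by_cases hcond : S.prX id μ ∈ TUP D1.BX ∧ S.prY id ν ∈ TUP D1.BY ∧ ¬ S.badpair T 0 y1 μ ν
  swap
  · rw [if_neg hcond] at hX
    simp at hX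
  rw [if_pos hcond] at hX
  obtain ⟨htX, htY, -⟩ := hcond
  unfold BP PS at hX
  rw [mem_filter, mem_filter, mem_Ioc, hJ] at hX
  obtain ⟨⟨⟨hX1, hX2⟩, hdX, hdY, -, hrX, hrY⟩, hlX, hlY⟩ := hX
  obtain ⟨Y, hY⟩ : ∃ Y : ℕ, Y = X - D' * (W0 ^ 2 * T.N) := ⟨_, rfl⟩
  have hXY : X = Y + D' * (W0 ^ 2 * T.N) := by omega
  have hY0 : 0 < Y := by omega
  have hX0 : 0 < X := by omega
  have hYle : Y ≤ D.J0 * (W0 ^ 2 * T.N) := by
    have : (D' + D.J0) * (W0 ^ 2 * T.N) = D' * (W0 ^ 2 * T.N) + D.J0 * (W0 ^ 2 * T.N) := by ring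
    omega
  rw [← hY] at hdY hrY hlY
  have hXle : X ≤ 2 * D.J1 * (W0 ^ 2 * T.N) :=
    hX2.trans (Nat.mul_le_mul_right _ (by omega))
  have hYle' : Y ≤ 2 * D.J1 * (W0 ^ 2 * T.N) := by omega
  have hDN : (wD T (W0 ^ 2 * D')).D * (wD T (W0 ^ 2 * D')).N = D' * (W0 ^ 2 * T.N) := by
    show W0 ^ 2 * D' * T.N = _
    ring
  have hχXY : χ (X : ZMod (W0 ^ 2 * T.N)) = χ (Y : ZMod (W0 ^ 2 * T.N)) := by
    have h1 : ((X : ℕ) : ZMod (W0 ^ 2 * T.N)) = ((Y : ℕ) : ZMod (W0 ^ 2 * T.N)) := by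
      rw [hXY, Nat.cast_add, Nat.cast_mul, ZMod.natCast_self, mul_zero, add_zero]
    rw [h1]
  have hDA : Pool.Agent.Lib.RH.DA χ X ∨ Pool.Agent.Lib.RH.DA χ Y := by
    by_contra hcon
    unfold Pool.Agent.Lib.RH.DA at hcon
    push Not at hcon
    obtain ⟨h1, h2⟩ := hcon
    rw [hχXY, ← h2] at h1
    have h3 : lam X = lam Y := by exact_mod_cast h1
    rw [hlX, hlY] at h3
    rcases hx1 with h4 | h4 <;> rw [h4] at h3 <;> norm_num at h3
  rcases hDA with hDA | hDA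
  · -- kind X
    rcases Cv1_key hP χ hχ hJ1 hy0 hx htX hdX hX0 hXle hrX hDA with ⟨v, hv, n, hn⟩ | ⟨v, hv, n, hn, hw⟩
    · refine ⟨(true, true, v), ?_, n, ?_, hn, ?_⟩
      · unfold IX
        rw [mem_product, mem_union, mem_product]
        exact ⟨mem_univ _, Or.inl ⟨mem_singleton_self _, hv⟩⟩
      · exact (Cv1_n hn hX0).trans hX2
      · show (1 : ℝ) ≤ if D' * (W0 ^ 2 * T.N) < v * S.prX id μ * n ∧ v * S.prX id μ * n ≤ (D' + D.J0) * (W0 ^ 2 * T.N) ∧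
          S.prY id ν ∣ v * S.prX id μ * n - (wD T (W0 ^ 2 * D')).D * (wD T (W0 ^ 2 * D')).N then wt T.y0 none n else 0
        rw [hn, hDN, ← hY, if_pos ⟨hX1, hX2, hdY⟩]
        exact le_refl _
    · refine ⟨(true, false, v), ?_, n, ?_, hn, ?_⟩
      · unfold IX
        rw [mem_product, mem_union, mem_product, mem_product]
        exact ⟨mem_univ _, Or.inr ⟨mem_singleton_self _, hv⟩⟩
      · exact (Cv1_n hn hX0).trans hX2
      · show (1 : ℝ) ≤ if D' * (W0 ^ 2 * T.N) < v * S.prX id μ * n ∧ v * S.prX id μ * n ≤ (D' + D.J0) * (W0 ^ 2 * T.N) ∧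
          S.prY id ν ∣ v * S.prX id μ * n - (wD T (W0 ^ 2 * D')).D * (wD T (W0 ^ 2 * D')).N then
            wt T.y0 (some (fun n => (χ (n : ZMod (W0 ^ 2 * T.N))).re)) n else 0
        rw [hn, hDN, ← hY, if_pos ⟨hX1, hX2, hdY⟩]
        exact hw
  · -- kind Y
    rcases Cv1_key hP χ hχ hJ1 hy0 hy htY hdY hY0 hYle' hrY hDA with ⟨v, hv, n, hn⟩ | ⟨v, hv, n, hn, hw⟩
    · refine ⟨(false, true, v), ?_, n, ?_, ?_, ?_⟩
      · unfold IX
        rw [mem_product, mem_union, mem_product]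
        exact ⟨mem_univ _, Or.inl ⟨mem_singleton_self _, hv⟩⟩
      · exact (Cv1_n hn hY0).trans hYle
      · show v * S.prY id ν * n + (wD T (W0 ^ 2 * D')).D * (wD T (W0 ^ 2 * D')).N = X
        rw [hn, hDN, hXY]
      · show (1 : ℝ) ≤ if 0 < v * S.prY id ν * n ∧ v * S.prY id ν * n ≤ D.J0 * (W0 ^ 2 * T.N) ∧
          S.prX id μ ∣ v * S.prY id ν * n + (wD T (W0 ^ 2 * D')).D * (wD T (W0 ^ 2 * D')).N then wt T.y0 none n else 0
        rw [hn, hDN, ← hXY, if_pos ⟨hY0, hYle, hdX⟩]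
        exact le_refl _
    · refine ⟨(false, false, v), ?_, n, ?_, ?_, ?_⟩
      · unfold IX
        rw [mem_product, mem_union, mem_product, mem_product]
        exact ⟨mem_univ _, Or.inr ⟨mem_singleton_self _, hv⟩⟩
      · exact (Cv1_n hn hY0).trans hYle
      · show v * S.prY id ν * n + (wD T (W0 ^ 2 * D')).D * (wD T (W0 ^ 2 * D')).N = X
        rw [hn, hDN, hXY]
      · show (1 : ℝ) ≤ if 0 < v * S.prY id ν * n ∧ v * S.prY id ν * n ≤ D.J0 * (W0 ^ 2 * T.N) ∧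
          S.prX id μ ∣ v * S.prY id ν * n + (wD T (W0 ^ 2 * D')).D * (wD T (W0 ^ 2 * D')).N then
            wt T.y0 (some (fun n => (χ (n : ZMod (W0 ^ 2 * T.N))).re)) n else 0
        rw [hn, hDN, ← hXY, if_pos ⟨hY0, hYle, hdX⟩]
        exact hw

end Pool.Agent.Lib.T3D
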