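import Pool.Agent.Lib.MP_7b7e48_nt.T3D.Cv1

/-!
# T3D / Vm (60 minutes): the total mass of the covering measures

`w (k, true, q) = J0 R/q`, `w (k, false, v) = L J0 R/v`. PROOF. `∑_{q ∈ QM} 1/q = sgm P χ` (by definition), `∑_{v ∈ VV} 1/v ≤ ∑_{v ≤ R} 1/v ≤ 1 + log R ≤ 2 log R`, two kinds: total `2 J0 R (sgm + L 2 log R) ≤ 2 J0 R (sgm + 2 (log R)^4 sgm) ≤ (log R)^5 sgm J0 R` for `log R ≥ 10`. `P.kap ≤ 1/1000` (`P.Ok`), so `2 κ ≤ 1`.
`TM`: `tmq`: `q ∈ QM P χ`: `ty` first case: `q ≤ R^(1-κ) ≤ R^(1 - κ/2)`; coprime to `R` as `χ q = 1 ≠ 0`; rough: a prime factor of `q` is `q > MM`. `tmv`: `RC_char` (`RC` for `Re χ`, see `TCF/Sgl.lean` or `RG/A2.lean`), `sm`: `χ l = -1`.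
-/

set_option autoImplicit false

open Finset

namespace Pool.Agent.Lib.T3D

open Pool.Agent.Lib.RG (Rough LV RC PZ)
open Pool.Agent.Lib.RH (Prm MM JJ Blk)
open Pool.Agent.Lib.TC (MS Msr)
open Pool.Agent.Lib.TCB (famX famY CR wD Wei dq BdS lenW dvW gW LW t2W)
open Pool.Agent.Lib.TCF (TUP rho TM Rgh1 wt AP QS QM sgm)
open Pool.Agent.Lib.MP_45349e_nt.LS (lam)

noncomputable def wI (P : Prm) (D : TCF.Dat) (R : ℕ) (L : ℝ) (i : Bool × Bool × ℕ) : ℝ :=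
  if i.2.1 then 1 * (D.J0 * (R : ℝ)) / i.2.2 else L * (D.J0 * (R : ℝ)) / i.2.2

private theorem Vm_harm (n : ℕ) : ∑ v ∈ Finset.Icc 1 n, 1 / (v : ℝ) ≤ 1 + Real.log n := by
  have h1 := harmonic_le_one_add_log n
  rw [harmonic_eq_sum_Icc] at h1
  push_cast at h1
  simpa only [one_div] using h1

theorem mass_all {P : Prm} (hP : P.Ok) {R : ℕ} (hR : 10 ≤ Real.log R) (χ : DirichletCharacter ℂ R) {D : TCF.Dat} {L : ℝ} (hL0 : 0 ≤ L)
    (hL : L ≤ (Real.log R) ^ 3 * sgm P χ) :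
    ∑ i ∈ IX P χ, wI P D R L i ≤ (Real.log R) ^ 5 * sgm P χ * (D.J0 * (R : ℝ)) := by
  classical
  obtain ⟨K, hK⟩ : ∃ K, K = Real.log R := ⟨_, rfl⟩
  rw [← hK] at hR hL ⊢
  have hR0 : (0 : ℝ) < R := by
    by_contra h
    have h1 : (R : ℝ) = 0 := le_antisymm (not_lt.1 h) (Nat.cast_nonneg _)
    rw [h1, Real.log_zero] at hK
    linarith
  have hs0 : 0 ≤ sgm P χ := by
    unfold sgm
    exact Finset.sum_nonneg fun q _ => by positivity
  obtain ⟨A, hA⟩ : ∃ A, A = D.J0 * (R : ℝ) := ⟨_, rfl⟩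
  have hA0 : 0 ≤ A := by rw [hA]; positivity
  have hV : ∑ v ∈ VV P R, 1 / (v : ℝ) ≤ 1 + K := by
    have h1 : ∑ v ∈ VV P R, 1 / (v : ℝ) ≤ ∑ v ∈ Finset.Icc 1 ⌊(R : ℝ) ^ (2 * P.kap)⌋₊, 1 / (v : ℝ) := by
      unfold VV
      exact Finset.sum_le_sum_of_subset_of_nonneg (Finset.filter_subset _ _) fun v _ _ => by positivity
    refine (h1.trans (Vm_harm _)).trans ?_
    have hR1 : 1 ≤ (R : ℝ) := by
      by_contra h
      have h2 := Real.log_nonpos hR0.le (not_le.1 h).le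
      linarith
    have h2 : (1 : ℝ) ≤ (R : ℝ) ^ (2 * P.kap) := Real.one_le_rpow hR1 (by have := hP.kap0; linarith)
    have h3 : 0 < ⌊(R : ℝ) ^ (2 * P.kap)⌋₊ := Nat.floor_pos.2 h2
    have h4 : (⌊(R : ℝ) ^ (2 * P.kap)⌋₊ : ℝ) ≤ (R : ℝ) ^ (2 * P.kap) := Nat.floor_le (by linarith)
    have h5 := Real.log_le_log (by exact_mod_cast h3) h4
    rw [Real.log_rpow hR0, ← hK] at h5
    have h6 : 2 * P.kap * K ≤ 1 * K := mul_le_mul_of_nonneg_right (by have := hP.kap1; linarith) (by linarith)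
    linarith
  have hd : Disjoint (({true} : Finset Bool) ×ˢ QM P χ) (({false} : Finset Bool) ×ˢ VV P R) := by
    rw [Finset.disjoint_left]
    intro a h1 h2
    rw [Finset.mem_product, Finset.mem_singleton] at h1 h2
    rw [h1.1] at h2
    exact absurd h2.1 (by decide)
  have e1 : ∑ i ∈ IX P χ, wI P D R L i = 2 * (A * sgm P χ + L * A * ∑ v ∈ VV P R, 1 / (v : ℝ)) := by
    unfold IX
    rw [Finset.sum_product]
    have h1 : ∀ b ∈ (Finset.univ : Finset Bool), ∑ y ∈ (({true} : Finset Bool) ×ˢ QM P χ) ∪ (({false} : Finset Bool) ×ˢ VV P R), wI P D R L (b, y) =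
        A * sgm P χ + L * A * ∑ v ∈ VV P R, 1 / (v : ℝ) := by
      intro b _
      rw [Finset.sum_union hd, Finset.sum_product, Finset.sum_product, Finset.sum_singleton, Finset.sum_singleton]
      unfold sgm
      rw [Finset.mul_sum, Finset.mul_sum]
      refine congrArg₂ (· + ·) ?_ ?_
      · refine Finset.sum_congr rfl fun q _ => ?_
        show 1 * (D.J0 * (R : ℝ)) / q = A * (1 / q)
        rw [← hA]
        ring
      · refine Finset.sum_congr rfl fun q _ => ?_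
        show L * (D.J0 * (R : ℝ)) / q = L * A * (1 / q)
        rw [← hA]
        ring
    rw [Finset.sum_congr rfl h1, Finset.sum_const, Finset.card_univ, Fintype.card_bool, nsmul_eq_mul]
    norm_num
  rw [e1, ← hA]
  obtain ⟨σ, hσ⟩ : ∃ σ, σ = sgm P χ := ⟨_, rfl⟩
  rw [← hσ] at hs0 hL ⊢
  have h1 : L * A * ∑ v ∈ VV P R, 1 / (v : ℝ) ≤ (K ^ 3 * σ) * A * (1 + K) :=
    mul_le_mul (mul_le_mul_of_nonneg_right hL hA0) hV (Finset.sum_nonneg fun v _ => by positivity) (by positivity)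
  have h2 : 2 * (1 + K ^ 3 * (1 + K)) ≤ K ^ 5 := by
    have h3 : 10 * K ^ 4 ≤ K * K ^ 4 := mul_le_mul_of_nonneg_right hR (by positivity)
    have h4 : 10 * K ^ 3 ≤ K * K ^ 3 := mul_le_mul_of_nonneg_right hR (by positivity)
    have h5 : (1 : ℝ) ≤ K ^ 3 := one_le_pow₀ (by linarith)
    nlinarith
  calc 2 * (A * σ + L * A * ∑ v ∈ VV P R, 1 / (v : ℝ)) ≤ 2 * (A * σ + (K ^ 3 * σ) * A * (1 + K)) := by linarith
    _ = (2 * (1 + K ^ 3 * (1 + K))) * (σ * A) := by ring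
    _ ≤ K ^ 5 * (σ * A) := mul_le_mul_of_nonneg_right h2 (by positivity)
    _ = _ := by ring

theorem tmq {P : Prm} (hP : P.Ok) {R : ℕ} [NeZero R] (hR : 2 ≤ R) (χ : DirichletCharacter ℂ R) {q : ℕ} (hq : q ∈ QM P χ) : TM P R q none 1 := by
  classical
  unfold QM QS at hq
  rw [Finset.mem_filter, Finset.mem_filter] at hq
  obtain ⟨⟨-, hqp, hqM, hq1⟩, hqR⟩ := hq
  have hR1 : (1 : ℝ) ≤ R := by exact_mod_cast (by omega : 1 ≤ R)
  refine ⟨hqp.pos, ?_, ?_, Or.inl ⟨rfl, rfl, ?_⟩, ?_⟩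
  · rw [← ZMod.isUnit_iff_coprime]
    by_contra h
    rw [MulChar.map_nonunit χ h] at hq1
    exact zero_ne_one hq1
  · intro p hp hpq
    rw [(Nat.prime_dvd_prime_iff_eq hp hqp).1 hpq]
    exact hqM
  · refine hqR.trans (Real.rpow_le_rpow_of_exponent_le hR1 ?_)
    have := hP.kap0
    linarith
  · intro c hc
    exact absurd hc (by simp)

theorem tmv {P : Prm} (hP : P.Ok) {R : ℕ} [NeZero R] (hR : 2 ≤ R) (χ : DirichletCharacter ℂ R) (hχ : χ ^ 2 = 1) (h1 : χ ≠ 1)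
    (hl : ∀ l ∈ PZ R (MM P R), χ (l : ZMod R) = -1) {L : ℝ} (hL : LV R (fun n => (χ (n : ZMod R)).re) L) (hLl : (R : ℝ) ^ (-(1 / 200) : ℝ) ≤ L)
    {v : ℕ} (hv : v ∈ VV P R) : TM P R v (some (fun n => (χ (n : ZMod R)).re)) L := by
  classical
  unfold VV at hv
  rw [Finset.mem_filter, Finset.mem_Icc] at hv
  obtain ⟨⟨hv1, hv2⟩, hvc, hvr⟩ := hv
  refine ⟨hv1, hvc, hvr, Or.inr ⟨_, rfl, RG.RC_char R hR χ hχ h1, hL, hLl, ?_⟩, ?_⟩
  · exact (Nat.cast_le.2 hv2).trans (Nat.floor_le (by positivity))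
  · intro c hc l hlz
    rw [← Option.some.inj hc]
    show (χ (l : ZMod R)).re = -1
    rw [hl l hlz]
    simp

end Pool.Agent.Lib.T3D
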