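import Pool.Agent.Lib.MP_7b7e48_nt.TCF.Numx
import Pool.Agent.Lib.MP_7b7e48_nt.T3D.Tok
import Pool.Agent.Lib.MP_7b7e48_nt.T3D.Cls
import Pool.Agent.Lib.MP_7b7e48_nt.T3D.Ad
import Pool.Agent.Lib.MP_7b7e48_nt.T3D.Cv1
import Pool.Agent.Lib.MP_7b7e48_nt.T3D.Vm
import Pool.Agent.Lib.MP_7b7e48_nt.T3D.Num
import Pool.Agent.Lib.MP_7b7e48_nt.T3E.Fin
import Pool.Agent.Lib.MP_7b7e48_nt.T3E.Mass
import Pool.Agent.Lib.MP_7b7e48_nt.TCF.Siz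

/-!
# T3D / A1 (110 minutes): the input a1

`R = W0^2 T.N`, `D1 = D.del (QS P χ)` (`J0, J1, J2, y0` as in `D`, `TUP D1 ⊆ TUP D` by `TCF.tup_mono`). PROOF. As `a0_thm`, with `ap_dec` for `D1`; `cls_bound` with `I = IX P χ`, `M = MI ..`, `w = wI P D R L` (`tX_ok`, `tY_ok`, `tmq`, `tmv`), `cov1` for `x = 1` and `x = -1` (`2 J1 ≤ R^κ`, `y0 ≤ R^κ`: `J1 ≤ y0 ≤ K^Cp`), `mass_all`: `∑ w ≤ (log R)^5 sgm J0 R`;
`SID = sgm rho BX1 rho BY1 N/K^A ≤ sgm rho BX rho BY N/K^A` from `T3E.balc` for `D1` with `σ = sgm P χ`: `T3E.xsig` with `δ = min (1/5000) (e3/8)` gives `N^(-1/5000) ≤ sgm`, `N^(-e3/8) ≤ sgm` (`N ≥ 1`: `N^(-δ') ≤ N^(-δ)` for `δ ≤ δ'`), `L ≤ (log R)^3 sgm ≤ (log N)^4 sgm`, the sum over `QP`; the `m`: `TCB.exists_small P hP (W0^2)` (`l ∈ PZ`, `l ≡ 1 [MOD W0^2]`, `χ l = -1 ≠ 1`, coprime to `R`).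
`root_le` with `σ = sgm P χ`, `fin_le` with `σ = sgm P χ` for `D` (`Brg3.ok`).
-/

set_option autoImplicit false

open Finset

namespace Pool.Agent.Lib.T3D

open Pool.Agent.Lib.RG (Rough LV RC PZ)
open Pool.Agent.Lib.RH (Prm MM JJ Blk)
open Pool.Agent.Lib.TC (MS Msr)
open Pool.Agent.Lib.TCB (famX famY CR wD Wei dq BdS lenW dvW gW LW t2W)
open Pool.Agent.Lib.TCF (TUP rho TM Rgh1 wt AP QS QM sgm)
open Pool.Agent.Lib.MP_45349e_nt.LS (lam)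

private theorem A1_rho_nonneg {n : ℕ} (B : Fin n → Finset ℕ) : 0 ≤ rho B := by
  unfold rho
  exact prod_nonneg fun c _ => sum_nonneg fun p _ => by positivity

private theorem A1_rho_mono {n : ℕ} {B B' : Fin n → Finset ℕ} (h : ∀ c, B' c ⊆ B c) : rho B' ≤ rho B := by
  unfold rho
  refine prod_le_prod (fun c _ => sum_nonneg fun p _ => by positivity) fun c _ => ?_
  exact sum_le_sum_of_subset_of_nonneg (h c) fun p _ _ => by positivity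

private theorem A1_num (P : Prm) (hP : P.Ok) (W0 : ℕ) (hW : 0 < W0) : ∃ N0 : ℕ, ∀ N : ℕ, N0 ≤ N →
    2 ≤ N ∧ TCF.NumX P (W0 ^ 2 * N) ∧ 1 ≤ Real.log N ∧ (W0 : ℝ) ^ 2 ≤ (Real.log N) ^ 3 := by
  obtain ⟨NX, hNX⟩ := TCF.numx P hP
  have h1 : Filter.Tendsto (fun N : ℕ => Real.log N) Filter.atTop Filter.atTop :=
    Real.tendsto_log_atTop.comp tendsto_natCast_atTop_atTop
  obtain ⟨N1, hN1⟩ := Filter.eventually_atTop.mp (h1.eventually_ge_atTop (max (W0 : ℝ) 1))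
  refine ⟨max N1 (max 2 NX), fun N hN => ?_⟩
  have hNN1 : N1 ≤ N := (le_max_left _ _).trans hN
  have hN2 : 2 ≤ N := (le_max_left _ _).trans ((le_max_right _ _).trans hN)
  have hNX' : NX ≤ N := (le_max_right _ _).trans ((le_max_right _ _).trans hN)
  have hlog := hN1 N hNN1
  have hlW : (W0 : ℝ) ≤ Real.log N := (le_max_left _ _).trans hlog
  have hl1 : 1 ≤ Real.log N := (le_max_right _ _).trans hlog
  refine ⟨hN2, hNX _ (hNX'.trans (Nat.le_mul_of_pos_left _ (by positivity))), hl1, ?_⟩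
  calc (W0 : ℝ) ^ 2 ≤ (Real.log N) ^ 2 := pow_le_pow_left₀ (Nat.cast_nonneg _) hlW 2
    _ ≤ (Real.log N) ^ 3 := pow_le_pow_right₀ hl1 (by norm_num)

private theorem A1_tms {P : Prm} (hP : P.Ok) {W0 : ℕ} {S : MS} {T : TC.Dat} [NeZero (W0 ^ 2 * T.N)] {D : TCF.Dat} {δ0 δ1 : ℝ} (hR : 2 ≤ W0 ^ 2 * T.N)
    (χ : DirichletCharacter ℂ (W0 ^ 2 * T.N)) (hχ : χ ^ 2 = 1) (h1 : χ ≠ 1)
    (hl : ∀ l ∈ PZ (W0 ^ 2 * T.N) (MM P (W0 ^ 2 * T.N)), χ (l : ZMod (W0 ^ 2 * T.N)) = -1) {L : ℝ}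
    (hL : LV (W0 ^ 2 * T.N) (fun n => (χ (n : ZMod (W0 ^ 2 * T.N))).re) L) (hLl : ((W0 ^ 2 * T.N : ℕ) : ℝ) ^ (-(1 / 200) : ℝ) ≤ L) {D' : ℕ}
    (hX : ∀ (v : ℕ) (o : Option (ℕ → ℝ)) (L : ℝ), TM P (W0 ^ 2 * T.N) v o L →
      TMs (tX S T D W0 D' v o L) (wD T (W0 ^ 2 * D')) W0 δ0 δ1 (rho D.BX * rho D.BY) (L * (D.J0 * (W0 ^ 2 * T.N : ℕ)) / v))
    (hY : ∀ (v : ℕ) (o : Option (ℕ → ℝ)) (L : ℝ), TM P (W0 ^ 2 * T.N) v o L →
      TMs (tY S T D W0 D' v o L) (wD T (W0 ^ 2 * D')) W0 δ0 δ1 (rho D.BX * rho D.BY) (L * (D.J0 * (W0 ^ 2 * T.N : ℕ)) / v)) :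
    ∀ i ∈ IX P χ, TMs (MI S T D W0 D' (fun n => (χ (n : ZMod (W0 ^ 2 * T.N))).re) L i) (wD T (W0 ^ 2 * D')) W0 δ0 δ1 (rho D.BX * rho D.BY)
      (wI P D (W0 ^ 2 * T.N) L i) := by
  rintro ⟨a, b, v⟩ hi
  unfold IX at hi
  rw [mem_product, mem_union, mem_product, mem_product] at hi
  obtain ⟨-, ⟨hb, hv⟩ | ⟨hb, hv⟩⟩ := hi
  · have hb' : b = true := mem_singleton.1 hb
    subst hb'
    have ht := tmq hP hR χ hv
    cases a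
    · exact hY v none 1 ht
    · exact hX v none 1 ht
  · have hb' : b = false := mem_singleton.1 hb
    subst hb'
    have ht := tmv hP hR χ hχ h1 hl hL hLl hv
    cases a
    · exact hY v _ L ht
    · exact hX v _ L ht

open Classical in
private theorem A1_bp1 (P : Prm) (W N D' a b r t t' : ℕ) : BP P W N D' a b r t t' 1 =
    (T3E.PSW P W N D' a b r t t').filter fun X => lam X = -1 ∧ lam (X - D' * (W ^ 2 * N)) = 1 := by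
  unfold BP
  rfl

open Classical in
private theorem A1_bp2 (P : Prm) (W N D' a b r t t' : ℕ) : BP P W N D' a b r t t' (-1) =
    (T3E.PSW P W N D' a b r t t').filter fun X => lam X = 1 ∧ lam (X - D' * (W ^ 2 * N)) = -1 := by
  unfold BP
  rw [neg_neg]
  rfl

open Classical in
theorem a1_thm (P : Prm) (hP : P.Ok) (W0 Cp : ℕ) (hW : 0 < W0) {δ0 δ1 δm δ2 e3 : ℝ} (hE : Exps3 P.kap Cp δ0 δ1 δm δ2 e3) :
    ∃ N0 : ℕ, ∀ (S : MS) (T : TC.Dat) [NeZero (W0 ^ 2 * T.N)] (y1 : ℕ) (D : TCF.Dat) (ε s u : ℝ), N0 ≤ T.N → Even T.N →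
    Brg3 P S T W0 y1 D Cp δ0 δ1 δm δ2 ε e3 s u →
    ∀ χ : DirichletCharacter ℂ (W0 ^ 2 * T.N), χ ^ 2 = 1 → χ ≠ 1 → (∀ l ∈ PZ (W0 ^ 2 * T.N) (MM P (W0 ^ 2 * T.N)), χ (l : ZMod (W0 ^ 2 * T.N)) = -1) →
    (D.del (QS P χ)).Ok P (W0 ^ 2 * T.N) →
    (∀ c, ∀ p ∈ (D.del (QS P χ)).BX c, p.Prime ∧ χ (p : ZMod (W0 ^ 2 * T.N)) = -1) →
    (∀ c, ∀ p ∈ (D.del (QS P χ)).BY c, p.Prime ∧ χ (p : ZMod (W0 ^ 2 * T.N)) = -1) →
    ∀ L : ℝ, LV (W0 ^ 2 * T.N) (fun n => (χ (n : ZMod (W0 ^ 2 * T.N))).re) L → ((W0 ^ 2 * T.N : ℕ) : ℝ) ^ (-(1 / 200) : ℝ) ≤ L →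
    L ≤ (Real.log ((W0 ^ 2 * T.N : ℕ) : ℝ)) ^ 3 * sgm P χ →
    ∑ x : ZMod (W0 ^ 2 * T.N), (if IsUnit x then AP P (W0 ^ 2 * T.N) (D.del (QS P χ)) (fun _ _ _ _ => True) (BdS S T y1) 1 x else 0) ≤
      sgm P χ * ((W0 ^ 2 * T.N : ℕ) * ((D.J1 * rho D.BX) * (D.J0 * rho D.BY)) / ((JJ (W0 ^ 2 * T.N) : ℝ) ^ 4 * (MM P (W0 ^ 2 * T.N) : ℝ) ^ 4)) := by
  have he3 : 0 < e3 := hE.a5
  have hδ : 0 < min ((1 : ℝ) / 5000) (e3 / 8) := lt_min (by norm_num) (by linarith)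
  obtain ⟨N1, h1⟩ := tX_ok P hP W0 Cp hE
  obtain ⟨N2, h2⟩ := tY_ok P hP W0 Cp hE
  obtain ⟨N3, h3⟩ := root_le P hP W0 Cp hE
  obtain ⟨A, N4, h4⟩ := fin_le P hP W0 hW
  obtain ⟨N5, h5⟩ := T3E.balc P hP W0 hW A (Cp + 3)
  obtain ⟨N6, h6⟩ := T3E.xsig P hP W0 hW _ hδ
  obtain ⟨N7, h7⟩ := TCB.exists_small P hP (W0 ^ 2) (Nat.one_le_pow _ _ hW)
  obtain ⟨N8, h8⟩ := A1_num P hP W0 hW
  refine ⟨N1 + N2 + N3 + N4 + N5 + N6 + N7 + N8, fun S T _ y1 D ε s u hN hev hB χ hχ hχ1 hl hD1 hx hy L hLV hLl hLu => ?_⟩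
  obtain ⟨hN2, hnx, hK1, hW3⟩ := h8 T.N (by omega)
  have hW2 : 0 < W0 ^ 2 := by positivity
  have hNR : T.N ≤ W0 ^ 2 * T.N := Nat.le_mul_of_pos_left _ hW2
  have hR2 : 2 ≤ W0 ^ 2 * T.N := hN2.trans hNR
  have hR1 : (1 : ℝ) ≤ ((W0 ^ 2 * T.N : ℕ) : ℝ) := by exact_mod_cast (by omega : 1 ≤ W0 ^ 2 * T.N)
  have hNr : (1 : ℝ) ≤ (T.N : ℝ) := by exact_mod_cast (by omega : 1 ≤ T.N)
  obtain ⟨m1, m2, m3⟩ := h6 T.N (by omega) χ hχ hχ1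
  have hs1 : (T.N : ℝ) ^ (-(1 / 5000) : ℝ) ≤ sgm P χ := by
    refine le_trans (Real.rpow_le_rpow_of_exponent_le hNr ?_) m1
    have := min_le_left ((1 : ℝ) / 5000) (e3 / 8)
    linarith
  have hs2 : (T.N : ℝ) ^ (-(e3 / 8) : ℝ) ≤ sgm P χ := by
    refine le_trans (Real.rpow_le_rpow_of_exponent_le hNr ?_) m1
    have := min_le_right ((1 : ℝ) / 5000) (e3 / 8)
    linarith
  have hs0 : 0 ≤ sgm P χ := le_trans (by positivity) hs1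
  have hL0 : 0 ≤ L := le_trans (by positivity) hLl
  -- the sub-data
  have hsubx : ∀ c, (D.del (QS P χ)).BX c ⊆ D.BX c := fun c => sdiff_subset
  have hsuby : ∀ c, (D.del (QS P χ)).BY c ⊆ D.BY c := fun c => sdiff_subset
  have hsx : TUP (D.del (QS P χ)).BX ⊆ TUP D.BX := TCF.tup_mono hsubx
  have hsy : TUP (D.del (QS P χ)).BY ⊆ TUP D.BY := TCF.tup_mono hsuby
  have hrx : rho (D.del (QS P χ)).BX ≤ rho D.BX := A1_rho_mono hsubx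
  have hry : rho (D.del (QS P χ)).BY ≤ rho D.BY := A1_rho_mono hsuby
  have hok := hB.ok
  have hJ01 : D.J0 ≤ D.J1 := by
    have e1 := TCF.j0_le hnx hok
    have e2 := TCF.j2_lt hnx hok
    have e3 : 1 ≤ MM P (W0 ^ 2 * T.N) ^ 2 := Nat.one_le_pow _ _ (TCF.mm_one P _)
    have e4 : D.J0 ≤ 8 * MM P (W0 ^ 2 * T.N) ^ 2 * D.J0 := Nat.le_mul_of_pos_left _ (by omega)
    omega
  have hyJ := TCF.y0_J1 hnx hok
  have hJ0pos := hok.j0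
  have hj20 : D.J0 ≤ D.J2 := by
    have e1 := TCF.j0_le hnx hok
    have e3 : 1 ≤ MM P (W0 ^ 2 * T.N) ^ 2 := Nat.one_le_pow _ _ (TCF.mm_one P _)
    have e4 : D.J0 ≤ 8 * MM P (W0 ^ 2 * T.N) ^ 2 * D.J0 := Nat.le_mul_of_pos_left _ (by omega)
    omega
  have hk0 := hP.kap0
  have hk1 := hP.kap1
  have hyk : (D.y0 : ℝ) ≤ ((W0 ^ 2 * T.N : ℕ) : ℝ) ^ P.kap :=
    hok.y2.trans (Real.rpow_le_rpow_of_exponent_le hR1 (by linarith))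
  have hyT : (T.y0 : ℝ) ≤ ((W0 ^ 2 * T.N : ℕ) : ℝ) ^ P.kap := by
    rw [← hB.ey]
    exact hyk
  have hJk : 2 * (D.J1 : ℝ) ≤ ((W0 ^ 2 * T.N : ℕ) : ℝ) ^ P.kap := by
    refine le_trans ?_ hyk
    exact_mod_cast hyJ
  have hyK : (D.y0 : ℝ) ≤ (Real.log T.N) ^ Cp := by
    rw [hB.ey]
    exact hB.y0le
  -- the character is not trivial on the class
  have hm0 : ∃ m : ℕ, m ≡ 1 [MOD W0 ^ 2] ∧ m.Coprime (W0 ^ 2 * T.N) ∧ χ (m : ZMod (W0 ^ 2 * T.N)) ≠ 1 := by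
    obtain ⟨l, hl1, hl2⟩ := h7 (W0 ^ 2 * T.N) (by omega)
    refine ⟨l, hl2, ?_, ?_⟩
    · obtain ⟨-, -, a3, a4⟩ := Pool.Agent.Lib.RG.mem_PZ.mp hl1
      exact (Nat.Prime.coprime_iff_not_dvd a3).mpr a4
    · rw [hl l hl1]
      norm_num
  have hR10 : 10 ≤ Real.log ((W0 ^ 2 * T.N : ℕ) : ℝ) := le_trans (by norm_num) hnx.num.K
  have hmass := mass_all hP hR10 χ (D := D) hL0 hLu
  have hw0 : 0 ≤ ∑ i ∈ IX P χ, wI P D (W0 ^ 2 * T.N) L i := by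
    refine sum_nonneg fun i _ => ?_
    unfold wI
    split_ifs <;> positivity
  have hroot := h3 S T y1 D ε s u (by omega) hB (sgm P χ) _ hs2 hw0 hmass
  -- one difference and one class
  have hmain : ∀ D' ∈ Ioo ((D.del (QS P χ)).J2 - (D.del (QS P χ)).J0) (D.del (QS P χ)).J1, ∀ r ∈ range W0,
      ∑ t ∈ TUP (D.del (QS P χ)).BX, ∑ t' ∈ (TUP (D.del (QS P χ)).BY).filter (fun t' => ¬ BdS S T y1 t t'),
        (((BP P W0 T.N D' (D' * (W0 ^ 2 * T.N)) ((D' + (D.del (QS P χ)).J0) * (W0 ^ 2 * T.N)) r t t' 1).card : ℝ) +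
          (BP P W0 T.N D' (D' * (W0 ^ 2 * T.N)) ((D' + (D.del (QS P χ)).J0) * (W0 ^ 2 * T.N)) r t t' (-1)).card) ≤
      sgm P χ * (rho D.BX * rho D.BY * T.N) / (Real.log T.N) ^ A +
        2 * ((rho D.BX * rho D.BY) * sgm P χ * (D.J0 * ((W0 ^ 2 * T.N : ℕ) : ℝ)) /
          ((JJ (W0 ^ 2 * T.N) : ℝ) ^ 5 * (MM P (W0 ^ 2 * T.N) : ℝ) ^ 5)) := by
    intro D' hD' r _
    rw [mem_Ioo] at hD'
    have hD'1 : D.J2 - D.J0 < D' := hD'.1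
    have hD'2 : D' < D.J1 := hD'.2
    have hD0 : 0 < D' := by omega
    have hDJ : D.J2 < D' + D.J0 := by omega
    have hb : (((D' + (D.del (QS P χ)).J0) * (W0 ^ 2 * T.N) : ℕ) : ℝ) ≤ (Real.log T.N) ^ (Cp + 3) * T.N := by
      have e1 : D' + (D.del (QS P χ)).J0 ≤ D.y0 := by
        show D' + D.J0 ≤ D.y0
        omega
      have e2 : ((D' + (D.del (QS P χ)).J0 : ℕ) : ℝ) ≤ (Real.log T.N) ^ Cp :=
        le_trans (by exact_mod_cast e1) hyK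
      have e3 : (((D' + (D.del (QS P χ)).J0) * (W0 ^ 2 * T.N) : ℕ) : ℝ) =
          ((D' + (D.del (QS P χ)).J0 : ℕ) : ℝ) * ((W0 : ℝ) ^ 2 * T.N) := by
        push_cast
        ring
      rw [e3]
      calc ((D' + (D.del (QS P χ)).J0 : ℕ) : ℝ) * ((W0 : ℝ) ^ 2 * T.N)
          ≤ (Real.log T.N) ^ Cp * ((Real.log T.N) ^ 3 * T.N) := by
            refine mul_le_mul e2 (mul_le_mul_of_nonneg_right hW3 (by positivity)) (by positivity) (by positivity)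
        _ = _ := by ring
    have hbal := h5 T.N (by omega) hev χ hχ hχ1 hm0 L hL0 hLV (sgm P χ) hs1 (hLu.trans m2) m3
      (D.del (QS P χ)) hD1 (fun c p hp => (hx c p hp).2) (fun c p hp => (hy c p hp).2) D'
      (D' * (W0 ^ 2 * T.N)) ((D' + (D.del (QS P χ)).J0) * (W0 ^ 2 * T.N)) r hD0 hD'2.le le_rfl
      (Nat.mul_le_mul_right _ (Nat.le_add_right _ _)) hb
    have hSID : ∑ t ∈ TUP (D.del (QS P χ)).BX, ∑ t' ∈ TUP (D.del (QS P χ)).BY,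
        |((BP P W0 T.N D' (D' * (W0 ^ 2 * T.N)) ((D' + (D.del (QS P χ)).J0) * (W0 ^ 2 * T.N)) r t t' 1).card : ℝ) -
          (BP P W0 T.N D' (D' * (W0 ^ 2 * T.N)) ((D' + (D.del (QS P χ)).J0) * (W0 ^ 2 * T.N)) r t t' (-1)).card| ≤
        sgm P χ * (rho D.BX * rho D.BY * T.N) / (Real.log T.N) ^ A := by
      refine le_trans (le_of_eq ?_) (hbal.trans ?_)
      · refine sum_congr rfl fun t _ => sum_congr rfl fun t' _ => ?_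
        rw [A1_bp1, A1_bp2]
      · have a1 := A1_rho_nonneg (D.del (QS P χ)).BX
        have a2 := A1_rho_nonneg (D.del (QS P χ)).BY
        have a3 := A1_rho_nonneg D.BX
        gcongr
    have hcls := cls_bound hB (D1 := D.del (QS P χ)) rfl hsx hsy (r := r) hD0 hD'2.le (IX P χ)
      (MI S T D W0 D' (fun n => (χ (n : ZMod (W0 ^ 2 * T.N))).re) L) (wI P D (W0 ^ 2 * T.N) L)
      (A1_tms hP hR2 χ hχ hχ1 hl hLV hLl
        (fun v o L' ht => h1 S T y1 D ε s u (by omega) hB v o L' ht D' hDJ hD'2.le)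
        (fun v o L' ht => h2 S T y1 D ε s u (by omega) hB v o L' ht D' hDJ hD'2.le))
      (cov1 hP rfl hN2 χ hχ hx hy L D' r hD'2.le hJ01 hJk hyT 1 (Or.inl rfl))
      (cov1 hP rfl hN2 χ hχ hx hy L D' r hD'2.le hJ01 hJk hyT (-1) (Or.inr rfl)) _ hSID
    refine hcls.trans ?_
    linarith
  refine (ap_dec hW hN2 hD1 (BdS S T y1)).trans ?_
  refine le_trans ?_ (h4 T.N D (by omega) hok (sgm P χ) hs0)
  set E : ℝ := sgm P χ * (rho D.BX * rho D.BY * T.N) / (Real.log T.N) ^ A +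
        2 * ((rho D.BX * rho D.BY) * sgm P χ * (D.J0 * ((W0 ^ 2 * T.N : ℕ) : ℝ)) /
          ((JJ (W0 ^ 2 * T.N) : ℝ) ^ 5 * (MM P (W0 ^ 2 * T.N) : ℝ) ^ 5)) with hE'
  have hE0 : 0 ≤ E := by
    have a1 := A1_rho_nonneg D.BX
    have a2 := A1_rho_nonneg D.BY
    rw [hE']
    have a3 : 0 ≤ Real.log T.N := by linarith
    positivity
  calc ∑ D' ∈ Ioo ((D.del (QS P χ)).J2 - (D.del (QS P χ)).J0) (D.del (QS P χ)).J1, ∑ r ∈ range W0,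
        ∑ t ∈ TUP (D.del (QS P χ)).BX, ∑ t' ∈ (TUP (D.del (QS P χ)).BY).filter (fun t' => ¬ BdS S T y1 t t'),
        (((BP P W0 T.N D' (D' * (W0 ^ 2 * T.N)) ((D' + (D.del (QS P χ)).J0) * (W0 ^ 2 * T.N)) r t t' 1).card : ℝ) +
          (BP P W0 T.N D' (D' * (W0 ^ 2 * T.N)) ((D' + (D.del (QS P χ)).J0) * (W0 ^ 2 * T.N)) r t t' (-1)).card)
      ≤ ∑ D' ∈ Ioo ((D.del (QS P χ)).J2 - (D.del (QS P χ)).J0) (D.del (QS P χ)).J1, ∑ r ∈ range W0, E :=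
        sum_le_sum fun D' hD' => sum_le_sum fun r hr => hmain D' hD' r hr
    _ = ((Ioo ((D.del (QS P χ)).J2 - (D.del (QS P χ)).J0) (D.del (QS P χ)).J1).card : ℝ) * (W0 * E) := by
        rw [sum_const, sum_const, card_range, nsmul_eq_mul, nsmul_eq_mul]
    _ ≤ (D.J1 : ℝ) * (W0 * E) := by
        refine mul_le_mul_of_nonneg_right ?_ (by positivity)
        rw [Nat.card_Ioo]
        have e1 : (D.del (QS P χ)).J1 - ((D.del (QS P χ)).J2 - (D.del (QS P χ)).J0) - 1 ≤ D.J1 := by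
          show D.J1 - (D.J2 - D.J0) - 1 ≤ D.J1
          omega
        exact_mod_cast e1

end Pool.Agent.Lib.T3D
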