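import Pool.Agent.Lib.MP_7b7e48_nt.T3D.A0
import Pool.Agent.Lib.MP_7b7e48_nt.T3D.A1
import Pool.Agent.Lib.MP_7b7e48_nt.T3F.Frame

/-!
# T3D / Ap3 (60 minutes): the input of the frame on the signs

PROOF. `a0`: `a0_thm`. `a1`: `a1_thm`; `(D.del (QS P χ)).Ok`: `T3F.del_ok` (`TCF.qsm`, `TCF.qs_str` for both families, from `Blk P N 12 (-1) χ`); all primes of the families of `D.del (QS P χ)` are primes with `χ = -1` (as `TCF.fx_del`, for both families: `p ≤ R` because `p` divides a tuple, `p > y0 ≥ MM`, `p ∤ R`).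
-/

set_option autoImplicit false

open Finset

namespace Pool.Agent.Lib.T3D

open Pool.Agent.Lib.RG (Rough LV RC PZ)
open Pool.Agent.Lib.RH (Prm MM JJ Blk)
open Pool.Agent.Lib.TC (MS Msr)
open Pool.Agent.Lib.TCB (wD BdS)
open Pool.Agent.Lib.TCF (TUP rho TM Rgh1 wt AP QS QM sgm Base)

/-- the elements of the sets of a family are small -/
private theorem ap3_le {P : Prm} {N y0 n : ℕ} (hn : TCF.NumX P N) {B : Fin n → Finset ℕ} (hB : TCF.FamOk P N y0 B) (c : Fin n)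
    {p : ℕ} (hp : p ∈ B c) : (p : ℝ) ≤ (N : ℝ) ^ (P.kap / 100) := by
  classical
  have hK0 : 0 < Real.log N := lt_of_lt_of_le (by norm_num) (TCF.hK hn)
  have hne : ∀ c', ∃ q, q ∈ B c' := by
    intro c'
    by_contra h
    have he : B c' = ∅ := by
      refine eq_empty_of_forall_notMem fun q hq => h ⟨q, hq⟩
    have h1 := hB.lo c'
    rw [he, sum_empty] at h1
    have h2 : 0 < 1 / (Real.log N) ^ 3 := by positivity
    linarith
  choose m hm using hne
  have hm' : ∀ c', Function.update m c p c' ∈ B c' := by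
    intro c'
    by_cases h : c' = c
    · subst h
      rw [Function.update_self]
      exact hp
    · rw [Function.update_of_ne h]
      exact hm c'
  have ht : ∏ c', Function.update m c p c' ∈ TUP B := by
    rw [TUP, mem_image]
    exact ⟨_, Fintype.mem_piFinset.2 hm', rfl⟩
  have h1 := hB.tup _ ht
  have h2 : p ≤ ∏ c', Function.update m c p c' := by
    refine Nat.le_of_dvd (prod_pos fun c' _ => (hB.pr c' _ (hm' c')).1.pos) ?_
    have h3 := dvd_prod_of_mem (Function.update m c p) (mem_univ c)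
    rw [Function.update_self] at h3
    exact h3
  refine le_trans ?_ h1
  exact_mod_cast h2

/-- the remaining primes of a family have `χ = -1` -/
private theorem ap3_neg {P : Prm} {N y0 n : ℕ} [NeZero N] (hP : P.Ok) (hn : TCF.NumX P N) {B : Fin n → Finset ℕ}
    (hB : TCF.FamOk P N y0 B) (hy : MM P N ≤ y0) (χ : DirichletCharacter ℂ N) (hsq : χ ^ 2 = 1) (c : Fin n) {p : ℕ}
    (hp : p ∈ B c \ QS P χ) : p.Prime ∧ χ (p : ZMod N) = -1 := by
  rw [mem_sdiff] at hp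
  obtain ⟨h1, h2⟩ := hp
  obtain ⟨g1, g2, g3⟩ := hB.pr c p h1
  refine ⟨g1, ?_⟩
  have hN1 : (1 : ℝ) ≤ N := by
    have := TCF.N_two hn
    exact_mod_cast (by omega : 1 ≤ N)
  have hpN : p ≤ N := by
    have h3 := ap3_le hn hB c h1
    have h4 : (N : ℝ) ^ (P.kap / 100) ≤ (N : ℝ) ^ (1 : ℝ) := by
      refine Real.rpow_le_rpow_of_exponent_le hN1 ?_
      have h5 := hP.kap1
      linarith
    rw [Real.rpow_one] at h4
    exact_mod_cast h3.trans h4
  rcases RH.chi_pm hsq (RH.unit_of_coprime (g1.coprime_iff_not_dvd.2 g2)) with h | h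
  · exfalso
    refine h2 ?_
    rw [QS, mem_filter, mem_range]
    exact ⟨by omega, g1, by omega, h⟩
  · exact h

theorem ap3_thm (P : Prm) (hP : P.Ok) (W0 Cp : ℕ) (hW : 0 < W0) {δ0 δ1 δm δ2 e3 : ℝ} (hE : Exps3 P.kap Cp δ0 δ1 δm δ2 e3) :
    ∃ N0 : ℕ, ∀ (S : MS) (T : TC.Dat) [NeZero (W0 ^ 2 * T.N)] (y1 : ℕ) (D : TCF.Dat) (ε s u : ℝ), N0 ≤ T.N → Even T.N →
    Brg3 P S T W0 y1 D Cp δ0 δ1 δm δ2 ε e3 s u → Base P (W0 ^ 2 * T.N) D →
    T3F.Ap3 P (W0 ^ 2 * T.N) D (BdS S T y1) := by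
  obtain ⟨n1, h1⟩ := a0_thm P hP W0 Cp hW hE
  obtain ⟨n2, h2⟩ := a1_thm P hP W0 Cp hW hE
  obtain ⟨n3, h3⟩ := TCF.numx P hP
  refine ⟨n1 + n2 + n3, fun S T _ y1 D ε s u hN hev hB hb => ?_⟩
  have hRN : T.N ≤ W0 ^ 2 * T.N := Nat.le_mul_of_pos_left _ (by positivity)
  have hn := h3 (W0 ^ 2 * T.N) (by omega)
  have hy : MM P (W0 ^ 2 * T.N) ≤ D.y0 := by
    have g1 := TCF.y0_MM hn hb.ok
    have g2 := TCF.mm_one P (W0 ^ 2 * T.N)
    have g3 : MM P (W0 ^ 2 * T.N) ≤ MM P (W0 ^ 2 * T.N) ^ 4 := Nat.le_self_pow (by norm_num) _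
    omega
  constructor
  · exact h1 S T y1 D ε s u (by omega) hev hB
  · rintro χ hsq hne hsmall hblk ⟨L, hL1, hL2, hL3⟩
    have hok := (T3F.del_ok hn hb (QS P χ) (T3F.qs_fam hP hn hb.ok.fx χ hblk) (T3F.qs_fam hP hn hb.ok.fy χ hblk)).1
    exact h2 S T y1 D ε s u (by omega) hev hB χ hsq hne hsmall hok
      (fun c p hp => ap3_neg hP hn hb.ok.fx hy χ hsq c hp) (fun c p hp => ap3_neg hP hn hb.ok.fy hy χ hsq c hp) L hL1 hL2 hL3

end Pool.Agent.Lib.T3D
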