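import Pool.Agent.Lib.MP_7b7e48_nt.T3D.C3
import Pool.Agent.Lib.MP_7b7e48_nt.T3D.Ap3
import Pool.Agent.Lib.MP_7b7e48_nt.TCF.CBT
import Pool.Agent.Lib.MP_7b7e48_nt.TCF.Numx

/-!
# T3D / Fin: theorem TC3 from the core theorem
-/

set_option autoImplicit false

open Finset Filter

namespace Pool.Agent.Lib.T3D

open Pool.Agent.Lib.RH (Prm MM JJ)
open Pool.Agent.Lib.TC (MS Msr)
open Pool.Agent.Lib.TCB (wD BdS)
open Pool.Agent.Lib.MP_45349e_nt.LS (lam)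

open Classical in
/-- the `0 < n < N`, coprime to `N`, with `λ(n) = s`, `λ(N - n) = u`, `n` free of primes `≤ (log N) ^ A`, `N - n` free of primes `≤ N ^ δ` -/
noncomputable def fset (A : ℕ) (δ s u : ℝ) (N : ℕ) : Finset ℕ :=
  (Ioo 0 N).filter fun n => n.Coprime N ∧ lam n = s ∧ lam (N - n) = u ∧ (∀ p : ℕ, p.Prime → p ∣ n → (Real.log N) ^ A < p) ∧
    ∀ p : ℕ, p.Prime → p ∣ N - n → (N : ℝ) ^ δ < p

private theorem fin_EX {A : ℕ} {δ s u : ℝ} {T : TC.Dat} (hz : ⌊(T.N : ℝ) ^ δ⌋₊ ≤ T.z) (hy : (Real.log T.N) ^ A ≤ (T.y : ℝ)) :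
    EXF T s u ⊆ fset A δ s u T.N := by
  classical
  intro n hn
  unfold EXF at hn
  rw [mem_filter, mem_range] at hn
  obtain ⟨h1, ⟨h2, h3, h4, h5, h6⟩, h7, h8⟩ := hn
  unfold fset
  rw [mem_filter, mem_Ioo]
  refine ⟨⟨h2, h3⟩, h4, h7, h8, fun p hp hd => ?_, fun p hp hd => ?_⟩
  · have h8 : T.y < p := by
      by_contra h8
      exact h5 p hp (not_lt.1 h8) hd
    exact hy.trans_lt (by exact_mod_cast h8)
  · have h8 : T.z < p := by
      by_contra h8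
      exact h6 p hp (not_lt.1 h8) hd
    exact (Nat.floor_lt (Real.rpow_nonneg (Nat.cast_nonneg _) _)).1 (hz.trans_lt h8)

private theorem fin_z {δ : ℝ} (hδ : 0 < δ) : ∀ᶠ N : ℕ in atTop,
    Real.exp (Real.log N / (Real.log (Real.log N)) ^ 2) ≤ ⌊(N : ℝ) ^ δ⌋₊ := by
  have h1 : Tendsto (fun N : ℕ => Real.log N) atTop atTop := Real.tendsto_log_atTop.comp tendsto_natCast_atTop_atTop
  have h2 : Tendsto (fun N : ℕ => Real.log (Real.log N)) atTop atTop := Real.tendsto_log_atTop.comp h1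
  have h3 : Tendsto (fun N : ℕ => (Real.log (Real.log N)) ^ 2) atTop atTop := (tendsto_pow_atTop two_ne_zero).comp h2
  filter_upwards [h1.eventually_ge_atTop (2 / δ), h3.eventually_ge_atTop (2 / δ), eventually_ge_atTop 1] with N h4 h5 hN
  have hN0 : (0 : ℝ) < N := by exact_mod_cast hN
  have hd : 0 < 2 / δ := by positivity
  have hK : 0 < Real.log N := lt_of_lt_of_le hd h4
  have h6 : Real.log N / (Real.log (Real.log N)) ^ 2 ≤ δ / 2 * Real.log N := by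
    rw [div_le_iff₀ (lt_of_lt_of_le hd h5)]
    have h7 : 1 ≤ δ / 2 * (Real.log (Real.log N)) ^ 2 := by
      rw [div_le_iff₀ hδ] at h5
      linarith
    nlinarith
  have h8 : (2 : ℝ) ≤ Real.exp (δ / 2 * Real.log N) := by
    have h9 : 1 ≤ δ / 2 * Real.log N := by
      rw [div_le_iff₀ hδ] at h4
      linarith
    have := Real.add_one_le_exp (δ / 2 * Real.log N)
    linarith
  have h10 : (N : ℝ) ^ δ = Real.exp (δ / 2 * Real.log N) * Real.exp (δ / 2 * Real.log N) := by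
    rw [← Real.exp_add, Real.rpow_def_of_pos hN0]
    congr 1
    ring
  have h11 : (N : ℝ) ^ δ < ⌊(N : ℝ) ^ δ⌋₊ + 1 := Nat.lt_floor_add_one _
  have h12 : Real.exp (Real.log N / (Real.log (Real.log N)) ^ 2) ≤ Real.exp (δ / 2 * Real.log N) := Real.exp_le_exp.2 h6
  nlinarith

/-- **Theorem TC3** -/
theorem tc3 (hcore : Core3) (A : ℕ) (ε : ℝ) (hε : 0 < ε) (hε1 : ε ≤ 1) : ∃ δ : ℝ, 0 < δ ∧ ∃ N0 : ℕ, ∀ N : ℕ, N0 ≤ N → Even N → ∀ s u : ℝ,
    (s = 1 ∨ s = -1) → (u = 1 ∨ u = -1) → (N : ℝ) ^ (1 - ε) < ((fset A δ s u N).card : ℝ) := by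
  obtain ⟨κ0, hκ0, hκ1, F⟩ := Pool.Agent.Lib.T3F.frame3
  obtain ⟨c0, hc0, A0, F2⟩ := F κ0 hκ0 le_rfl
  obtain ⟨P, hPd⟩ : ∃ P : Prm, P = ⟨κ0, min c0 (κ0 / 10000), max 10 (max A A0)⟩ := ⟨_, rfl⟩
  have hP : P.Ok := by
    rw [hPd]
    exact ⟨hκ0, hκ1, lt_min hc0 (by positivity), min_le_right _ _, le_max_left _ _⟩
  have hPA : A ≤ P.C1 := by rw [hPd]; exact (le_max_left _ _).trans (le_max_right _ _)
  obtain ⟨N1, F3⟩ := F2 P hP (by rw [hPd]) (by rw [hPd]; exact min_le_left _ _) (by rw [hPd]; exact (le_max_right _ _).trans (le_max_right _ _))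
  obtain ⟨W0, Cp, δ0, δ1, δm, δ2, δz, hW, hδz, hE, N2, hcz⟩ := hcore P hP (ε / 2) (by positivity) (by linarith)
  obtain ⟨N3, hap⟩ := ap3_thm P hP W0 Cp hW hE
  obtain ⟨N5, hcnt⟩ := Pool.Agent.Lib.TCF.cnt P hP
  obtain ⟨N6, hnx⟩ := Pool.Agent.Lib.TCF.numx P hP
  have hlog : Tendsto (fun N : ℕ => Real.log N) atTop atTop := Real.tendsto_log_atTop.comp tendsto_natCast_atTop_atTop
  have hev : ∀ᶠ N : ℕ in atTop, Even N → ∀ s u : ℝ, (s = 1 ∨ s = -1) → (u = 1 ∨ u = -1) →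
      (N : ℝ) ^ (1 - ε) < ((fset A δz s u N).card : ℝ) := by
    filter_upwards [fin_z hδz, hlog.eventually_ge_atTop 1,
      eventually_ge_atTop (max (max N1 N2) (max N3 (max N5 (max N6 1))))] with N g2 g6 g7 hNe s u hs hu
    simp only [max_le_iff] at g7
    obtain ⟨⟨n1, n2⟩, n3, n5, n6, n7⟩ := g7
    by_contra hcon
    rw [not_lt] at hcon
    have hN0 : (0 : ℝ) < N := by exact_mod_cast n7
    obtain ⟨S, T, y1, D, ε', hO⟩ := hcz N n2 hNe ⌊(N : ℝ) ^ δz⌋₊ g2 (Nat.floor_le (Real.rpow_nonneg hN0.le _))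
    have hTN := hO.TN
    have hRpos : 0 < W0 ^ 2 * N := by positivity
    have hRN : N ≤ W0 ^ 2 * N := Nat.le_mul_of_pos_left _ (by positivity)
    have hRN' : (N : ℝ) ≤ ((W0 ^ 2 * N : ℕ) : ℝ) := by exact_mod_cast hRN
    have hn := hnx (W0 ^ 2 * N) (n6.trans hRN)
    have hlR : Real.log N ≤ Real.log ((W0 ^ 2 * N : ℕ) : ℝ) := Real.log_le_log hN0 hRN'
    have hy : (Real.log N) ^ A ≤ (T.y : ℝ) := by
      rw [hO.Ty]
      calc (Real.log N) ^ A ≤ (Real.log N) ^ P.C1 := pow_le_pow_right₀ g6 hPA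
        _ ≤ (Real.log ((W0 ^ 2 * N : ℕ) : ℝ)) ^ P.C1 := pow_le_pow_left₀ (by linarith) hlR _
        _ ≤ _ := hn.num.M1
    have hEX : ((EXF T s u).card : ℝ) ≤ (N : ℝ) ^ (1 - 2 * (ε / 2)) := by
      have h1 : EXF T s u ⊆ fset A δz s u N := by
        have := @fin_EX A δz s u T (by rw [hTN, hO.Tz]) (by rw [hTN]; exact hy)
        rwa [hTN] at this
      have h2 : 1 - 2 * (ε / 2) = 1 - ε := by ring
      rw [h2]
      exact le_trans (by exact_mod_cast card_le_card h1) hcon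
    have hs2 : s ^ 2 = 1 := by rcases hs with rfl | rfl <;> norm_num
    have hu2 : u ^ 2 = 1 := by rcases hu with rfl | rfl <;> norm_num
    have hB := hO.brg s u hs2 hu2 hEX
    subst hTN
    haveI : NeZero (W0 ^ 2 * T.N) := ⟨hRpos.ne'⟩
    have hA3 := hap S T y1 D ε' s u n3 hNe hB hO.base.base
    exact F3 (W0 ^ 2 * T.N) (n1.trans hRN) (fun D' hD' => hcnt (W0 ^ 2 * T.N) (n5.trans hRN) D' hD') D hO.base _ hO.bs hA3
  obtain ⟨N0, hN0⟩ := eventually_atTop.1 hev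
  exact ⟨δz, hδz, N0, fun N hN => hN0 N hN⟩

end Pool.Agent.Lib.T3D
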