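import Pool.Agent.Lib.MP_7b7e48_nt.T3D.Fin
import Pool.Agent.Lib.MP_7b7e48_nt.TC.FinB

/-!
# FinB: theorem TC3 in the form of the hand-in
-/

set_option autoImplicit false

open Finset Filter
open Pool.Agent.Lib.MP_45349e_nt.LS (lam)
open ArithmeticFunction (cardFactors)

namespace Pool.Agent.Lib.T3D

private theorem finb_par {a i : ℕ} (hi : i < 2) (h : lam a = (-1) ^ i) : cardFactors a % 2 = i := by
  unfold lam at h
  rcases Nat.even_or_odd (cardFactors a) with he | ho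
  · rw [he.neg_one_pow] at h
    interval_cases i
    · exact Nat.even_iff.1 he
    · norm_num at h
  · rw [ho.neg_one_pow] at h
    interval_cases i
    · norm_num at h
    · exact Nat.odd_iff.1 ho

open Classical in
theorem tc3_hand (hcore : Core3) (A : ℕ) (ε : ℝ) (hε : 0 < ε) : ∃ C : ℕ, ∃ N₀ : ℕ, ∀ N : ℕ, N₀ ≤ N → Even N → ∀ i j : ℕ, i < 2 → j < 2 →
    (N : ℝ) ^ (1 - ε) ≤ (((Ioo 0 N).filter fun a => a.Coprime N ∧ a ≠ N - a ∧ cardFactors a % 2 = i ∧ cardFactors (N - a) % 2 = j ∧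
    (∀ p ∈ a.primeFactors, Real.log N ^ A < p) ∧ (∀ p ∈ (N - a).primeFactors, (N : ℝ) ^ (1 / (C : ℝ)) < p) ∧
    cardFactors (N - a) < C).card : ℝ) := by
  obtain ⟨δ, hδ, N0, h⟩ := tc3 hcore A (min ε 1) (lt_min hε one_pos) (min_le_right _ _)
  obtain ⟨C, hC⟩ := exists_nat_gt (1 / δ)
  have hC0 : (0 : ℝ) < C := lt_trans (by positivity) hC
  have hCn : 0 < C := by exact_mod_cast hC0
  refine ⟨C, max N0 3, fun N hN hev i j hi hj => ?_⟩
  have hN0 : N0 ≤ N := (le_max_left _ _).trans hN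
  have hN3 : 3 ≤ N := (le_max_right _ _).trans hN
  have hN1 : (1 : ℝ) ≤ N := by exact_mod_cast (by omega : 1 ≤ N)
  have hpm : ∀ i : ℕ, i < 2 → ((-1 : ℝ) ^ i = 1 ∨ (-1 : ℝ) ^ i = -1) := by
    intro i hi
    interval_cases i
    · left; norm_num
    · right; norm_num
  have h1 := h N hN0 hev ((-1) ^ i) ((-1) ^ j) (hpm i hi) (hpm j hj)
  have h2 : (N : ℝ) ^ (1 - ε) ≤ (N : ℝ) ^ (1 - min ε 1) :=
    Real.rpow_le_rpow_of_exponent_le hN1 (by linarith [min_le_left ε 1])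
  refine h2.trans (h1.le.trans ?_)
  have h3 : fset A δ ((-1) ^ i) ((-1) ^ j) N ⊆ (Ioo 0 N).filter fun a => a.Coprime N ∧ a ≠ N - a ∧ cardFactors a % 2 = i ∧
    cardFactors (N - a) % 2 = j ∧
    (∀ p ∈ a.primeFactors, Real.log N ^ A < p) ∧ (∀ p ∈ (N - a).primeFactors, (N : ℝ) ^ (1 / (C : ℝ)) < p) ∧
    cardFactors (N - a) < C := by
    intro a ha
    unfold fset at ha
    rw [mem_filter, mem_Ioo] at ha
    obtain ⟨⟨ha1, ha2⟩, hc, hl, hl', hp, hq⟩ := ha
    have hq' : ∀ p ∈ (N - a).primeFactors, (N : ℝ) ^ (1 / (C : ℝ)) < p := by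
      intro p hpp
      refine lt_of_le_of_lt ?_ (hq p (Nat.prime_of_mem_primeFactors hpp) (Nat.dvd_of_mem_primeFactors hpp))
      refine Real.rpow_le_rpow_of_exponent_le hN1 ?_
      rw [div_le_iff₀ hC0]
      rw [div_lt_iff₀ hδ] at hC
      linarith
    rw [mem_filter, mem_Ioo]
    refine ⟨⟨ha1, ha2⟩, hc, ?_, finb_par hi hl, finb_par hj hl', fun p hpp => hp p (Nat.prime_of_mem_primeFactors hpp)
      (Nat.dvd_of_mem_primeFactors hpp), hq', Pool.Agent.Lib.TC.finb_Omega (by omega) (by omega) hCn hq'⟩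
    intro he
    have h4 : N = 2 * a := by omega
    rw [h4] at hc
    have h5 : a = 1 := by
      have := Nat.Coprime.eq_one_of_dvd hc (Dvd.intro_left 2 rfl)
      exact this
    omega
  exact_mod_cast card_le_card h3

end Pool.Agent.Lib.T3D
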