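import Pool.Agent.Lib.MP_7b7e48_nt.T3D.FinB
import Pool.Agent.Lib.MP_7b7e48_nt.T3C.Core3

/-!
# T3D / FinC: theorem TC3, final form
-/

set_option autoImplicit false

open Finset

namespace Pool.Agent.Lib.T3D

open ArithmeticFunction (cardFactors)

open Classical in
/-- **Theorem TC3** in the form of the hand-in -/
theorem tc3_final (A : ℕ) (ε : ℝ) (hε : 0 < ε) : ∃ C : ℕ, ∃ N₀ : ℕ, ∀ N : ℕ, N₀ ≤ N → Even N → ∀ i j : ℕ, i < 2 → j < 2 →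
    (N : ℝ) ^ (1 - ε) ≤ (((Ioo 0 N).filter fun a => a.Coprime N ∧ a ≠ N - a ∧ cardFactors a % 2 = i ∧ cardFactors (N - a) % 2 = j ∧
    (∀ p ∈ a.primeFactors, Real.log N ^ A < p) ∧ (∀ p ∈ (N - a).primeFactors, (N : ℝ) ^ (1 / (C : ℝ)) < p) ∧
    cardFactors (N - a) < C).card : ℝ) :=
  tc3_hand Pool.Agent.Lib.TC.MPar.core3 A ε hε

end Pool.Agent.Lib.T3D
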