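import Pool.Agent.Lib.MP_7b7e48_nt.T3D.Tm

/-!
# T3D / Pr (110 minutes): the pairs without a common good cycle

`x μ ν := prX prY ≤ 2 (m1_j)⁻¹`. PROOF. For fixed `μ, ν` and `(X, X') ∈ A × B` not linked: by the coverings `1 ≤ ∑_{i ∈ I} ∑_{n ≤ nm_i} [X_i n = X] Om_i n` and the same for `X'` (one term is `≥ 1`, all terms are `≥ 0`: `OK3.Om_nonneg`), so the number of such pairs is
`≤ ∑_{i, j ∈ I} ∑_{n, n'} Om_i n Om_j n' F n n'`, `F n n' = 1` if the conditions of `Wbad2` hold for `X_i n`, `X_j n'` and `0` otherwise (for given `i, n` there is only one `X`). If `(μ, ν)` is a bad pair then `A μ ν = ∅` or `B μ ν = ∅` by `hb`. Multiply by `x ≤ 2 (m1_j)⁻¹` and sum: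
`≤ 2 ∑_{i,j} Wbad2 (M i) (M j) T W0 y1 ≤ 2 ∑_{i,j} (ε tot_i W_j + N^(-δ2) W_i W_j) ≤ 2 (2 ε ρ + N^(-δ2)) (∑ w)^2` (`0 < W_i ≤ w_i`, `0 ≤ ρ`).
-/

set_option autoImplicit false

open Finset

namespace Pool.Agent.Lib.T3D

open Pool.Agent.Lib.RG (Rough LV RC PZ)
open Pool.Agent.Lib.RH (Prm MM JJ Blk)
open Pool.Agent.Lib.TC (MS Msr)
open Pool.Agent.Lib.TCB (famX famY CR wD Wei dq BdS lenW dvW gW LW t2W)
open Pool.Agent.Lib.TCF (TUP rho TM Rgh1 wt AP QS QM sgm)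
open Pool.Agent.Lib.MP_45349e_nt.LS (lam)

open Classical in
/-- the weight of a pair of numbers -/
private noncomputable def PrC (S : MS) (T : TC.Dat) (W0 : ℕ) (μ : S.TX) (ν : S.TY) (X X' : ℕ) : ℝ :=
  if (CR T W0 X ∧ CR T W0 (X - T.D * T.N)) ∧ (CR T W0 X' ∧ CR T W0 (X' - T.D * T.N)) ∧ X ≡ X' [MOD W0] ∧ ¬ S.Linked2 T μ ν X X' then 1 else 0

private theorem PrC_nonneg (S : MS) (T : TC.Dat) (W0 : ℕ) (μ : S.TX) (ν : S.TY) (X X' : ℕ) : 0 ≤ PrC S T W0 μ ν X X' := by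
  unfold PrC
  split_ifs
  · exact zero_le_one
  · exact le_rfl

open Classical in
private theorem Pr_count {S : MS} {T : TC.Dat} {W0 : ℕ} {ι : Type} (I : Finset ι) (M : ι → Msr S) (μ : S.TX) (ν : S.TY)
    (hOm : ∀ i ∈ I, ∀ n, 0 ≤ (M i).Om μ ν n) (A B : Finset ℕ)
    (hA : ∀ X ∈ A, ∃ i ∈ I, ∃ n ≤ (M i).nm, (M i).X μ ν n = X ∧ 1 ≤ (M i).Om μ ν n)
    (hB : ∀ X ∈ B, ∃ i ∈ I, ∃ n ≤ (M i).nm, (M i).X μ ν n = X ∧ 1 ≤ (M i).Om μ ν n)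
    (hcA : ∀ X ∈ A, CR T W0 X ∧ CR T W0 (X - T.D * T.N)) (hcB : ∀ X ∈ B, CR T W0 X ∧ CR T W0 (X - T.D * T.N))
    (hAB : ∀ X ∈ A, ∀ X' ∈ B, X ≡ X' [MOD W0]) :
    (((A ×ˢ B).filter fun q => ¬ S.Linked2 T μ ν q.1 q.2).card : ℝ) ≤
      ∑ i ∈ I, ∑ j ∈ I, ∑ n ∈ range ((M i).nm + 1), ∑ n' ∈ range ((M j).nm + 1),
        (M i).Om μ ν n * (M j).Om μ ν n' * PrC S T W0 μ ν ((M i).X μ ν n) ((M j).X μ ν n') := by
  obtain ⟨F, hF⟩ : ∃ F, F = (A ×ˢ B).filter fun q => ¬ S.Linked2 T μ ν q.1 q.2 := ⟨_, rfl⟩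
  rw [← hF]
  obtain ⟨g, hg⟩ : ∃ g : ℕ × ℕ → ι → ι → ℕ → ℕ → ℝ, g = fun q i j n n' =>
      (M i).Om μ ν n * (M j).Om μ ν n' * PrC S T W0 μ ν ((M i).X μ ν n) ((M j).X μ ν n') *
        (if ((M i).X μ ν n, (M j).X μ ν n') = q then 1 else 0) := ⟨_, rfl⟩
  have hg0 : ∀ q, ∀ i ∈ I, ∀ j ∈ I, ∀ n n', 0 ≤ g q i j n n' := by
    intro q i hi j hj n n'
    rw [hg]
    refine mul_nonneg (mul_nonneg (mul_nonneg (hOm i hi n) (hOm j hj n')) (PrC_nonneg _ _ _ _ _ _ _)) ?_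
    split_ifs
    · exact zero_le_one
    · exact le_rfl
  have h1 : ∀ q ∈ F, (1 : ℝ) ≤ ∑ i ∈ I, ∑ j ∈ I, ∑ n ∈ range ((M i).nm + 1), ∑ n' ∈ range ((M j).nm + 1), g q i j n n' := by
    intro q hq
    rw [hF, mem_filter, mem_product] at hq
    obtain ⟨⟨hqA, hqB⟩, hl⟩ := hq
    obtain ⟨i, hi, n, hn, hX, hO⟩ := hA q.1 hqA
    obtain ⟨j, hj, n', hn', hX', hO'⟩ := hB q.2 hqB
    have e1 : (1 : ℝ) ≤ g q i j n n' := by
      rw [hg]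
      show (1 : ℝ) ≤ (M i).Om μ ν n * (M j).Om μ ν n' * PrC S T W0 μ ν ((M i).X μ ν n) ((M j).X μ ν n') *
        (if ((M i).X μ ν n, (M j).X μ ν n') = q then 1 else 0)
      rw [hX, hX', if_pos rfl, mul_one]
      unfold PrC
      rw [if_pos ⟨hcA q.1 hqA, hcB q.2 hqB, hAB q.1 hqA q.2 hqB, hl⟩, mul_one]
      calc (1 : ℝ) = 1 * 1 := (one_mul 1).symm
        _ ≤ _ := mul_le_mul hO hO' zero_le_one (zero_le_one.trans hO)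
    have e2 : g q i j n n' ≤ ∑ n' ∈ range ((M j).nm + 1), g q i j n n' :=
      single_le_sum (f := fun n' => g q i j n n') (fun m _ => hg0 q i hi j hj n m) (mem_range.2 (by omega))
    have e3 : ∑ n' ∈ range ((M j).nm + 1), g q i j n n' ≤ ∑ n ∈ range ((M i).nm + 1), ∑ n' ∈ range ((M j).nm + 1), g q i j n n' :=
      single_le_sum (f := fun n => ∑ n' ∈ range ((M j).nm + 1), g q i j n n')
        (fun m _ => sum_nonneg fun m' _ => hg0 q i hi j hj m m') (mem_range.2 (by omega))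
    have e4 : ∑ n ∈ range ((M i).nm + 1), ∑ n' ∈ range ((M j).nm + 1), g q i j n n' ≤
        ∑ j ∈ I, ∑ n ∈ range ((M i).nm + 1), ∑ n' ∈ range ((M j).nm + 1), g q i j n n' :=
      single_le_sum (f := fun j => ∑ n ∈ range ((M i).nm + 1), ∑ n' ∈ range ((M j).nm + 1), g q i j n n')
        (fun j' hj' => sum_nonneg fun m _ => sum_nonneg fun m' _ => hg0 q i hi j' hj' m m') hj
    have e5 : ∑ j ∈ I, ∑ n ∈ range ((M i).nm + 1), ∑ n' ∈ range ((M j).nm + 1), g q i j n n' ≤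
        ∑ i ∈ I, ∑ j ∈ I, ∑ n ∈ range ((M i).nm + 1), ∑ n' ∈ range ((M j).nm + 1), g q i j n n' :=
      single_le_sum (f := fun i => ∑ j ∈ I, ∑ n ∈ range ((M i).nm + 1), ∑ n' ∈ range ((M j).nm + 1), g q i j n n')
        (fun i' hi' => sum_nonneg fun j' hj' => sum_nonneg fun m _ => sum_nonneg fun m' _ => hg0 q i' hi' j' hj' m m') hi
    linarith
  have h2 : (F.card : ℝ) = ∑ _q ∈ F, (1 : ℝ) := by rw [sum_const, nsmul_eq_mul, mul_one]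
  rw [h2]
  refine (sum_le_sum h1).trans ?_
  rw [sum_comm]
  refine sum_le_sum fun i hi => ?_
  rw [sum_comm]
  refine sum_le_sum fun j hj => ?_
  rw [sum_comm]
  refine sum_le_sum fun n _ => ?_
  rw [sum_comm]
  refine sum_le_sum fun n' _ => ?_
  rw [hg]
  show ∑ q ∈ F, (M i).Om μ ν n * (M j).Om μ ν n' * PrC S T W0 μ ν ((M i).X μ ν n) ((M j).X μ ν n') *
        (if ((M i).X μ ν n, (M j).X μ ν n') = q then 1 else 0) ≤ _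
  rw [← mul_sum, sum_ite_eq]
  refine mul_le_of_le_one_right (mul_nonneg (mul_nonneg (hOm i hi n) (hOm j hj n')) (PrC_nonneg _ _ _ _ _ _ _)) ?_
  split_ifs
  · exact le_rfl
  · exact zero_le_one

open Classical in
/-- one summand of `Wbad2` -/
private noncomputable def PrW (S : MS) (T : TC.Dat) (W0 y1 : ℕ) (M M' : Msr S) (μ : S.TX) (ν : S.TY) : ℝ :=
  if S.badpair T 0 y1 μ ν then 0 else M.S2 M' μ ν fun n n' => PrC S T W0 μ ν (M.X μ ν n) (M'.X μ ν n')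

private theorem Pr_W (S : MS) (T : TC.Dat) (W0 y1 : ℕ) (M M' : Msr S) :
    Wbad2 M M' T W0 y1 = ∑ μ ∈ S.MX, ∑ ν ∈ S.MY, PrW S T W0 y1 M M' μ ν := by
  rfl

open Classical in
theorem pairs {S : MS} {T : TC.Dat} {W0 y1 : ℕ} {δ0 δ1 δ2 ε ρ : ℝ} {ι : Type} (I : Finset ι) (M : ι → Msr S) (w : ι → ℝ)
    (hM : ∀ i ∈ I, TMs (M i) T W0 δ0 δ1 ρ (w i)) (hε : 0 ≤ ε) (hρ : 0 ≤ ρ) (hP : PLem2 S T W0 y1 δ0 δ1 δ2 ε)
    (A B : S.TX → S.TY → Finset ℕ) (hA : Cov I M A) (hB : Cov I M B)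
    (hb : ∀ μ ∈ S.MX, ∀ ν ∈ S.MY, S.badpair T 0 y1 μ ν → A μ ν = ∅)
    (hcA : ∀ μ ∈ S.MX, ∀ ν ∈ S.MY, ∀ X ∈ A μ ν, TCB.CR T W0 X ∧ TCB.CR T W0 (X - T.D * T.N))
    (hcB : ∀ μ ∈ S.MX, ∀ ν ∈ S.MY, ∀ X ∈ B μ ν, TCB.CR T W0 X ∧ TCB.CR T W0 (X - T.D * T.N))
    (hAB : ∀ μ ∈ S.MX, ∀ ν ∈ S.MY, ∀ X ∈ A μ ν, ∀ X' ∈ B μ ν, X ≡ X' [MOD W0]) :
    ∑ μ ∈ S.MX, ∑ ν ∈ S.MY, ((S.prX id μ * S.prY id ν : ℕ) : ℝ) *
      (((A μ ν ×ˢ B μ ν).filter fun q => ¬ S.Linked2 T μ ν q.1 q.2).card : ℝ) ≤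
      2 * (2 * ε * ρ + (T.N : ℝ) ^ (-δ2)) * (∑ i ∈ I, w i) ^ 2 := by
  classical
  have hkey : ∀ μ ∈ S.MX, ∀ ν ∈ S.MY, ((S.prX id μ * S.prY id ν : ℕ) : ℝ) *
      (((A μ ν ×ˢ B μ ν).filter fun q => ¬ S.Linked2 T μ ν q.1 q.2).card : ℝ) ≤ ∑ i ∈ I, ∑ j ∈ I, 2 * PrW S T W0 y1 (M i) (M j) μ ν := by
    intro μ hμ ν hν
    by_cases hbad : S.badpair T 0 y1 μ ν
    · rw [hb μ hμ ν hν hbad, empty_product, filter_empty, card_empty, Nat.cast_zero, mul_zero]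
      refine le_of_eq (Eq.symm (sum_eq_zero fun i _ => sum_eq_zero fun j _ => ?_))
      unfold PrW
      rw [if_pos hbad, mul_zero]
    · have h1 := Pr_count (T := T) (W0 := W0) I M μ ν (fun i hi n => (hM i hi).ok.Om_nonneg μ ν n) (A μ ν) (B μ ν) (hA μ hμ ν hν) (hB μ hμ ν hν)
        (hcA μ hμ ν hν) (hcB μ hμ ν hν) (hAB μ hμ ν hν)
      have hx : (0 : ℝ) ≤ ((S.prX id μ * S.prY id ν : ℕ) : ℝ) := Nat.cast_nonneg _
      refine (mul_le_mul_of_nonneg_left h1 hx).trans ?_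
      rw [mul_sum]
      refine sum_le_sum fun i hi => ?_
      rw [mul_sum]
      refine sum_le_sum fun j hj => ?_
      unfold PrW
      rw [if_neg hbad]
      unfold Msr.S2
      rw [← mul_assoc]
      refine mul_le_mul_of_nonneg_right ((hM j hj).m1 μ hμ ν hν) ?_
      exact sum_nonneg fun n _ => sum_nonneg fun n' _ => mul_nonneg (mul_nonneg ((hM i hi).ok.Om_nonneg μ ν n) ((hM j hj).ok.Om_nonneg μ ν n'))
        (PrC_nonneg _ _ _ _ _ _ _)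
  have h1 : ∑ μ ∈ S.MX, ∑ ν ∈ S.MY, ((S.prX id μ * S.prY id ν : ℕ) : ℝ) *
      (((A μ ν ×ˢ B μ ν).filter fun q => ¬ S.Linked2 T μ ν q.1 q.2).card : ℝ) ≤
      ∑ μ ∈ S.MX, ∑ ν ∈ S.MY, ∑ i ∈ I, ∑ j ∈ I, 2 * PrW S T W0 y1 (M i) (M j) μ ν :=
    sum_le_sum fun μ hμ => sum_le_sum fun ν hν => hkey μ hμ ν hν
  have h2 : ∑ μ ∈ S.MX, ∑ ν ∈ S.MY, ∑ i ∈ I, ∑ j ∈ I, 2 * PrW S T W0 y1 (M i) (M j) μ ν =
      ∑ i ∈ I, ∑ j ∈ I, 2 * Wbad2 (M i) (M j) T W0 y1 := by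
    have e1 : ∀ μ ∈ S.MX, ∑ ν ∈ S.MY, ∑ i ∈ I, ∑ j ∈ I, 2 * PrW S T W0 y1 (M i) (M j) μ ν =
        ∑ i ∈ I, ∑ j ∈ I, ∑ ν ∈ S.MY, 2 * PrW S T W0 y1 (M i) (M j) μ ν := by
      intro μ _
      rw [sum_comm]
      exact sum_congr rfl fun i _ => sum_comm
    rw [sum_congr rfl e1, sum_comm]
    refine sum_congr rfl fun i _ => ?_
    rw [sum_comm]
    refine sum_congr rfl fun j _ => ?_
    rw [Pr_W, mul_sum]
    exact sum_congr rfl fun μ _ => (mul_sum _ _ _).symm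
  rw [h2] at h1
  refine h1.trans ?_
  have hNd : (0 : ℝ) ≤ (T.N : ℝ) ^ (-δ2) := Real.rpow_nonneg (Nat.cast_nonneg _) _
  have h3 : ∀ i ∈ I, ∀ j ∈ I, 2 * Wbad2 (M i) (M j) T W0 y1 ≤ 2 * (2 * ε * ρ + (T.N : ℝ) ^ (-δ2)) * (w i * w j) := by
    intro i hi j hj
    have e1 := hP (M i) (M j) (hM i hi).ok (hM j hj).ok
    have wi := (hM i hi).ok.W_pos
    have wj := (hM j hj).ok.W_pos
    have e2 : (M i).tot * (M j).W ≤ 2 * (M i).W * ρ * (M j).W := mul_le_mul_of_nonneg_right (hM i hi).tot wj.le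
    have e3 : (M i).W * (M j).W ≤ w i * w j := mul_le_mul (hM i hi).W (hM j hj).W wj.le (wi.le.trans (hM i hi).W)
    have e4 : ε * ((M i).tot * (M j).W) ≤ ε * (2 * (M i).W * ρ * (M j).W) := mul_le_mul_of_nonneg_left e2 hε
    have e5 : (0 : ℝ) ≤ 2 * ε * ρ + (T.N : ℝ) ^ (-δ2) := by positivity
    have e6 := mul_le_mul_of_nonneg_left e3 e5
    nlinarith
  refine (sum_le_sum fun i hi => sum_le_sum fun j hj => h3 i hi j hj).trans (le_of_eq ?_)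
  rw [sq, sum_mul_sum, mul_sum]
  exact sum_congr rfl fun i _ => (mul_sum _ _ _).symm

end Pool.Agent.Lib.T3D
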