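import Pool.Agent.Lib.MP_7b7e48_nt.T3D.Def

/-!
# T3D / Tm (0 minutes): definitions: test measures, coverings

Definitions only. `tX`, `tY`: the measures of a test measure `(v, o, L)` of the frame on the ranges `X ∈ (D' R, (D' + J0) R]`, resp. `Y ∈ (0, J0 R]`. `TMs`: what is used of a measure. `Cov`: every `X ∈ A μ ν` is a value of one of the measures with weight `≥ 1`.
-/

set_option autoImplicit false

open Finset

namespace Pool.Agent.Lib.T3D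

open Pool.Agent.Lib.RG (Rough LV RC PZ)
open Pool.Agent.Lib.RH (Prm MM JJ Blk)
open Pool.Agent.Lib.TC (MS Msr)
open Pool.Agent.Lib.TCB (famX famY CR wD Wei dq BdS lenW dvW gW LW t2W)
open Pool.Agent.Lib.TCF (TUP rho TM Rgh1 wt AP QS QM sgm)
open Pool.Agent.Lib.MP_45349e_nt.LS (lam)

/-- the measure of kind `X` of a test measure -/
noncomputable def tX (S : MS) (T : TC.Dat) (D : TCF.Dat) (W0 D' v : ℕ) (o : Option (ℕ → ℝ)) (L : ℝ) : Msr S :=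
  mX S (wD T (W0 ^ 2 * D')) v (D' * (W0 ^ 2 * T.N)) ((D' + D.J0) * (W0 ^ 2 * T.N)) (t2W o) (wt T.y0 o) (LW T.y0 o L) (gW T.y0 o)

/-- the measure of kind `Y` of a test measure -/
noncomputable def tY (S : MS) (T : TC.Dat) (D : TCF.Dat) (W0 D' v : ℕ) (o : Option (ℕ → ℝ)) (L : ℝ) : Msr S :=
  mY S (wD T (W0 ^ 2 * D')) v 0 (D.J0 * (W0 ^ 2 * T.N)) (t2W o) (wt T.y0 o) (LW T.y0 o L) (gW T.y0 o)

/-- what is used of a measure; `ρ = rho BX rho BY`, `w`: bound for the mass -/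
structure TMs {S : MS} (M : Msr S) (T : TC.Dat) (W0 : ℕ) (δ0 δ1 ρ w : ℝ) : Prop where
  ok : M.OK3 T W0 δ0 δ1
  m1 : ∀ μ ∈ S.MX, ∀ ν ∈ S.MY, ((S.prX id μ * S.prY id ν : ℕ) : ℝ) ≤ 2 * (M.m1 μ ν)⁻¹
  tot : M.tot ≤ 2 * M.W * ρ
  W : M.W ≤ w

/-- every `X ∈ A μ ν` is a value of one of the measures, with weight `≥ 1` -/
def Cov {S : MS} {ι : Type} (I : Finset ι) (M : ι → Msr S) (A : S.TX → S.TY → Finset ℕ) : Prop :=
  ∀ μ ∈ S.MX, ∀ ν ∈ S.MY, ∀ X ∈ A μ ν, ∃ i ∈ I, ∃ n ≤ (M i).nm, (M i).X μ ν n = X ∧ 1 ≤ (M i).Om μ ν n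

/-- the sets `B^+` (`x = 1`) and `B^-` (`x = -1`) of the pairs `(μ, ν)` which are not bad and belong to the family of `D1` -/
noncomputable def BS (P : Prm) (S : MS) (T : TC.Dat) (W0 y1 : ℕ) (D1 : TCF.Dat) (D' r : ℕ) (x : ℝ) (μ : S.TX) (ν : S.TY) : Finset ℕ := by
  classical
  exact if S.prX id μ ∈ TUP D1.BX ∧ S.prY id ν ∈ TUP D1.BY ∧ ¬ S.badpair T 0 y1 μ ν then
    BP P W0 T.N D' (D' * (W0 ^ 2 * T.N)) ((D' + D1.J0) * (W0 ^ 2 * T.N)) r (S.prX id μ) (S.prY id ν) x else ∅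

end Pool.Agent.Lib.T3D
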